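import Pool.Agent.Lib_MP_22d2c8_rt.Lam

/-!
# [RT-1b] `lam` and the Ackermann function

`lam_ack` (two-step induction on `d`): `lam 0`: `ack 3 t = 2 ^ (t + 3) - 3 ≥ (t + 1) ^ 2`; `lam 1`:
`ack 3 t ≥ 2 ^ (t + 1)`. Step: `(d + 2) / 2 + 3 = (d / 2 + 3) + 1 =: e + 1`. `t < lam (d + 2) N` iff
`2 ≤ (lam d)^[t] N`. Induction on `t`: `ack (e + 1) 0 = ack e 1 ≥ 2`;
`ack (e + 1) (t + 1) = ack e (ack (e + 1) t) ≤ N` gives `ack (e + 1) t < lam d N` by the induction
hypothesis for `d`, so `2 ≤ (lam d)^[t] (lam d N)` by the one for `t`.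
(Mathlib: `ack_three`, `ack_succ_succ`, `ack_succ_zero`, `lt_ack_right`, ...)
-/

namespace Pool.Agent.Lib_MP_22d2c8_rt

private theorem sq_aux (t : ℕ) : (t + 1) ^ 2 + 3 ≤ 2 ^ (t + 3) := by
  induction t with
  | zero => norm_num
  | succ t ih =>
    have h1 : t < 2 ^ t := Nat.lt_two_pow_self
    have h2 : 2 ^ (t + 3) = 8 * 2 ^ t := by ring
    have h3 : 2 ^ (t + 1 + 3) = 2 * 2 ^ (t + 3) := by ring
    have h4 : (t + 1 + 1) ^ 2 = (t + 1) ^ 2 + (2 * t + 3) := by ring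
    rw [h3, h4]
    omega

private theorem log_aux (t : ℕ) : 2 ^ (t + 1) + 3 ≤ 2 ^ (t + 3) := by
  have h1 : 0 < 2 ^ t := Nat.two_pow_pos t
  have h2 : 2 ^ (t + 3) = 8 * 2 ^ t := by ring
  have h3 : 2 ^ (t + 1) = 2 * 2 ^ t := by ring
  omega

private theorem iter_stay (d : ℕ) {m i j : ℕ} (h : (lam d)^[i] m ≤ 1) (hij : i ≤ j) :
    (lam d)^[j] m ≤ 1 := by
  induction j, hij using Nat.le_induction with
  | base => exact h
  | succ k _ ih =>
    rw [Function.iterate_succ_apply']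
    exact lam_le_one d ih

private theorem lt_lam (d : ℕ) {N t : ℕ} (h : 2 ≤ (lam d)^[t] N) : t < lam (d + 2) N := by
  by_contra hc
  push Not at hc
  have hne : {i | (lam d)^[i] N ≤ 1}.Nonempty := ⟨N, iter_le_one d le_rfl⟩
  have h1 : (lam d)^[lam (d + 2) N] N ≤ 1 := Nat.sInf_mem hne
  have h2 := iter_stay d h1 hc
  omega

private theorem lam_ack_aux : ∀ d t N : ℕ, ack (d / 2 + 3) t ≤ N → t < lam d N
  | 0, t, N, h => by
    have h0 : ack (0 / 2 + 3) t = 2 ^ (t + 3) - 3 := ack_three t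
    rw [h0] at h
    have h1 := sq_aux t
    have h2 : (t + 1) ^ 2 ≤ N := by omega
    exact Nat.le_sqrt'.2 h2
  | 1, t, N, h => by
    have h0 : ack (1 / 2 + 3) t = 2 ^ (t + 3) - 3 := ack_three t
    rw [h0] at h
    have h1 := log_aux t
    have h2 : 2 ^ (t + 1) ≤ N := by omega
    exact Nat.le_log_of_pow_le (by norm_num) h2
  | d + 2, t, N, h => by
    have he : (d + 2) / 2 + 3 = (d / 2 + 3) + 1 := by omega
    rw [he] at h
    apply lt_lam
    induction t generalizing N with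
    | zero =>
      rw [ack_succ_zero] at h
      have h1 : 1 < ack (d / 2 + 3) 1 := lt_ack_right _ _
      show 2 ≤ N
      omega
    | succ t ih =>
      rw [ack_succ_succ] at h
      have h1 := lam_ack_aux d _ N h
      rw [Function.iterate_succ_apply]
      exact ih (lam d N) h1.le

theorem lam_ack (d t N : ℕ) (h : ack (d / 2 + 3) t ≤ N) : t < lam d N :=
  lam_ack_aux d t N h

end Pool.Agent.Lib_MP_22d2c8_rt
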