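import Pool.Agent.Lib_MP_22d2c8_rt.ConeA

/-!
# [RT-10c] Sums over the cones

(e) sums: the cones of different gates of `N` are disjoint sets of wires into big gates, whose number is
`C.wires K` (`Aver_wires` in `Aver.lean`, private there, copy); `lset_card`.
-/

set_option linter.unusedSectionVars false

namespace Pool.Agent.Lib_MP_22d2c8_rt

open Finset Pool.Agent.Lib_MP_22d2c8_sym Pool.Agent.Lib_MP_22d2c8_oa

variable {W U : Type} [DecidableEq W] {C : Circuit (W ⊕ U)} {K : ℕ} {X N : Finset C.Gate}

open Classical in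
private theorem coneC_wires : (univ.filter fun q : (g : C.Gate) × Fin (C.arity g) =>
    C.Big K q.1).card = C.wires K := by
  have h1 : (univ.filter fun q : (g : C.Gate) × Fin (C.arity g) => C.Big K q.1) =
      (univ.filter fun g => C.Big K g).sigma fun g => (univ : Finset (Fin (C.arity g))) := by
    ext q
    simp
  rw [h1, card_sigma, Circuit.wires]
  simp only [card_univ, Fintype.card_fin]

open Classical in
private theorem coneC_bi (hN : ∀ h, C.Big K h → h ∉ X → C.Shared K h → h ∈ N) {N' : Finset C.Gate}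
    (hN' : N' ⊆ N) : ∑ v ∈ N', (cone C K X N v).card ≤ C.wires K := by
  rw [← card_biUnion fun v hv v' hv' hne => cone_disjoint hN (hN' hv) (hN' hv') hne, ← coneC_wires]
  refine card_le_card fun q hq => ?_
  obtain ⟨v, -, hq'⟩ := mem_biUnion.1 hq
  exact mem_filter.2 ⟨mem_univ _, (mem_filter.1 hq').2.1⟩

/-- Elements of a set with different values of a function. -/
private theorem coneC_fib {ι α : Type} (D : Finset ι) (M : Finset α) (f : ι → α → Prop)
    [∀ u, DecidablePred fun q => f q u] (hf : ∀ q u u', f q u → f q u' → u = u') :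
    ∑ u ∈ M, (D.filter fun q => f q u).card ≤ D.card := by
  classical
  rw [← card_biUnion]
  · exact card_le_card fun q hq => by
      obtain ⟨u, -, hq'⟩ := mem_biUnion.1 hq
      exact (mem_filter.1 hq').1
  · intro u _ u' _ hne
    rw [Function.onFun, disjoint_left]
    intro q h1 h2
    exact hne (hf q u u' (mem_filter.1 h1).2 (mem_filter.1 h2).2)

theorem sum_ma (hN : ∀ h, C.Big K h → h ∉ X → C.Shared K h → h ∈ N) {N' : Finset C.Gate}
    (hN' : N' ⊆ N) : ∑ v ∈ N', ma C K X N v ≤ max K 1 * C.wires K := by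
  calc ∑ v ∈ N', ma C K X N v ≤ ∑ v ∈ N', max K 1 * (cone C K X N v).card := by
        refine sum_le_sum fun v _ => ?_
        unfold ma
        refine (sum_le_card_nsmul _ _ (max K 1) fun q _ => lset_card _).trans ?_
        rw [smul_eq_mul, mul_comm]
    _ = max K 1 * ∑ v ∈ N', (cone C K X N v).card := by rw [mul_sum]
    _ ≤ max K 1 * C.wires K := Nat.mul_le_mul_left _ (coneC_bi hN hN')

theorem sum_mm (hN : ∀ h, C.Big K h → h ∉ X → C.Shared K h → h ∈ N) {N' : Finset C.Gate}
    (hN' : N' ⊆ N) : ∑ u ∈ N, ∑ v ∈ N', mm C K X N u v ≤ C.wires K := by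
  classical
  rw [sum_comm]
  refine (sum_le_sum fun v _ => ?_).trans (coneC_bi hN hN')
  have h1 := coneC_fib (cone C K X N v) N (fun q u => C.src q.1 q.2 = Sum.inr u)
    fun q u u' h h' => Sum.inr_injective (h.symm.trans h')
  refine le_trans (sum_le_sum fun u _ => ?_) h1
  unfold mm
  refine card_le_card fun q hq => ?_
  obtain ⟨h2, h3⟩ := mem_filter.1 hq
  exact mem_filter.2 ⟨h2, h3⟩

theorem sum_fo_all (M : Finset C.Gate) : ∑ h ∈ M, fo C K h ≤ C.wires K := by
  classical
  have h1 := coneC_fib (univ.filter fun q : (g : C.Gate) × Fin (C.arity g) => C.Big K q.1) M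
    (fun q u => C.src q.1 q.2 = Sum.inr u) fun q u u' h h' => Sum.inr_injective (h.symm.trans h')
  have h0 : (univ.filter fun q : (g : C.Gate) × Fin (C.arity g) => C.Big K q.1).card = C.wires K := by
    rw [← coneC_wires]
  rw [h0] at h1
  refine le_trans (sum_le_sum fun u _ => ?_) h1
  unfold fo
  refine card_le_card fun q hq => ?_
  obtain ⟨-, h2, h3⟩ := mem_filter.1 hq
  exact mem_filter.2 ⟨mem_filter.2 ⟨mem_univ _, h2⟩, h3⟩

end Pool.Agent.Lib_MP_22d2c8_rt
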