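import Pool.Agent.Lib_MP_22d2c8_rt.ConeDefs

/-!
# [RT-10a] Cones are disjoint

(a) `up_unique`: two different successors of `g` would make `g` shared (as `one_shared` in
`Lib_MP_22d2c8_oa/One.lean`), so `g ∈ N`.
(b) `cone_disjoint`: `Up` is deterministic by (a) and gates of `N` have no `Up`-successor; so a gate
cannot lead to two different gates of `N` (head induction on the first path).
`cone_lev`: induction on the path.
-/

set_option linter.unusedSectionVars false

namespace Pool.Agent.Lib_MP_22d2c8_rt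

open Finset Pool.Agent.Lib_MP_22d2c8_sym Pool.Agent.Lib_MP_22d2c8_oa

variable {W U : Type} [DecidableEq W] {C : Circuit (W ⊕ U)} {K : ℕ} {X N : Finset C.Gate}

theorem up_unique (hN : ∀ h, C.Big K h → h ∉ X → C.Shared K h → h ∈ N) {g g1 g2 : C.Gate}
    (h1 : Up C K X N g g1) (h2 : Up C K X N g g2) : g1 = g2 := by
  by_contra hne
  obtain ⟨hb, hb1, hX, hgN, s, hs⟩ := h1
  obtain ⟨-, hb2, -, -, s', hs'⟩ := h2
  apply hgN
  refine hN g hb hX ?_
  have hp : (⟨g1, s⟩ : (g : C.Gate) × Fin (C.arity g)) ≠ ⟨g2, s'⟩ := by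
    intro h
    exact hne (congrArg Sigma.fst h)
  refine Finset.one_lt_card.2 ⟨⟨g1, s⟩, ?_, ⟨g2, s'⟩, ?_, hp⟩
  · exact (@Finset.mem_filter _ _ (_) _ _).2 ⟨mem_univ _, hb1, hs⟩
  · exact (@Finset.mem_filter _ _ (_) _ _).2 ⟨mem_univ _, hb2, hs'⟩

theorem cone_disjoint (hN : ∀ h, C.Big K h → h ∉ X → C.Shared K h → h ∈ N) {v v' : C.Gate}
    (hv : v ∈ N) (hv' : v' ∈ N) (hne : v ≠ v') : Disjoint (cone C K X N v) (cone C K X N v') := by
  classical
  have key : ∀ g, Relation.ReflTransGen (Up C K X N) g v →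
      Relation.ReflTransGen (Up C K X N) g v' → False := by
    intro g hr
    induction hr using Relation.ReflTransGen.head_induction_on with
    | refl =>
      intro hr'
      rcases Relation.ReflTransGen.cases_head hr' with heq | ⟨c, hc, -⟩
      · exact hne heq
      · exact hc.2.2.2.1 hv
    | head h1 h2 ih =>
      intro hr'
      rcases Relation.ReflTransGen.cases_head hr' with heq | ⟨c', hc', hr''⟩
      · subst heq
        exact h1.2.2.2.1 hv'
      · have h3 := up_unique hN h1 hc'
        subst h3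
        exact ih hr''
  rw [Finset.disjoint_left]
  intro q hq hq'
  unfold cone at hq hq'
  rw [mem_filter] at hq hq'
  exact key q.1 hq.2.2 hq'.2.2

/-- levels do not decrease along a path of big gates outside `X`, `N` -/
theorem cone_lev {N' : Finset C.Gate} {lev : C.Gate → ℕ}
    (hlev : ∀ g s h, C.Big K g → C.Big K h → h ∉ N' → C.src g s = Sum.inr h → lev h ≤ lev g)
    (hN' : ∀ h ∈ N', h ∈ X ∨ h ∈ N ∨ ¬ C.Big K h) {g v : C.Gate}
    (hr : Relation.ReflTransGen (Up C K X N) g v) : lev g ≤ lev v := by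
  induction hr using Relation.ReflTransGen.head_induction_on with
  | refl => exact le_rfl
  | head h1 h2 ih =>
    obtain ⟨hb, hb', hX, hN0, s, hs⟩ := h1
    refine le_trans (hlev _ s _ hb' hb ?_ hs) ih
    intro h3
    rcases hN' _ h3 with h4 | h4 | h4
    · exact hX h4
    · exact hN0 h4
    · exact h4 hb

end Pool.Agent.Lib_MP_22d2c8_rt
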