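import Pool.Agent.Lib_MP_22d2c8_rt.ConeDefs

/-!
# [RT-10b] The variables below a gate

(c) `cone_bel`: strong induction on `g` (compare `one_bel` in `One.lean`) for all `g` which lead to `v`
(`v` big): a variable read below `g` on paths of big gates outside `Z` is in `lset` of a wire into the
cone, or below a gate `u ∈ N`, `u ∉ Z`, which is the source of a wire into the cone. A big source
`h ∉ Z` (so `h ∉ X` by `hXZ`) of `g` is in `N`, or `Up h g`.
(d) `cone_bel_card`: cardinalities in (c). `ma v = ∑ lset`, `mm u v` = number of wires from `u` into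
the cone of `v`.
(f) `bel_anti`: strong induction along the circuit, `bel_eq`, cases of `belS`.
-/

set_option linter.unusedSectionVars false

namespace Pool.Agent.Lib_MP_22d2c8_rt

open Finset Pool.Agent.Lib_MP_22d2c8_sym Pool.Agent.Lib_MP_22d2c8_oa

variable {W U : Type} [DecidableEq W] {C : Circuit (W ⊕ U)} {K : ℕ} {X N : Finset C.Gate}

theorem cone_bel {Z : Finset C.Gate} (hXZ : ∀ h ∈ X, C.Big K h → h ∈ Z) {v : C.Gate}
    (hv : C.Big K v) {w : W} (hw : w ∈ bel C K Z v) :
    ∃ q ∈ cone C K X N v, w ∈ lset C K (C.src q.1 q.2) ∨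
      ∃ u ∈ N, u ∉ Z ∧ C.src q.1 q.2 = Sum.inr u ∧ w ∈ bel C K Z u := by
  classical
  have key : ∀ (m : ℕ) (g : C.Gate), g.val = m → C.Big K g →
      Relation.ReflTransGen (Up C K X N) g v → w ∈ bel C K Z g →
      ∃ q ∈ cone C K X N v, w ∈ lset C K (C.src q.1 q.2) ∨
        ∃ u ∈ N, u ∉ Z ∧ C.src q.1 q.2 = Sum.inr u ∧ w ∈ bel C K Z u := by
    intro m
    induction m using Nat.strong_induction_on with
    | _ m ih =>
      intro g hgm hg hgr hw
      rw [bel_eq, mem_biUnion] at hw
      obtain ⟨i, -, hi⟩ := hw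
      have hmem : (⟨g, i⟩ : (g : C.Gate) × Fin (C.arity g)) ∈ cone C K X N v :=
        mem_filter.2 ⟨mem_univ _, hg, hgr⟩
      rcases hσ : C.src g i with v' | h'
      · rw [hσ, belS_inl] at hi
        refine ⟨⟨g, i⟩, hmem, Or.inl ?_⟩
        change w ∈ lset C K (C.src g i)
        rw [hσ]
        exact hi
      · rw [hσ] at hi
        by_cases hs : C.Small K h'
        · rw [belS_small hs] at hi
          refine ⟨⟨g, i⟩, hmem, Or.inl ?_⟩
          change w ∈ lset C K (C.src g i)
          rw [hσ]
          exact hi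
        · by_cases hZ : h' ∈ Z
          · rw [belS_mem hs hZ] at hi
            exact absurd hi (notMem_empty _)
          · rw [belS_big hs hZ] at hi
            have hX : h' ∉ X := fun hX => hZ (hXZ h' hX hs)
            by_cases hN : h' ∈ N
            · exact ⟨⟨g, i⟩, hmem, Or.inr ⟨h', hN, hZ, hσ, hi⟩⟩
            · have h2 := C.src_lt g i h' hσ
              exact ih h'.val (hgm ▸ h2) h' rfl hs
                (Relation.ReflTransGen.head ⟨hs, hg, hX, hN, i, hσ⟩ hgr) hi
  exact key v.val v rfl hv Relation.ReflTransGen.refl hw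

theorem cone_bel_card {Z : Finset C.Gate} (hXZ : ∀ h ∈ X, C.Big K h → h ∈ Z) {v : C.Gate}
    (hv : C.Big K v) : (bel C K Z v).card ≤
      ma C K X N v + ∑ u ∈ N \ Z, mm C K X N u v * (bel C K Z u).card := by
  classical
  have hsub : bel C K Z v ⊆ ((cone C K X N v).biUnion fun q => lset C K (C.src q.1 q.2)) ∪
      (N \ Z).biUnion fun u => if mm C K X N u v = 0 then ∅ else bel C K Z u := by
    intro w hw
    obtain ⟨q, hq, h | ⟨u, huN, huZ, hσ, hwu⟩⟩ := cone_bel (N := N) hXZ hv hw
    · exact mem_union_left _ (mem_biUnion.2 ⟨q, hq, h⟩)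
    · refine mem_union_right _ (mem_biUnion.2 ⟨u, mem_sdiff.2 ⟨huN, huZ⟩, ?_⟩)
      have hm : mm C K X N u v ≠ 0 := by
        unfold mm
        exact Finset.card_ne_zero.2 ⟨q, mem_filter.2 ⟨hq, hσ⟩⟩
      rw [if_neg hm]
      exact hwu
  refine (card_le_card hsub).trans ((card_union_le _ _).trans ?_)
  refine Nat.add_le_add card_biUnion_le (card_biUnion_le.trans ?_)
  refine Finset.sum_le_sum fun u _ => ?_
  split_ifs with h
  · rw [card_empty]
    exact Nat.zero_le _
  · exact Nat.le_mul_of_pos_left _ (Nat.pos_of_ne_zero h)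

theorem bel_anti {Z : Finset C.Gate} (hXZ : ∀ h ∈ X, C.Big K h → h ∈ Z) (g : C.Gate) :
    bel C K Z g ⊆ bel C K X g := by
  classical
  have key : ∀ (m : ℕ) (g : C.Gate), g.val = m → bel C K Z g ⊆ bel C K X g := by
    intro m
    induction m using Nat.strong_induction_on with
    | _ m ih =>
      intro g hgm w hw
      rw [bel_eq, mem_biUnion] at hw
      obtain ⟨i, hi0, hi⟩ := hw
      rw [bel_eq, mem_biUnion]
      refine ⟨i, hi0, ?_⟩
      rcases hσ : C.src g i with v' | h'
      · rw [hσ, belS_inl] at hi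
        rw [belS_inl]
        exact hi
      · rw [hσ] at hi
        by_cases hs : C.Small K h'
        · rw [belS_small hs] at hi
          rw [belS_small hs]
          exact hi
        · by_cases hZ : h' ∈ Z
          · rw [belS_mem hs hZ] at hi
            exact absurd hi (notMem_empty _)
          · rw [belS_big hs hZ] at hi
            have hX : h' ∉ X := fun hX => hZ (hXZ h' hX hs)
            rw [belS_big hs hX]
            exact ih h'.val (hgm ▸ C.src_lt g i h' hσ) h' rfl hi
  exact key g.val g rfl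

end Pool.Agent.Lib_MP_22d2c8_rt
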