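import Pool.Agent.Lib_MP_22d2c8_oa.Eval
import Pool.Agent.Lib_MP_22d2c8_oa.Aver

/-!
# The cones of a set `N` of gates which contains the shared ones

`cone C K X N v` = the wires into big gates `g` from which a path `g → ... → v` of big gates leads to
`v`, all gates before `v` (so also `g` if `g ≠ v`) outside `X` and `N`.
-/

set_option linter.unusedSectionVars false

namespace Pool.Agent.Lib_MP_22d2c8_rt

open Finset Pool.Agent.Lib_MP_22d2c8_sym Pool.Agent.Lib_MP_22d2c8_oa

variable {W U : Type} [DecidableEq W] (C : Circuit (W ⊕ U)) (K : ℕ) (X N : Finset C.Gate)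

/-- `g` is a big gate outside `X` and `N` and a source of the big gate `g'`. -/
def Up (g g' : C.Gate) : Prop :=
  C.Big K g ∧ C.Big K g' ∧ g ∉ X ∧ g ∉ N ∧ ∃ s, C.src g' s = Sum.inr g

open Classical in
/-- The wires into the big gates that lead to `v`. -/
noncomputable def cone (v : C.Gate) : Finset ((g : C.Gate) × Fin (C.arity g)) :=
  univ.filter fun q => C.Big K q.1 ∧ Relation.ReflTransGen (Up C K X N) q.1 v

open Classical in
/-- Number of variables on the wires into the cone. -/
noncomputable def ma (v : C.Gate) : ℕ := ∑ q ∈ cone C K X N v, (lset C K (C.src q.1 q.2)).card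

open Classical in
/-- Number of wires from `u` into the cone of `v`. -/
noncomputable def mm (u v : C.Gate) : ℕ :=
  ((cone C K X N v).filter fun q => C.src q.1 q.2 = Sum.inr u).card

end Pool.Agent.Lib_MP_22d2c8_rt
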