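import Pool.Agent.Lib_MP_22d2c8_rt.ContractDefs

/-!
# [RT-6] Comparison of the costs

[RT-6] `cost_contract`: let `Z = Z' ∪ cutA ∪ cutF`, `β = b Z`. Then
`cost N φ b D Z ≤ D ∑_(Z') min D β + D ∑_(cutA) min D β + D ∑_(cutF) min D β
   + ∑_(low \ cutA) φ min D β + ∑_(mid \ Z') φ min D β + ∑_(high \ cutF) φ min D β`.
(1) `u ∈ cutA`, `a u ≤ y'`: `min D β ≤ a u`. (2) `u ∈ cutA`, `y' < a u`: `min D β ≤ D`, and
`E * x * D * #{...} ≤ y' * #{...} ≤ ∑ a ≤ x ν`, so `E * D * #{...} ≤ ν`. (3) `v ∈ cutF`: the same with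
`φ`. (4) `v ∈ high`, `y < φ v ≤ y'`: `φ v * min D β ≤ φ v * D`; (1) and (4) together are at most
`D * (window sum)`, `E *` that is at most `D ν`. (5) `u ∈ low \ cutA`: `φ u * min D β ≤ φ u * y`, and
`E * y * x ν ≤ D ν`. (6) `v ∈ high`, `φ v ≤ y`:
`min D (β v) ≤ a v + ∑_(u ∈ low \ cutA) m u v * a u + ∑_(u ∈ mid \ Z') m u v * min D (β u)`
(`min D` is subadditive, `min D (m * β) ≤ m * min D β`); after multiplication with `φ v ≤ y`: first
part `≤ y x ν`, second `≤ y ^ 2 x ν` (both times `E` at most `D ν`), third part, summed over `v`,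
is `∑_(u ∈ mid \ Z') (∑_v m u v * φ v) * min D (β u)`, which together with the remaining terms is
`cost mid φ' b' D Z'`. Total: `E * cost ≤ (3 d + 1) D ν + 6 D ν`.
-/

namespace Pool.Agent.Lib_MP_22d2c8_rt

open Finset

variable {H : Type} [DecidableEq H]

private theorem sum_un (f : H → ℕ) (A B : Finset H) :
    ∑ h ∈ A ∪ B, f h ≤ ∑ h ∈ A, f h + ∑ h ∈ B, f h := by
  rw [← sum_union_inter]
  exact Nat.le_add_right _ _

private theorem min_mul_le (D m β : ℕ) : min D (m * β) ≤ m * min D β := by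
  rcases Nat.eq_zero_or_pos m with hm | hm
  · simp [hm]
  · rcases le_total D β with h | h
    · rw [min_eq_left h]
      exact (min_le_left _ _).trans (Nat.le_mul_of_pos_left D hm)
    · rw [min_eq_right h]
      exact min_le_right _ _

private theorem min_sum_le (D : ℕ) (S : Finset H) (f : H → ℕ) :
    min D (∑ h ∈ S, f h) ≤ ∑ h ∈ S, min D (f h) := by
  induction S using Finset.induction_on with
  | empty => simp
  | insert a S ha ih =>
    rw [sum_insert ha, sum_insert ha]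
    omega

omit [DecidableEq H] in
/-- few gates with a large value -/
private theorem card_big {E x D ν y' : ℕ} (hx : 1 ≤ x) (hy' : E * x * D ≤ y') {S : Finset H} {f : H → ℕ}
    (hS : ∀ h ∈ S, y' < f h) (hf : ∑ h ∈ S, f h ≤ x * ν) : E * (D * (D * S.card)) ≤ D * ν := by
  have h1 : S.card * y' ≤ ∑ h ∈ S, f h := by
    rw [← smul_eq_mul]
    exact card_nsmul_le_sum S f y' fun h hh => (hS h hh).le
  have h2 : x * (E * (D * S.card)) ≤ x * ν := by
    calc x * (E * (D * S.card)) = S.card * (E * x * D) := by ring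
      _ ≤ S.card * y' := Nat.mul_le_mul_left _ hy'
      _ ≤ x * ν := h1.trans hf
  have h3 : E * (D * S.card) ≤ ν := Nat.le_of_mul_le_mul_left h2 hx
  calc E * (D * (D * S.card)) = D * (E * (D * S.card)) := by ring
    _ ≤ D * ν := Nat.mul_le_mul_left _ h3

theorem cost_contract {N : Finset H} {s d x ν : ℕ} {lev a φ : H → ℕ} {m : H → H → ℕ}
    {b : Finset H → H → ℕ} (h : IsNet N s (d + 2) x ν lev a φ m b) (E y y' D : ℕ) (hE : 1 ≤ E)
    (hx : 1 ≤ x) (hy : x ≤ y) (hD : 2 * E * y ^ 3 ≤ D) (hy' : E * x * D ≤ y')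
    (hw : E * (∑ u ∈ (low N s lev).filter (fun u => y < a u ∧ a u ≤ y'), a u +
      ∑ u ∈ (high N s d lev).filter (fun u => y < φ u ∧ φ u ≤ y'), φ u) ≤ ν)
    (Z' : Finset H) (hZ' : Z' ⊆ mid N s d lev)
    (hc : E * cost (mid N s d lev) (φC N s d y lev φ m)
      (fun Z => b (Z ∪ cutC N s d y y' lev a φ)) D Z' ≤ (3 * d + 1) * (D * ν)) :
    E * cost N φ b D (Z' ∪ cutC N s d y y' lev a φ) ≤ (3 * (d + 2) + 1) * (D * ν) := by
  obtain ⟨Z, hZdef⟩ : ∃ Z, Z = Z' ∪ cutC N s d y y' lev a φ := ⟨_, rfl⟩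
  obtain ⟨A1, hA1⟩ : ∃ A1, A1 = (low N s lev).filter (fun u => y < a u ∧ a u ≤ y') := ⟨_, rfl⟩
  obtain ⟨A2, hA2⟩ : ∃ A2, A2 = (low N s lev).filter (fun u => y' < a u) := ⟨_, rfl⟩
  obtain ⟨L1, hL1⟩ : ∃ L1, L1 = (low N s lev).filter (fun u => a u ≤ y) := ⟨_, rfl⟩
  obtain ⟨F1, hF1⟩ : ∃ F1, F1 = (high N s d lev).filter (fun u => φ u ≤ y) := ⟨_, rfl⟩
  obtain ⟨F2, hF2⟩ : ∃ F2, F2 = (high N s d lev).filter (fun u => y < φ u ∧ φ u ≤ y') := ⟨_, rfl⟩
  obtain ⟨F3, hF3⟩ : ∃ F3, F3 = (high N s d lev).filter (fun u => y' < φ u) := ⟨_, rfl⟩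
  obtain ⟨M', hM'⟩ : ∃ M', M' = mid N s d lev \ Z' := ⟨_, rfl⟩
  obtain ⟨t, ht⟩ : ∃ t : H → ℕ, t = fun h => min D (b Z h) := ⟨_, rfl⟩
  rw [← hA1, ← hF2] at hw
  rw [← hZdef]
  have hNlow : low N s lev ⊆ N := filter_subset _ _
  have hNhigh : high N s d lev ⊆ N := filter_subset _ _
  have hNmid : mid N s d lev ⊆ N := filter_subset _ _
  have hZN : Z ⊆ N := by
    rw [hZdef]
    refine union_subset (hZ'.trans hNmid) ?_
    unfold cutC
    exact union_subset ((filter_subset _ _).trans hNlow) ((filter_subset _ _).trans hNhigh)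
  have hy1 : 1 ≤ y := hx.trans hy
  have hyD : y ≤ D := by
    have h1 : y ≤ y ^ 3 := Nat.le_self_pow (by norm_num) y
    have h2 : y ^ 3 ≤ 2 * E * y ^ 3 := Nat.le_mul_of_pos_left _ (by omega)
    omega
  -- membership
  have hcover : N \ Z ⊆ L1 ∪ (M' ∪ (F1 ∪ F2)) := by
    intro u hu
    obtain ⟨hu1, hu2⟩ := mem_sdiff.1 hu
    have hlt := h.lev_lt u hu1
    have hle := h.lev_le u hu1
    have hnc : u ∉ cutC N s d y y' lev a φ := fun hc => hu2 (by rw [hZdef]; exact mem_union_right _ hc)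
    have hnz : u ∉ Z' := fun hc => hu2 (by rw [hZdef]; exact mem_union_left _ hc)
    unfold cutC at hnc
    rw [mem_union, not_or] at hnc
    by_cases h1 : lev u = s + 1
    · have h2 : u ∈ low N s lev := mem_filter.2 ⟨hu1, h1⟩
      have h3 : ¬ y < a u := fun h3 => hnc.1 (mem_filter.2 ⟨h2, h3⟩)
      refine mem_union_left _ ?_
      rw [hL1]
      exact mem_filter.2 ⟨h2, not_lt.1 h3⟩
    · by_cases h2 : lev u = s + d + 2
      · have h3 : u ∈ high N s d lev := mem_filter.2 ⟨hu1, h2⟩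
        have h4 : ¬ y' < φ u := fun h4 => hnc.2 (mem_filter.2 ⟨h3, h4⟩)
        refine mem_union_right _ (mem_union_right _ ?_)
        by_cases h5 : φ u ≤ y
        · refine mem_union_left _ ?_
          rw [hF1]
          exact mem_filter.2 ⟨h3, h5⟩
        · refine mem_union_right _ ?_
          rw [hF2]
          exact mem_filter.2 ⟨h3, not_le.1 h5, not_lt.1 h4⟩
      · refine mem_union_right _ (mem_union_left _ ?_)
        rw [hM', mem_sdiff]
        exact ⟨mem_filter.2 ⟨hu1, by omega, by omega⟩, hnz⟩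
  have hcoverZ : Z ⊆ Z' ∪ ((A1 ∪ A2) ∪ F3) := by
    intro u hu
    rw [hZdef] at hu
    unfold cutC at hu
    rcases mem_union.1 hu with h1 | h1
    · exact mem_union_left _ h1
    · refine mem_union_right _ ?_
      rcases mem_union.1 h1 with h2 | h2
      · refine mem_union_left _ ?_
        obtain ⟨h3, h4⟩ := mem_filter.1 h2
        by_cases h5 : a u ≤ y'
        · refine mem_union_left _ ?_
          rw [hA1]
          exact mem_filter.2 ⟨h3, h4, h5⟩
        · refine mem_union_right _ ?_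
          rw [hA2]
          exact mem_filter.2 ⟨h3, not_le.1 h5⟩
      · refine mem_union_right _ ?_
        rw [hF3]
        exact h2
  have hβlow : ∀ u ∈ low N s lev, b Z u ≤ a u := fun u hu => b_low h hZN hu
  have htD : ∀ u, t u ≤ D := fun u => by rw [ht]; exact min_le_left _ _
  have htβ : ∀ u, t u ≤ b Z u := fun u => by rw [ht]; exact min_le_right _ _
  -- the cut part
  have hcut : ∑ u ∈ Z, t u ≤ ∑ u ∈ Z', t u + (∑ u ∈ A1, a u + D * A2.card + D * F3.card) := by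
    have e1 : ∑ u ∈ A1, t u ≤ ∑ u ∈ A1, a u := by
      refine sum_le_sum fun u hu => (htβ u).trans (hβlow u ?_)
      rw [hA1] at hu
      exact (mem_filter.1 hu).1
    have e2 : ∑ u ∈ A2, t u ≤ D * A2.card := by
      refine (sum_le_card_nsmul A2 t D fun u _ => htD u).trans ?_
      rw [smul_eq_mul, mul_comm]
    have e3 : ∑ u ∈ F3, t u ≤ D * F3.card := by
      refine (sum_le_card_nsmul F3 t D fun u _ => htD u).trans ?_
      rw [smul_eq_mul, mul_comm]
    have e4 := (sum_le_sum_of_subset (f := t) hcoverZ).trans (sum_un t Z' ((A1 ∪ A2) ∪ F3))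
    have e5 := sum_un t (A1 ∪ A2) F3
    have e6 := sum_un t A1 A2
    omega
  -- the remaining gates
  have hrest : ∑ u ∈ N \ Z, φ u * t u ≤ ∑ u ∈ L1, φ u * t u + (∑ u ∈ M', φ u * t u +
      (∑ u ∈ F1, φ u * t u + ∑ u ∈ F2, φ u * t u)) := by
    have e4 := (sum_le_sum_of_subset (f := fun u => φ u * t u) hcover).trans
      (sum_un (fun u => φ u * t u) L1 (M' ∪ (F1 ∪ F2)))
    have e5 := sum_un (fun u => φ u * t u) M' (F1 ∪ F2)
    have e6 := sum_un (fun u => φ u * t u) F1 F2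
    omega
  have hL1N : L1 ⊆ N := by rw [hL1]; exact (filter_subset _ _).trans hNlow
  have hF1N : F1 ⊆ N := by rw [hF1]; exact (filter_subset _ _).trans hNhigh
  have hM'N : M' ⊆ N := by rw [hM']; exact sdiff_subset.trans hNmid
  have r1 : ∑ u ∈ L1, φ u * t u ≤ y * (x * ν) := by
    calc ∑ u ∈ L1, φ u * t u ≤ ∑ u ∈ L1, y * φ u := by
          refine sum_le_sum fun u hu => ?_
          rw [hL1] at hu
          obtain ⟨h1, h2⟩ := mem_filter.1 hu
          rw [mul_comm y]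
          exact Nat.mul_le_mul_left _ ((htβ u).trans ((hβlow u h1).trans h2))
      _ = y * ∑ u ∈ L1, φ u := by rw [mul_sum]
      _ ≤ y * (x * ν) := Nat.mul_le_mul_left _ ((sum_le_sum_of_subset hL1N).trans h.sum_φ)
  have r2 : ∑ u ∈ F2, φ u * t u ≤ D * ∑ u ∈ F2, φ u := by
    rw [mul_sum]
    refine sum_le_sum fun u _ => ?_
    rw [mul_comm D]
    exact Nat.mul_le_mul_left _ (htD u)
  -- wires into a gate of the highest level
  have hv : ∀ v ∈ F1, φ v * t v ≤ y * a v + y * ∑ u ∈ L1, m u v * y + ∑ u ∈ M', (m u v * φ v) * t u := by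
    intro v hv
    have hv' := hv
    rw [hF1] at hv'
    obtain ⟨h1, h2⟩ := mem_filter.1 hv'
    obtain ⟨h3, h4⟩ := mem_filter.1 h1
    have hb := h.b_le Z hZN v h3
    have hz : ∑ u ∈ F1 ∪ F2, m u v * b Z u = 0 := by
      refine sum_eq_zero fun u hu => ?_
      have hu' : u ∈ high N s d lev := by
        rcases mem_union.1 hu with h5 | h5
        · rw [hF1] at h5; exact (mem_filter.1 h5).1
        · rw [hF2] at h5; exact (mem_filter.1 h5).1
      obtain ⟨h5, h6⟩ := mem_filter.1 hu'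
      have h7 : m u v = 0 := by
        by_contra hne
        have := h.m_lev u h5 v h3 hne
        omega
      rw [h7, zero_mul]
    have e4 := (sum_le_sum_of_subset (f := fun u => m u v * b Z u) hcover).trans
      (sum_un (fun u => m u v * b Z u) L1 (M' ∪ (F1 ∪ F2)))
    have e5 := sum_un (fun u => m u v * b Z u) M' (F1 ∪ F2)
    have e6 : ∑ u ∈ L1, m u v * b Z u ≤ ∑ u ∈ L1, m u v * y := by
      refine sum_le_sum fun u hu => Nat.mul_le_mul_left _ ?_
      rw [hL1] at hu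
      obtain ⟨h8, h9⟩ := mem_filter.1 hu
      exact (hβlow u h8).trans h9
    have e7 : min D (∑ u ∈ M', m u v * b Z u) ≤ ∑ u ∈ M', m u v * t u := by
      refine (min_sum_le D M' _).trans (sum_le_sum fun u _ => ?_)
      rw [ht]
      exact min_mul_le D (m u v) (b Z u)
    have e8 : t v ≤ a v + ∑ u ∈ L1, m u v * y + ∑ u ∈ M', m u v * t u := by
      have e9 : t v = min D (b Z v) := by rw [ht]
      simp only at e4 e5
      omega
    have e10 : ∑ u ∈ M', (m u v * φ v) * t u = φ v * ∑ u ∈ M', m u v * t u := by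
      rw [mul_sum]
      exact sum_congr rfl fun u _ => by ring
    rw [e10]
    calc φ v * t v ≤ φ v * (a v + ∑ u ∈ L1, m u v * y + ∑ u ∈ M', m u v * t u) :=
          Nat.mul_le_mul_left _ e8
      _ = φ v * a v + φ v * ∑ u ∈ L1, m u v * y + φ v * ∑ u ∈ M', m u v * t u := by ring
      _ ≤ y * a v + y * ∑ u ∈ L1, m u v * y + φ v * ∑ u ∈ M', m u v * t u := by
          have e11 := Nat.mul_le_mul_right (a v) h2
          have e12 := Nat.mul_le_mul_right (∑ u ∈ L1, m u v * y) h2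
          omega
  have r3 : ∑ v ∈ F1, φ v * t v ≤ y * (x * ν) + y * y * (x * ν) +
      ∑ u ∈ M', (∑ v ∈ F1, m u v * φ v) * t u := by
    have e1 : ∑ v ∈ F1, a v ≤ x * ν := (sum_le_sum_of_subset hF1N).trans h.sum_a
    have e2 : ∑ v ∈ F1, ∑ u ∈ L1, m u v ≤ x * ν := by
      rw [sum_comm]
      refine (sum_le_sum_of_subset hL1N).trans ((sum_le_sum fun u _ => ?_).trans h.sum_m)
      exact sum_le_sum_of_subset hF1N
    have e3 : ∑ v ∈ F1, (y * ∑ u ∈ L1, m u v * y) = y * y * ∑ v ∈ F1, ∑ u ∈ L1, m u v := by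
      rw [mul_sum]
      refine sum_congr rfl fun v _ => ?_
      rw [← sum_mul]
      ring
    have e4 : ∑ v ∈ F1, ∑ u ∈ M', (m u v * φ v) * t u = ∑ u ∈ M', (∑ v ∈ F1, m u v * φ v) * t u := by
      rw [sum_comm]
      exact sum_congr rfl fun u _ => by rw [sum_mul]
    calc ∑ v ∈ F1, φ v * t v ≤ ∑ v ∈ F1, (y * a v + y * ∑ u ∈ L1, m u v * y +
          ∑ u ∈ M', (m u v * φ v) * t u) := sum_le_sum hv
      _ = y * ∑ v ∈ F1, a v + y * y * ∑ v ∈ F1, ∑ u ∈ L1, m u v +
          ∑ u ∈ M', (∑ v ∈ F1, m u v * φ v) * t u := by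
        rw [sum_add_distrib, sum_add_distrib, e3, e4, ← mul_sum]
      _ ≤ _ := by
        have e5 := Nat.mul_le_mul_left y e1
        have e6 := Nat.mul_le_mul_left (y * y) e2
        omega
  have r4 : ∑ u ∈ M', φ u * t u + ∑ u ∈ M', (∑ v ∈ F1, m u v * φ v) * t u =
      ∑ u ∈ M', φC N s d y lev φ m u * t u := by
    rw [← sum_add_distrib]
    refine sum_congr rfl fun u _ => ?_
    unfold φC
    rw [← hF1]
    ring
  -- the totals
  have c1 : cost N φ b D Z = D * ∑ u ∈ Z, t u + ∑ u ∈ N \ Z, φ u * t u := by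
    unfold cost
    rw [ht]
  have c2 : cost (mid N s d lev) (φC N s d y lev φ m)
      (fun Z => b (Z ∪ cutC N s d y y' lev a φ)) D Z' =
      D * ∑ u ∈ Z', t u + ∑ u ∈ M', φC N s d y lev φ m u * t u := by
    unfold cost
    rw [ht, hM', hZdef]
  rw [c2] at hc
  have f3 : E * (D * (D * A2.card)) ≤ D * ν := by
    refine card_big (f := a) hx hy' (fun u hu => ?_) ?_
    · rw [hA2] at hu; exact (mem_filter.1 hu).2
    · refine (sum_le_sum_of_subset ?_).trans h.sum_a
      rw [hA2]; exact (filter_subset _ _).trans hNlow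
  have f4 : E * (D * (D * F3.card)) ≤ D * ν := by
    refine card_big (f := φ) hx hy' (fun u hu => ?_) ?_
    · rw [hF3] at hu; exact (mem_filter.1 hu).2
    · refine (sum_le_sum_of_subset ?_).trans h.sum_φ
      rw [hF3]; exact (filter_subset _ _).trans hNhigh
  have f5 : E * (y * (x * ν) + (y * (x * ν) + y * y * (x * ν))) ≤ 2 * (D * ν) := by
    have g1 : E * (y * x + (y * x + y * y * x)) ≤ 2 * D := by
      have g2 : y * x ≤ y * y := Nat.mul_le_mul_left _ hy
      have g3 : y * y ≤ y ^ 3 := by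
        calc y * y = y * y * 1 := by ring
          _ ≤ y * y * y := Nat.mul_le_mul_left _ hy1
          _ = y ^ 3 := by ring
      have g4 : y * y * x ≤ y ^ 3 := by
        calc y * y * x ≤ y * y * y := Nat.mul_le_mul_left _ hy
          _ = y ^ 3 := by ring
      calc E * (y * x + (y * x + y * y * x)) ≤ E * (4 * y ^ 3) := Nat.mul_le_mul_left _ (by omega)
        _ = 2 * (2 * E * y ^ 3) := by ring
        _ ≤ 2 * D := Nat.mul_le_mul_left _ hD
    calc E * (y * (x * ν) + (y * (x * ν) + y * y * (x * ν))) =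
          E * (y * x + (y * x + y * y * x)) * ν := by ring
      _ ≤ 2 * D * ν := Nat.mul_le_mul_right _ g1
      _ = 2 * (D * ν) := by ring
  have f2 : E * (D * (∑ u ∈ A1, a u + ∑ u ∈ F2, φ u)) ≤ D * ν := by
    calc E * (D * (∑ u ∈ A1, a u + ∑ u ∈ F2, φ u)) = D * (E * (∑ u ∈ A1, a u + ∑ u ∈ F2, φ u)) := by
          ring
      _ ≤ D * ν := Nat.mul_le_mul_left _ hw
  have g : cost N φ b D Z ≤ (D * ∑ u ∈ Z', t u + ∑ u ∈ M', φC N s d y lev φ m u * t u) +
      D * (∑ u ∈ A1, a u + ∑ u ∈ F2, φ u) + D * (D * A2.card) + D * (D * F3.card) +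
      (y * (x * ν) + (y * (x * ν) + y * y * (x * ν))) := by
    rw [c1]
    have e1 := Nat.mul_le_mul_left D hcut
    have e2 : D * (∑ u ∈ Z', t u + (∑ u ∈ A1, a u + D * A2.card + D * F3.card)) =
        D * ∑ u ∈ Z', t u + D * ∑ u ∈ A1, a u + D * (D * A2.card) + D * (D * F3.card) := by ring
    have e3 : D * (∑ u ∈ A1, a u + ∑ u ∈ F2, φ u) = D * ∑ u ∈ A1, a u + D * ∑ u ∈ F2, φ u := by ring
    rw [e2] at e1
    rw [e3]
    omega
  calc E * cost N φ b D Z ≤ E * ((D * ∑ u ∈ Z', t u + ∑ u ∈ M', φC N s d y lev φ m u * t u) +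
      D * (∑ u ∈ A1, a u + ∑ u ∈ F2, φ u) + D * (D * A2.card) + D * (D * F3.card) +
      (y * (x * ν) + (y * (x * ν) + y * y * (x * ν)))) := Nat.mul_le_mul_left _ g
    _ = E * (D * ∑ u ∈ Z', t u + ∑ u ∈ M', φC N s d y lev φ m u * t u) +
      E * (D * (∑ u ∈ A1, a u + ∑ u ∈ F2, φ u)) + E * (D * (D * A2.card)) + E * (D * (D * F3.card)) +
      E * (y * (x * ν) + (y * (x * ν) + y * y * (x * ν))) := by ring
    _ ≤ (3 * d + 1) * (D * ν) + D * ν + D * ν + D * ν + 2 * (D * ν) :=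
      Nat.add_le_add (Nat.add_le_add (Nat.add_le_add (Nat.add_le_add hc f2) f3) f4) f5
    _ = (3 * d + 6) * (D * ν) := by ring
    _ ≤ (3 * (d + 2) + 1) * (D * ν) := Nat.mul_le_mul_right _ (by omega)

end Pool.Agent.Lib_MP_22d2c8_rt
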