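import Pool.Agent.Lib_MP_22d2c8_rt.ContractDefs

/-!
# [RT-5] Contraction of a net

[RT-5] `contract_isNet`: new net on `mid` with levels in `(s + 1, s + 1 + d]`. `b_le`: for `Z' ⊆ mid`,
`v ∈ mid` put `Z = Z' ∪ cutA ∪ cutF ⊆ N`; `b Z v ≤ a v + ∑_(u ∈ N \ Z) m u v * b Z u`, and
`N \ Z ⊆ (low \ cutA) ∪ (mid \ Z') ∪ high`, where `m u v = 0` for `u ∈ high` (level), `b Z u ≤ a u` for
`u ∈ low \ cutA`. Sums: `∑_(v ∈ mid) ∑_(u ∈ low \ cutA) m u v * a u ≤ y * ∑∑ m ≤ y * x * ν` as
`a u ≤ y`; the same for `φ`; `x ν + y x ν ≤ 2 * E * y ^ 3 * ν` as `1 ≤ x ≤ y`, `1 ≤ E`.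
-/

namespace Pool.Agent.Lib_MP_22d2c8_rt

open Finset

variable {H : Type} [DecidableEq H]

private theorem mid_sub (N : Finset H) (s d : ℕ) (lev : H → ℕ) : mid N s d lev ⊆ N :=
  filter_subset _ _

/-- the sum over a subset of a double sum -/
private theorem sum_le_x {N A B : Finset H} (hA : A ⊆ N) (hB : B ⊆ N) (m : H → H → ℕ) {y T : ℕ}
    (f : H → ℕ) (hf : ∀ u ∈ A, f u ≤ y) (hT : ∑ u ∈ N, ∑ v ∈ N, m u v ≤ T) :
    ∑ v ∈ B, ∑ u ∈ A, m u v * f u ≤ y * T := by
  calc ∑ v ∈ B, ∑ u ∈ A, m u v * f u = ∑ u ∈ A, ∑ v ∈ B, m u v * f u := sum_comm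
    _ ≤ ∑ u ∈ A, ∑ v ∈ B, y * m u v := by
        refine sum_le_sum fun u hu => sum_le_sum fun v _ => ?_
        rw [mul_comm y]
        exact Nat.mul_le_mul_left _ (hf u hu)
    _ = y * ∑ u ∈ A, ∑ v ∈ B, m u v := by
        rw [mul_sum]
        refine sum_congr rfl fun u _ => ?_
        rw [mul_sum]
    _ ≤ y * ∑ u ∈ N, ∑ v ∈ N, m u v := by
        refine Nat.mul_le_mul_left _ ?_
        calc ∑ u ∈ A, ∑ v ∈ B, m u v ≤ ∑ u ∈ A, ∑ v ∈ N, m u v :=
              sum_le_sum fun u _ => sum_le_sum_of_subset hB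
          _ ≤ _ := sum_le_sum_of_subset hA
    _ ≤ y * T := Nat.mul_le_mul_left _ hT

private theorem arith_bound {E x y ν : ℕ} (hE : 1 ≤ E) (hx : 1 ≤ x) (hy : x ≤ y) :
    x * ν + y * (x * ν) ≤ 2 * E * y ^ 3 * ν := by
  have h1 : 1 ≤ y := hx.trans hy
  have h2 : x ≤ E * y ^ 3 := by
    calc x ≤ y := hy
      _ = 1 * (y * 1 * 1) := by ring
      _ ≤ E * (y * y * y) := Nat.mul_le_mul hE (Nat.mul_le_mul (Nat.mul_le_mul le_rfl h1) h1)
      _ = E * y ^ 3 := by ring
  have h3 : y * x ≤ E * y ^ 3 := by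
    calc y * x ≤ y * y := Nat.mul_le_mul le_rfl hy
      _ = 1 * (y * y * 1) := by ring
      _ ≤ E * (y * y * y) := Nat.mul_le_mul hE (Nat.mul_le_mul le_rfl h1)
      _ = E * y ^ 3 := by ring
  calc x * ν + y * (x * ν) = (x + y * x) * ν := by ring
    _ ≤ (E * y ^ 3 + E * y ^ 3) * ν := Nat.mul_le_mul_right _ (Nat.add_le_add h2 h3)
    _ = 2 * E * y ^ 3 * ν := by ring

theorem contract_isNet {N : Finset H} {s d x ν : ℕ} {lev a φ : H → ℕ} {m : H → H → ℕ}
    {b : Finset H → H → ℕ} (h : IsNet N s (d + 2) x ν lev a φ m b) (E y y' : ℕ) (hE : 1 ≤ E)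
    (hx : 1 ≤ x) (hy : x ≤ y) :
    IsNet (mid N s d lev) (s + 1) d (2 * E * y ^ 3) ν lev (aC N s y lev a m) (φC N s d y lev φ m) m
      (fun Z => b (Z ∪ cutC N s d y y' lev a φ)) := by
  have hbound := arith_bound (ν := ν) hE hx hy
  refine ⟨?_, ?_, ?_, ?_, ?_, ?_, ?_⟩
  · intro u hu
    exact (mem_filter.1 hu).2.1
  · intro u hu
    have := (mem_filter.1 hu).2.2
    omega
  · intro u hu v hv hm
    exact h.m_lev u (mid_sub N s d lev hu) v (mid_sub N s d lev hv) hm
  · intro Z' hZ' v hv
    have hvN := mid_sub N s d lev hv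
    have hvl := (mem_filter.1 hv).2
    set Z := Z' ∪ cutC N s d y y' lev a φ with hZdef
    have hZN : Z ⊆ N := by
      rw [hZdef]
      refine union_subset (hZ'.trans (mid_sub N s d lev)) (union_subset ?_ ?_)
      · exact (filter_subset _ _).trans (filter_subset _ _)
      · exact (filter_subset _ _).trans (filter_subset _ _)
    have h1 := h.b_le Z hZN v hvN
    have h2 : ∑ u ∈ N \ Z, m u v * b Z u ≤
        ∑ u ∈ (low N s lev).filter (fun u => a u ≤ y), m u v * a u +
          ∑ u ∈ mid N s d lev \ Z', m u v * b Z u := by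
      have hsplit : ∀ u ∈ N \ Z, m u v * b Z u ≤
          (if u ∈ (low N s lev).filter (fun u => a u ≤ y) then m u v * a u else 0) +
          (if u ∈ mid N s d lev \ Z' then m u v * b Z u else 0) := by
        intro u hu
        obtain ⟨huN, huZ⟩ := mem_sdiff.1 hu
        have l1 := h.lev_lt u huN
        have l2 := h.lev_le u huN
        have huZ' : u ∉ Z' := fun hh => huZ (by rw [hZdef]; exact mem_union_left _ hh)
        have huC : u ∉ cutC N s d y y' lev a φ := fun hh =>
          huZ (by rw [hZdef]; exact mem_union_right _ hh)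
        by_cases c1 : lev u = s + 1
        · have hul : u ∈ low N s lev := mem_filter.2 ⟨huN, c1⟩
          have hay : a u ≤ y := by
            by_contra hc
            push Not at hc
            exact huC (mem_union_left _ (mem_filter.2 ⟨hul, hc⟩))
          rw [if_pos (mem_filter.2 ⟨hul, hay⟩)]
          have := Nat.mul_le_mul_left (m u v) (b_low h hZN hul)
          omega
        · by_cases c2 : lev u = s + d + 2
          · have hm0 : m u v = 0 := by
              by_contra hne
              have := h.m_lev u huN v hvN hne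
              omega
            rw [hm0]
            simp
          · have hum : u ∈ mid N s d lev \ Z' := by
              rw [mem_sdiff]
              refine ⟨mem_filter.2 ⟨huN, ?_, ?_⟩, huZ'⟩
              · omega
              · omega
            rw [if_pos hum]
            omega
      calc ∑ u ∈ N \ Z, m u v * b Z u
          ≤ ∑ u ∈ N \ Z, ((if u ∈ (low N s lev).filter (fun u => a u ≤ y) then m u v * a u else 0) +
            (if u ∈ mid N s d lev \ Z' then m u v * b Z u else 0)) := sum_le_sum hsplit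
        _ ≤ ∑ u ∈ N, ((if u ∈ (low N s lev).filter (fun u => a u ≤ y) then m u v * a u else 0) +
            (if u ∈ mid N s d lev \ Z' then m u v * b Z u else 0)) :=
            sum_le_sum_of_subset sdiff_subset
        _ = _ := by
            rw [sum_add_distrib, ← sum_filter, ← sum_filter, filter_mem_eq_inter,
              filter_mem_eq_inter, inter_eq_right.2, inter_eq_right.2]
            · exact sdiff_subset.trans (mid_sub N s d lev)
            · exact (filter_subset _ _).trans (filter_subset _ _)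
    show b Z v ≤ aC N s y lev a m v + ∑ u ∈ mid N s d lev \ Z', m u v * b Z u
    unfold aC
    omega
  · calc ∑ v ∈ mid N s d lev, aC N s y lev a m v
        = ∑ v ∈ mid N s d lev, a v + ∑ v ∈ mid N s d lev,
            ∑ u ∈ (low N s lev).filter (fun u => a u ≤ y), m u v * a u := by
          unfold aC
          rw [sum_add_distrib]
      _ ≤ x * ν + y * (x * ν) := by
          refine Nat.add_le_add ?_ ?_
          · exact (sum_le_sum_of_subset (mid_sub N s d lev)).trans h.sum_a
          · exact sum_le_x ((filter_subset _ _).trans (filter_subset _ _)) (mid_sub N s d lev) m a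
              (fun u hu => (mem_filter.1 hu).2) h.sum_m
      _ ≤ _ := hbound
  · calc ∑ u ∈ mid N s d lev, φC N s d y lev φ m u
        = ∑ u ∈ mid N s d lev, φ u + ∑ u ∈ mid N s d lev,
            ∑ v ∈ (high N s d lev).filter (fun v => φ v ≤ y), m u v * φ v := by
          unfold φC
          rw [sum_add_distrib]
      _ ≤ x * ν + y * (x * ν) := by
          refine Nat.add_le_add ?_ ?_
          · exact (sum_le_sum_of_subset (mid_sub N s d lev)).trans h.sum_φ
          · refine sum_le_x (m := fun v u => m u v) ((filter_subset _ _).trans (filter_subset _ _))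
              (mid_sub N s d lev) φ (fun u hu => (mem_filter.1 hu).2) ?_
            rw [sum_comm]
            exact h.sum_m
      _ ≤ _ := hbound
  · calc ∑ u ∈ mid N s d lev, ∑ v ∈ mid N s d lev, m u v
        ≤ ∑ u ∈ N, ∑ v ∈ N, m u v := by
          calc _ ≤ ∑ u ∈ mid N s d lev, ∑ v ∈ N, m u v :=
                sum_le_sum fun u _ => sum_le_sum_of_subset (mid_sub N s d lev)
            _ ≤ _ := sum_le_sum_of_subset (mid_sub N s d lev)
      _ ≤ x * ν := h.sum_m
      _ ≤ x * ν + y * (x * ν) := Nat.le_add_right _ _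
      _ ≤ _ := hbound

end Pool.Agent.Lib_MP_22d2c8_rt
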