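import Pool.Agent.Lib_MP_22d2c8_rt.Defs

/-!
# Contraction of a net: definitions

`N` has the levels `s + 1, ..., s + d + 2`. `low` = gates of level `s + 1`, `high` = gates of level
`s + d + 2`, `mid` = the others. `cutA` = low gates with `y < a`, `cutF` = high gates with `y' < φ`.

General facts for a cut set `Z ⊆ N`: `b Z u ≤ a u` for `u ∈ low` (by `m_lev` no wires into `u`).
-/

namespace Pool.Agent.Lib_MP_22d2c8_rt

open Finset

variable {H : Type} [DecidableEq H]

/-- The gates of the lowest level. -/
def low (N : Finset H) (s : ℕ) (lev : H → ℕ) : Finset H := N.filter fun h => lev h = s + 1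

/-- The gates of the highest level. -/
def high (N : Finset H) (s d : ℕ) (lev : H → ℕ) : Finset H := N.filter fun h => lev h = s + d + 2

/-- The gates of the other levels. -/
def mid (N : Finset H) (s d : ℕ) (lev : H → ℕ) : Finset H :=
  N.filter fun h => s + 1 < lev h ∧ lev h < s + d + 2

/-- Inputs through gates of the lowest level with at most `y` inputs. -/
def aC (N : Finset H) (s y : ℕ) (lev a : H → ℕ) (m : H → H → ℕ) (v : H) : ℕ :=
  a v + ∑ u ∈ (low N s lev).filter (fun u => a u ≤ y), m u v * a u

/-- Weight through gates of the highest level with weight at most `y`. -/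
def φC (N : Finset H) (s d y : ℕ) (lev φ : H → ℕ) (m : H → H → ℕ) (u : H) : ℕ :=
  φ u + ∑ v ∈ (high N s d lev).filter (fun v => φ v ≤ y), m u v * φ v

/-- The cut gates of the lowest and of the highest level. -/
def cutC (N : Finset H) (s d y y' : ℕ) (lev a φ : H → ℕ) : Finset H :=
  (low N s lev).filter (fun u => y < a u) ∪ (high N s d lev).filter (fun v => y' < φ v)

theorem b_low {N : Finset H} {s d x ν : ℕ} {lev a φ : H → ℕ} {m : H → H → ℕ}
    {b : Finset H → H → ℕ} (h : IsNet N s d x ν lev a φ m b) {Z : Finset H} (hZ : Z ⊆ N) {u : H}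
    (hu : u ∈ low N s lev) : b Z u ≤ a u := by
  obtain ⟨h1, h2⟩ := mem_filter.1 hu
  refine (h.b_le Z hZ u h1).trans ?_
  have h3 : ∑ u' ∈ N \ Z, m u' u * b Z u' = 0 := by
    refine sum_eq_zero fun u' hu' => ?_
    have h4 := (mem_sdiff.1 hu').1
    have h5 : m u' u = 0 := by
      by_contra hne
      have h6 := h.m_lev u' h4 u h1 hne
      have h7 := h.lev_lt u' h4
      omega
    rw [h5, zero_mul]
  omega

end Pool.Agent.Lib_MP_22d2c8_rt
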