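import Mathlib

/-!
# The slowly growing functions `lam d`
-/

namespace Pool.Agent.Lib_MP_22d2c8_rt

/-- `lam 0` is the square root, `lam 1` the logarithm with base 2 (both rounded down), and
`lam (d + 2) n` is the number of times that `lam d` has to be applied to `n` until the result is at
most `1`. -/
noncomputable def lam : ℕ → ℕ → ℕ
  | 0 => Nat.sqrt
  | 1 => Nat.log 2
  | d + 2 => fun n => sInf {i | (lam d)^[i] n ≤ 1}

/-- The growth functions of the proof. -/
def gr (E : ℕ) : ℕ → ℕ → ℕ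
  | 0 => fun x => x
  | 1 => fun x => x * 2 ^ (E * x)
  | d + 2 => fun x => (fun y => E * y * gr E d (2 * E * y ^ 3))^[2 * E * x] x

section net

open Finset

variable {H : Type} [DecidableEq H]

/-- A net on the finite set `N`: gates `h` with levels `s < lev h ≤ s + d`, with `a h` wires from the
inputs, with weight `φ h`, with `m u v` wires from `u` to `v`, and with numbers `b Z h` (the number of
inputs below `h` if the gates in `Z` are removed). All totals are at most `x * ν`. -/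
structure IsNet (N : Finset H) (s d x ν : ℕ) (lev a φ : H → ℕ) (m : H → H → ℕ)
    (b : Finset H → H → ℕ) : Prop where
  lev_lt : ∀ h ∈ N, s < lev h
  lev_le : ∀ h ∈ N, lev h ≤ s + d
  m_lev : ∀ u ∈ N, ∀ v ∈ N, m u v ≠ 0 → lev u < lev v
  b_le : ∀ Z ⊆ N, ∀ v ∈ N, b Z v ≤ a v + ∑ u ∈ N \ Z, m u v * b Z u
  sum_a : ∑ h ∈ N, a h ≤ x * ν
  sum_φ : ∑ h ∈ N, φ h ≤ x * ν
  sum_m : ∑ u ∈ N, ∑ v ∈ N, m u v ≤ x * ν

/-- The cost of the cut set `Z` at scale `D`, multiplied by `D`. -/
def cost (N : Finset H) (φ : H → ℕ) (b : Finset H → H → ℕ) (D : ℕ) (Z : Finset H) : ℕ :=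
  D * ∑ h ∈ Z, min D (b Z h) + ∑ h ∈ N \ Z, φ h * min D (b Z h)

end net

end Pool.Agent.Lib_MP_22d2c8_rt
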