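import Pool.Agent.Lib_MP_22d2c8_rt.Cone
import Pool.Agent.Lib_MP_22d2c8_rt.Defs
import Pool.Agent.Lib_MP_22d2c8_sym.Lev

/-!
# [RT-11] The net of a circuit

`N = nodes C K X Y` = the big gates outside `X` which are shared or in `Y`. Levels: `exists_lev`
(`Lib_MP_22d2c8_sym/Lev.lean`) for `X ∪ Y` gives `l` with `l h ≤ l g`, and `<` if `h` is shared, for
big `g` and big sources `h ∉ X ∪ Y` of `g`, and `l g < d` for shared big `g ∉ X ∪ Y`. Put
`lev h = 1` if `h ∈ Y`, `lev h = l h + 2` otherwise; `a v = (bel C K X v).card` if `v ∈ Y`, `ma v`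
otherwise; `m u v = 0` if `v ∈ Y`, `mm u v` otherwise; `b Z h = (bel C K (X' ∪ Z) h).card`,
`X' = X.filter Big`.
* levels in `(0, d + 1]`; if no gate of `N` is in `Y` they are in `(1, 1 + d]`.
* `m_lev`: `m u v ≠ 0`: `v ∉ Y`, some wire `q` from `u` into a gate `q.1` of the cone of `v`. If `u ∈ Y`
  then `1 < l v + 2`. Otherwise `u ∈ N`, `u ∉ Y`: shared, big, outside `X ∪ Y`, so `l u < l q.1`, and
  `l q.1 ≤ l v` by `cone_lev` (`N' = X ∪ Y`; a big gate of `Y` outside `X` is in `N`).
* `b_le`: for `v ∈ Y`: `bel_anti` (`X' ∪ Z` contains the big gates of `X`). For `v ∉ Y`: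
  `cone_bel_card` with `Z := X' ∪ Z`; `N \ (X' ∪ Z) ⊆ N \ Z`.
* sums: `sum_ma`, `sum_mm` for `N' = N.filter (∉ Y)`, `sum_fo_all`; `1 ≤ max K 1`.
-/

set_option linter.unusedSectionVars false

namespace Pool.Agent.Lib_MP_22d2c8_rt

open Finset Pool.Agent.Lib_MP_22d2c8_sym Pool.Agent.Lib_MP_22d2c8_oa

variable {W U : Type} [DecidableEq W] (C : Circuit (W ⊕ U)) (K : ℕ) (X Y : Finset C.Gate)

open Classical in
/-- The big gates outside `X` which are shared or in `Y`. -/
noncomputable def nodes : Finset C.Gate :=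
  univ.filter fun h => C.Big K h ∧ h ∉ X ∧ (C.Shared K h ∨ h ∈ Y)

open Classical in
/-- The big gates of `X`. -/
noncomputable def bigs : Finset C.Gate := X.filter fun h => C.Big K h

open Classical in
/-- The number of variables below the gates of `Y`. -/
noncomputable def massY : ℕ :=
  ∑ h ∈ Y.filter (fun h => C.Big K h ∧ h ∉ X), (bel C K X h).card

/-- the numbers of variables below the gates -/
noncomputable def bz (Z : Finset C.Gate) (h : C.Gate) : ℕ := (bel C K (bigs C K X ∪ Z) h).card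

private theorem mem_nodes {h : C.Gate} :
    h ∈ nodes C K X Y ↔ C.Big K h ∧ h ∉ X ∧ (C.Shared K h ∨ h ∈ Y) := by
  classical
  unfold nodes
  rw [mem_filter]
  exact ⟨fun h => h.2, fun h => ⟨mem_univ _, h⟩⟩

private theorem mem_bigs {h : C.Gate} : h ∈ bigs C K X ↔ h ∈ X ∧ C.Big K h := by
  classical
  unfold bigs
  rw [mem_filter]

private theorem net_aux (d s x ν : ℕ) (l : C.Gate → ℕ)
    (hl1 : ∀ g t h, C.Big K g → C.Big K h → h ∉ X ∪ Y → C.src g t = Sum.inr h →
      l h ≤ l g ∧ (C.Shared K h → l h < l g))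
    (hx : max K 1 * C.wires K + massY C K X Y ≤ x * ν)
    (h1 : ∀ h ∈ nodes C K X Y, s < if h ∈ Y then 1 else l h + 2)
    (h2 : ∀ h ∈ nodes C K X Y, (if h ∈ Y then 1 else l h + 2) ≤ s + d) :
    IsNet (nodes C K X Y) s d x ν (fun h => if h ∈ Y then 1 else l h + 2)
      (fun v => if v ∈ Y then (bel C K X v).card else ma C K X (nodes C K X Y) v) (fo C K)
      (fun u v => if v ∈ Y then 0 else mm C K X (nodes C K X Y) u v) (bz C K X) := by
  classical
  have hN : ∀ h, C.Big K h → h ∉ X → C.Shared K h → h ∈ nodes C K X Y := fun h hb hX hs =>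
    (mem_nodes C K X Y).2 ⟨hb, hX, Or.inl hs⟩
  have hw : C.wires K ≤ max K 1 * C.wires K := by
    calc C.wires K = 1 * C.wires K := (one_mul _).symm
      _ ≤ max K 1 * C.wires K := Nat.mul_le_mul_right _ (le_max_right _ _)
  refine ⟨h1, h2, ?_, ?_, ?_, ?_, ?_⟩
  · intro u hu v hv hm
    have hm' : (if v ∈ Y then 0 else mm C K X (nodes C K X Y) u v) ≠ 0 := hm
    by_cases hvY : v ∈ Y
    · rw [if_pos hvY] at hm'
      exact absurd rfl hm'
    · rw [if_neg hvY] at hm' ⊢
      by_cases huY : u ∈ Y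
      · rw [if_pos huY]
        omega
      · rw [if_neg huY]
        unfold mm at hm'
        obtain ⟨q, hq⟩ := Finset.card_pos.1 (Nat.pos_of_ne_zero hm')
        obtain ⟨hq1, hq2⟩ := mem_filter.1 hq
        unfold cone at hq1
        obtain ⟨-, hqb, hqr⟩ := mem_filter.1 hq1
        obtain ⟨hub, huX, hus⟩ := (mem_nodes C K X Y).1 hu
        have hus' := hus.resolve_right huY
        have huXY : u ∉ X ∪ Y := by
          rw [mem_union]
          exact fun h => h.elim huX huY
        have h3 := (hl1 q.1 q.2 u hqb hub huXY hq2).2 hus'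
        have h4 : l q.1 ≤ l v := by
          refine cone_lev (N' := X ∪ Y) (fun g t h hg hh hn hs => (hl1 g t h hg hh hn hs).1) ?_ hqr
          intro h hh
          by_cases hX : h ∈ X
          · exact Or.inl hX
          · right
            by_cases hb : C.Big K h
            · left
              exact (mem_nodes C K X Y).2 ⟨hb, hX, Or.inr ((mem_union.1 hh).resolve_left hX)⟩
            · exact Or.inr hb
        omega
  · intro Z hZ v hv
    have hXZ : ∀ h ∈ X, C.Big K h → h ∈ bigs C K X ∪ Z := fun h hX hb =>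
      mem_union_left _ ((mem_bigs C K X).2 ⟨hX, hb⟩)
    change bz C K X Z v ≤ (if v ∈ Y then (bel C K X v).card else ma C K X (nodes C K X Y) v) +
      ∑ u ∈ nodes C K X Y \ Z, (if v ∈ Y then 0 else mm C K X (nodes C K X Y) u v) * bz C K X Z u
    by_cases hvY : v ∈ Y
    · rw [if_pos hvY]
      exact (card_le_card (bel_anti hXZ v)).trans (Nat.le_add_right _ _)
    · rw [if_neg hvY]
      have hb := ((mem_nodes C K X Y).1 hv).1
      refine (cone_bel_card (N := nodes C K X Y) hXZ hb).trans ?_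
      refine Nat.add_le_add_left ?_ _
      simp only [if_neg hvY]
      refine Finset.sum_le_sum_of_subset ?_
      intro u hu
      rw [mem_sdiff] at hu ⊢
      exact ⟨hu.1, fun h => hu.2 (mem_union_right _ h)⟩
  · rw [Finset.sum_ite]
    refine le_trans ?_ hx
    rw [add_comm]
    refine Nat.add_le_add (sum_ma hN (filter_subset _ _)) ?_
    unfold massY
    refine Finset.sum_le_sum_of_subset ?_
    intro h hh
    rw [mem_filter] at hh
    obtain ⟨hb, hX, -⟩ := (mem_nodes C K X Y).1 hh.1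
    exact (@mem_filter _ _ (_) _ _).2 ⟨hh.2, hb, hX⟩
  · refine (sum_fo_all _).trans ?_
    omega
  · have h3 : ∑ u ∈ nodes C K X Y, ∑ v ∈ nodes C K X Y,
        (if v ∈ Y then 0 else mm C K X (nodes C K X Y) u v) =
        ∑ u ∈ nodes C K X Y, ∑ v ∈ (nodes C K X Y).filter (fun v => v ∉ Y),
          mm C K X (nodes C K X Y) u v := by
      refine Finset.sum_congr rfl fun u _ => ?_
      rw [Finset.sum_ite, Finset.sum_const_zero, zero_add]
    change ∑ u ∈ nodes C K X Y, ∑ v ∈ nodes C K X Y,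
        (if v ∈ Y then 0 else mm C K X (nodes C K X Y) u v) ≤ x * ν
    rw [h3]
    refine (sum_mm hN (filter_subset _ _)).trans ?_
    omega

theorem circuit_net (d : ℕ) (hd : C.SharingDepthLE K (X ∪ Y) d) :
    ∃ (lev a : C.Gate → ℕ) (m : C.Gate → C.Gate → ℕ), ∀ x ν : ℕ,
      max K 1 * C.wires K + massY C K X Y ≤ x * ν →
      IsNet (nodes C K X Y) 0 (d + 1) x ν lev a (fo C K) m (bz C K X) ∧
        ((∀ h ∈ Y, C.Big K h → h ∈ X) →
          IsNet (nodes C K X Y) 1 d x ν lev a (fo C K) m (bz C K X)) := by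
  classical
  obtain ⟨l, hl1, hl2⟩ := Circuit.exists_lev C K d (X ∪ Y) hd
  have hld : ∀ h ∈ nodes C K X Y, h ∉ Y → l h < d := by
    intro h hh hY
    obtain ⟨hb, hX, hs⟩ := (mem_nodes C K X Y).1 hh
    refine hl2 h hb ?_ (hs.resolve_right hY)
    rw [mem_union]
    exact fun h => h.elim hX hY
  refine ⟨_, _, _, fun x ν hx => ⟨net_aux C K X Y (d + 1) 0 x ν l hl1 hx ?_ ?_, fun hY =>
    net_aux C K X Y d 1 x ν l hl1 hx ?_ ?_⟩⟩
  · intro h hh
    split_ifs <;> omega
  · intro h hh
    split_ifs with h1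
    · omega
    · have := hld h hh h1
      omega
  · intro h hh
    have h1 : h ∉ Y := fun h1 => ((mem_nodes C K X Y).1 hh).2.1 (hY h h1 ((mem_nodes C K X Y).1 hh).1)
    rw [if_neg h1]
    omega
  · intro h hh
    have h1 : h ∉ Y := fun h1 => ((mem_nodes C K X Y).1 hh).2.1 (hY h h1 ((mem_nodes C K X Y).1 hh).1)
    rw [if_neg h1]
    have := hld h hh h1
    omega

end Pool.Agent.Lib_MP_22d2c8_rt
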