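import Pool.Agent.Lib_MP_22d2c8_rt.Cut

/-!
# [RT-9] One scale, for every cut set

`L = p / D`, so `D * L ≤ p`, `1 ≤ L`, `p ≤ 2 * D * L` (as `p < D * (L + 1)`), so
`160 * k ≤ p * L` (`320 k D ≤ p ^ 2 ≤ 2 p D L`), `2 * (2 + ω) * L ≤ D * L ≤ p`.
Compare `step` in `Lib_MP_22d2c8_oa/Step.lean` (the arithmetic can be copied).

Fix `v, v'`, `S = gS n p L v v'`, `Zs = cutS C K X Z D S`, `z = #(Zs \ X)`, `ρ = p * L / 16`,
`Q = 3 ω + 2 * 2 ^ max K 1`. Claim: `p ^ 2 ≤ 16 * Q * (tB + wsh S Z) + 128 * D * z`.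
Case 1: `ρ < Zs.card + 2 k + 2`. Then `p L / 16 ≤ k + z + 2 k + 2` (rounded), `3 k + 2 ≤ 5 k ≤ p L / 32`,
so `p L ≤ 64 z` (up to rounding, `p L ≥ 160`: `p L < 16 (3 k + 2 + z) + 16` and
`16 (3 k + 3) ≤ 96 k ≤ 3 p L / 5`, so `2 p L / 5 ≤ 16 z`, `p L ≤ 40 z`), and
`p ^ 2 ≤ 2 D L p ≤ 128 D z`.
Case 2: `exists_alpha` (Avg) and `one_alpha` (Bound) with the cut set `Zs`, and `wsh S Zs ≤ wsh S Z`;
`(1 + ω) ρ ≤ p ^ 2 / 32` since `2 (2 + ω) L ≤ p`, and `1 + 2 ω + 2 ^ max K 1 ≤ p ^ 2 / 32 - 1` from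
`hP`; so `p ^ 2 / 16 ≤ Q (tB + wsh)` as in `step`.
Sum over `v, v'` (`p * p` pairs), multiply by `D`, use `sum_tB_min`, `sum_wsh_min`, `sum_cutS`, and
cancel `p ^ 2`.
-/

set_option linter.unusedSectionVars false

namespace Pool.Agent.Lib_MP_22d2c8_rt

open Finset Pool.Agent.Lib_MP_22d2c8_sym Pool.Agent.Lib_MP_22d2c8_oa

private theorem pair_Scale {n p : ℕ} [hp : Fact p.Prime] (hn : 2 * p * p ≤ n) (C : Circuit (Inp n))
    (K ω k : ℕ) (hk : 1 ≤ k) (hop : ∀ g, C.Big K g → SubPow (2 ^ ω) (C.op g))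
    (hagr : 2 * ((2 : ℝ) ^ (2 * n - 1) * 2 ^ (2 * n)) / 2 ^ k ≤
      ∑ x, sgn (C.val x C.out) * sgn (hank x))
    (hout : C.Big K C.out) (X Z : Finset C.Gate) (hXk : X.card ≤ k) (hZ : ∀ h ∈ Z, C.Big K h)
    (hP : 32 * (2 + 2 * ω + 2 ^ max K 1) ≤ p) (D : ℕ) (hD1 : 2 * (2 + ω) ≤ D) (hD2 : D ≤ p)
    (hD3 : 320 * k * D ≤ p ^ 2) (v v' : ZMod p) :
    p ^ 2 ≤ 16 * (3 * ω + 2 * 2 ^ max K 1) * (tB C K (gS n p (p / D) v v') +
      wsh C K (gS n p (p / D) v v') Z) + 128 * D *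
        ((cutS C K X Z D (gS n p (p / D) v v')).filter fun h => h ∉ X).card := by
  classical
  obtain ⟨L, hL⟩ : ∃ L, L = p / D := ⟨_, rfl⟩
  rw [← hL]
  have hD0 : 0 < D := by omega
  have hDL : D * L ≤ p := by
    rw [hL]
    exact Nat.mul_div_le p D
  have hL1 : 1 ≤ L := by
    rw [hL]
    exact Nat.div_pos hD2 hD0
  have hp1 : p ≤ 2 * D * L := by
    have h1 : p < D * (p / D + 1) := Nat.lt_mul_div_succ p hD0
    rw [← hL] at h1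
    have h2 : D * (L + 1) ≤ D * (2 * L) := Nat.mul_le_mul_left _ (by omega)
    have h3 : D * (2 * L) = 2 * D * L := by ring
    omega
  have hωL : 2 * (2 + ω) * L ≤ p := (Nat.mul_le_mul_right L hD1).trans hDL
  have hL2 : 2 * L ≤ p := by
    refine le_trans ?_ hωL
    have : 2 * (2 + ω) * L = 2 * L + (2 + 2 * ω) * L := by ring
    omega
  have h2K : 1 ≤ 2 ^ max K 1 := Nat.one_le_two_pow
  have h2p : p ≠ 2 := by omega
  have hp0 : 0 < p := by omega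
  have hkA : 160 * k ≤ p * L := by
    have h1 : 2 * D * (160 * k) ≤ 2 * D * (p * L) := by
      calc 2 * D * (160 * k) = 320 * k * D := by ring
        _ ≤ p ^ 2 := hD3
        _ = p * p := sq p
        _ ≤ p * (2 * D * L) := Nat.mul_le_mul_left _ hp1
        _ = 2 * D * (p * L) := by ring
    exact Nat.le_of_mul_le_mul_left h1 (by omega)
  set Zs := cutS C K X Z D (gS n p L v v') with hZs
  obtain ⟨z, hz⟩ : ∃ z, z = (Zs.filter fun h => h ∉ X).card := ⟨_, rfl⟩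
  have hcard : Zs.card ≤ k + z := by
    have h1 := cutS_card C K X Z D (gS n p L v v')
    rw [← hZs, ← hz] at h1
    omega
  rw [← hz]
  have hZbig : ∀ g ∈ Zs, C.Big K g := by
    intro g hg
    rw [hZs] at hg
    exact hZ g (mem_filter.1 hg).1
  obtain ⟨Q, hQ⟩ : ∃ Q, Q = 3 * ω + 2 * 2 ^ max K 1 := ⟨_, rfl⟩
  rw [← hQ]
  obtain ⟨A, hA⟩ : ∃ A, A = p * L := ⟨_, rfl⟩
  rw [← hA] at hkA
  rcases Nat.lt_or_ge (A / 16) (Zs.card + 2 * k + 2) with hcase | hcase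
  · have h1 : A ≤ 64 * z := by omega
    have h2 : p ^ 2 ≤ 128 * D * z := by
      calc p ^ 2 = p * p := sq p
        _ ≤ p * (2 * D * L) := Nat.mul_le_mul_left _ hp1
        _ = 2 * D * A := by rw [hA]; ring
        _ ≤ 2 * D * (64 * z) := Nat.mul_le_mul_left _ h1
        _ = 128 * D * z := by ring
    exact h2.trans (Nat.le_add_left _ _)
  · obtain ⟨α, hα⟩ := exists_alpha (Lib_MP_22d2c8_ol.gA n p L v) (Lib_MP_22d2c8_ol.gB n p L v')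
      (fun x => sgn (C.val x C.out)) _ hagr
    have h1 := one_alpha hn h2p hL1 hL2 C K ω k hop hout Zs hZbig (by rw [← hA]; exact hcase)
      v v' α hα
    have hw : wsh C K (gS n p L v v') Zs ≤ wsh C K (gS n p L v v') Z := wsh_cutS C K X Z D _
    obtain ⟨s, hs⟩ : ∃ s, s = tB C K (gS n p L v v') + wsh C K (gS n p L v v') Zs := ⟨_, rfl⟩
    have hs' : s ≤ tB C K (gS n p L v v') + wsh C K (gS n p L v v') Z := by omega
    rw [← hs] at h1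
    obtain ⟨c, hc⟩ : ∃ c, c = Zs.card := ⟨_, rfl⟩
    rw [← hc] at h1 hcase
    obtain ⟨M, hM⟩ : ∃ M, M = 2 ^ max K 1 := ⟨_, rfl⟩
    rw [← hM] at h1 hQ hP
    obtain ⟨ρ, hρ⟩ : ∃ ρ, ρ = A / 16 := ⟨_, rfl⟩
    rw [← hρ] at hcase
    have hρA : 16 * ρ ≤ A := by omega
    have h2 : c + (ω * ((2 * s + 1) + (c + 1 + s)) + M * (2 * s + 1)) + 2 * k =
        (c + 2 * k) + ω * c + (2 * ω + M) + Q * s := by
      rw [hQ]
      ring
    have h3 : ω * c ≤ ω * ρ := Nat.mul_le_mul_left _ (by omega)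
    have h4 : p * p / 8 ≤ (1 + ω) * ρ + (2 * ω + M) + Q * s := by
      have h5 : (1 + ω) * ρ = ρ + ω * ρ := by ring
      rw [h5]
      omega
    have h5 : 32 * ((1 + ω) * ρ) ≤ p * p := by
      calc 32 * ((1 + ω) * ρ) = (1 + ω) * 2 * (16 * ρ) := by ring
        _ ≤ (1 + ω) * 2 * A := Nat.mul_le_mul_left _ hρA
        _ = p * (2 * (1 + ω) * L) := by rw [hA]; ring
        _ ≤ p * (2 * (2 + ω) * L) := Nat.mul_le_mul_left _ (Nat.mul_le_mul_right _ (by omega))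
        _ ≤ p * p := Nat.mul_le_mul_left _ hωL
    have h6 : p ≤ p * p := Nat.le_mul_of_pos_left _ hp0
    obtain ⟨R, hR⟩ : ∃ R, R = (1 + ω) * ρ := ⟨_, rfl⟩
    obtain ⟨T, hT⟩ : ∃ T, T = Q * s := ⟨_, rfl⟩
    obtain ⟨P, hP2⟩ : ∃ P, P = p * p := ⟨_, rfl⟩
    rw [← hR, ← hT, ← hP2] at h4
    rw [← hR, ← hP2] at h5
    rw [← hP2] at h6
    have h7 : P ≤ 16 * T := by omega
    calc p ^ 2 = P := by rw [hP2, sq]
      _ ≤ 16 * T := h7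
      _ = 16 * Q * s := by rw [hT]; ring
      _ ≤ 16 * Q * (tB C K (gS n p L v v') + wsh C K (gS n p L v v') Z) :=
          Nat.mul_le_mul_left _ hs'
      _ ≤ _ := Nat.le_add_right _ _

theorem scale {n p : ℕ} [hp : Fact p.Prime] (hn : 2 * p * p ≤ n) (C : Circuit (Inp n)) (K ω k : ℕ)
    (hk : 1 ≤ k) (hop : ∀ g, C.Big K g → SubPow (2 ^ ω) (C.op g))
    (hagr : 2 * ((2 : ℝ) ^ (2 * n - 1) * 2 ^ (2 * n)) / 2 ^ k ≤
      ∑ x, sgn (C.val x C.out) * sgn (hank x))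
    (hout : C.Big K C.out) (X Z : Finset C.Gate) (hXk : X.card ≤ k) (hZ : ∀ h ∈ Z, C.Big K h)
    (hP : 32 * (2 + 2 * ω + 2 ^ max K 1) ≤ p) (D : ℕ) (hD1 : 2 * (2 + ω) ≤ D) (hD2 : D ≤ p)
    (hD3 : 320 * k * D ≤ p ^ 2) :
    D * p ^ 2 ≤ (16 * (3 * ω + 2 * 2 ^ max K 1) + 128) * (max K 1 * C.wires K +
      (D * ∑ h ∈ Z.filter (fun h => h ∉ X), min D (bel C K Z h).card +
        ∑ h ∈ shg C K Z, fo C K h * min D (bel C K Z h).card)) := by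
  have hD0 : 0 < D := by omega
  have hDL : D * (p / D) ≤ p := Nat.mul_div_le p D
  have hp0 : 0 < p := by omega
  have hA := pair_Scale hn C K ω k hk hop hagr hout X Z hXk hZ hP D hD1 hD2 hD3
  obtain ⟨L, hL⟩ : ∃ L, L = p / D := ⟨_, rfl⟩
  rw [← hL] at hA hDL
  obtain ⟨Q, hQ⟩ : ∃ Q, Q = 3 * ω + 2 * 2 ^ max K 1 := ⟨_, rfl⟩
  rw [← hQ] at hA
  rw [← hQ]
  have h1 := sum_tB_min C K p L D hDL
  have h2 := sum_wsh_min C K p L D hDL Z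
  have h3 := sum_cutS C K p L D hDL X Z
  have h4 : ∑ v : ZMod p, ∑ v' : ZMod p, p ^ 2 ≤ ∑ v : ZMod p, ∑ v' : ZMod p,
      (16 * Q * (tB C K (gS n p L v v') + wsh C K (gS n p L v v') Z) + 128 * D *
        ((cutS C K X Z D (gS n p L v v')).filter fun h => h ∉ X).card) :=
    sum_le_sum fun v _ => sum_le_sum fun v' _ => hA v v'
  simp only [sum_const, card_univ, ZMod.card, smul_eq_mul, sum_add_distrib, ← mul_sum] at h4
  obtain ⟨T1, hT1⟩ : ∃ T1, T1 = ∑ v : ZMod p, ∑ v' : ZMod p, tB C K (gS n p L v v') := ⟨_, rfl⟩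
  obtain ⟨T2, hT2⟩ : ∃ T2, T2 = ∑ v : ZMod p, ∑ v' : ZMod p, wsh C K (gS n p L v v') Z := ⟨_, rfl⟩
  obtain ⟨T3, hT3⟩ : ∃ T3, T3 = ∑ v : ZMod p, ∑ v' : ZMod p,
    ((cutS C K X Z D (gS n p L v v')).filter fun h => h ∉ X).card := ⟨_, rfl⟩
  obtain ⟨S1, hS1⟩ : ∃ S1, S1 = ∑ h ∈ Z.filter (fun h => h ∉ X), min D (bel C K Z h).card :=
    ⟨_, rfl⟩
  obtain ⟨S2, hS2⟩ : ∃ S2, S2 = ∑ h ∈ shg C K Z, fo C K h * min D (bel C K Z h).card := ⟨_, rfl⟩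
  obtain ⟨V, hV⟩ : ∃ V, V = max K 1 * C.wires K := ⟨_, rfl⟩
  rw [← hT1, ← hT2, ← hT3] at h4
  rw [← hT1, ← hV] at h1
  rw [← hT2, ← hS2] at h2
  rw [← hT3, ← hS1] at h3
  rw [← hV, ← hS1, ← hS2]
  have h5 : p ^ 2 * (D * p ^ 2) ≤ p ^ 2 * ((16 * Q + 128) * (V + (D * S1 + S2))) := by
    calc p ^ 2 * (D * p ^ 2) = D * (p * (p * p ^ 2)) := by ring
      _ ≤ D * (16 * Q * (T1 + T2) + 128 * D * T3) := Nat.mul_le_mul_left _ h4
      _ = 16 * Q * (D * T1 + D * T2) + 128 * D * (D * T3) := by ring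
      _ ≤ 16 * Q * (p ^ 2 * V + p ^ 2 * S2) + 128 * D * (p ^ 2 * S1) :=
          Nat.add_le_add (Nat.mul_le_mul_left _ (Nat.add_le_add h1 h2)) (Nat.mul_le_mul_left _ h3)
      _ ≤ 16 * Q * (p ^ 2 * V + p ^ 2 * S2) + 128 * D * (p ^ 2 * S1) +
          (16 * Q * (p ^ 2 * (D * S1)) + 128 * (p ^ 2 * V + p ^ 2 * S2)) := Nat.le_add_right _ _
      _ = p ^ 2 * ((16 * Q + 128) * (V + (D * S1 + S2))) := by ring
  exact Nat.le_of_mul_le_mul_left h5 (by positivity)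

end Pool.Agent.Lib_MP_22d2c8_rt
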