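import Pool.Agent.Lib_MP_22d2c8_rt.Scale
import Pool.Agent.Lib_MP_22d2c8_rt.Cone
import Pool.Agent.Lib_MP_22d2c8_oa.Final
import Pool.Agent.Lib_MP_22d2c8_rt.NetOf

/-!
# [LV-6] The profile inequality, for all circuits

`cut_bound`: `scale` with `2 p ^ 2 ≤ n < 8 p ^ 2`. `profile`: `Z` = big gates of `X` and the shared gates
with more than `D` wires to big gates.
-/

set_option linter.unusedSectionVars false

namespace Pool.Agent.Lib_MP_22d2c8_rt

open Finset Pool.Agent.Lib_MP_22d2c8_sym Pool.Agent.Lib_MP_22d2c8_oa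

/-- the arithmetic of the parameters -/
theorem choose_p {q k n P1 : ℕ} (hq : 8 * (P1 + 1) ^ 2 ≤ q) (hk : 1 ≤ k)
    (hn : q * k ≤ n) : ∃ p : ℕ, p.Prime ∧ P1 ≤ p ∧ 2 * p * p ≤ n ∧ n < 8 * p ^ 2 := by
  have hqn : q ≤ n := (Nat.le_mul_of_pos_right _ hk).trans hn
  have hn8 : 8 * (P1 + 1) ^ 2 ≤ n := by omega
  obtain ⟨m, hm⟩ : ∃ m, m = Nat.sqrt (n / 8) := ⟨_, rfl⟩
  have hm1 : P1 + 1 ≤ m := by
    rw [hm, Nat.le_sqrt']
    omega
  obtain ⟨p, hpp, hmp, hp2⟩ := Nat.exists_prime_lt_and_le_two_mul m (by omega)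
  have hm2 : m ^ 2 ≤ n / 8 := by
    rw [hm]
    exact Nat.sqrt_le' _
  have hm3 : n / 8 < (m + 1) ^ 2 := by
    rw [hm]
    exact Nat.lt_succ_sqrt' _
  have hnp : 2 * p * p ≤ n := by
    have h1 : 2 * p * p ≤ 8 * m ^ 2 := by nlinarith
    omega
  have hnp2 : n < 8 * p ^ 2 := by
    have h1 : (m + 1) ^ 2 ≤ p ^ 2 := Nat.pow_le_pow_left hmp 2
    omega
  exact ⟨p, hpp, by omega, hnp, hnp2⟩

theorem big_out {n p : ℕ} [hp : Fact p.Prime] (hn : 2 * p * p ≤ n)
    (C : Circuit (Inp n)) (K k : ℕ) (hk : 1 ≤ k)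
    (hagr : 2 * ((2 : ℝ) ^ (2 * n - 1) * 2 ^ (2 * n)) / 2 ^ k ≤
      ∑ x, sgn (C.val x C.out) * sgn (hank x))
    (h2p : p ≠ 2) (hpK : 2 * (K + 2) ≤ p) (hkp : 1024 * (K + 2) * k ≤ 8 * p ^ 2) :
    C.Big K C.out := by
  obtain ⟨L, hL⟩ : ∃ L, L = p / (2 * (K + 2)) := ⟨_, rfl⟩
  have hL1 : 1 ≤ L := by
    rw [hL]
    exact (Nat.one_le_div_iff (by omega)).2 hpK
  have hL2 : 2 * (K + 2) * L ≤ p := by
    rw [hL]
    exact Nat.mul_div_le _ _
  have hL3 : p < 2 * (K + 2) * (L + 1) := by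
    rw [hL]
    exact Nat.lt_mul_div_succ _ (by omega)
  have hL4 : p ≤ 4 * (K + 2) * L := by
    refine hL3.le.trans ?_
    nlinarith
  have h1 : 32 * k ≤ p * L := by
    have h2 : 1024 * (K + 2) * k ≤ 32 * (K + 2) * (p * L) := by
      refine hkp.trans ?_
      calc 8 * p ^ 2 = 8 * p * p := by ring
        _ ≤ 8 * p * (4 * (K + 2) * L) := Nat.mul_le_mul_left _ hL4
        _ = 32 * (K + 2) * (p * L) := by ring
    have h3 : 32 * (K + 2) * (32 * k) ≤ 32 * (K + 2) * (p * L) := by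
      refine le_trans (le_of_eq ?_) h2
      ring
    exact Nat.le_of_mul_le_mul_left h3 (by omega)
  refine out_big hn C K k hagr h2p L hL1 ?_ ?_ ?_
  · refine le_trans ?_ hL2
    exact Nat.mul_le_mul_right _ (by omega)
  · refine le_trans ?_ hL2
    exact Nat.mul_le_mul_right _ (by omega)
  · omega

/-- One scale, every cut set, all circuits. -/
theorem cut_bound (K w : ℕ) : ∃ q : ℕ, 0 < q ∧ ∀ n k : ℕ, 1 ≤ k → ∀ C : Circuit (Inp n),
    (∀ g, C.Big K g → SubPow w (C.op g)) → ∀ X : Finset C.Gate, X.card ≤ k → Agrees C k →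
      ∀ (Z : Finset C.Gate), (∀ h ∈ Z, C.Big K h) → ∀ D : ℕ, q ≤ D → q * D ^ 2 ≤ n →
        q * k * D ≤ n → D * n ≤ q * (C.wires K +
          (D * ∑ h ∈ Z.filter (fun h => h ∉ X), min D (bel C K Z h).card +
            ∑ h ∈ shg C K Z, fo C K h * min D (bel C K Z h).card)) := by
  obtain ⟨c2, hc2⟩ : ∃ c2, c2 = 16 * (3 * w + 2 * 2 ^ max K 1) + 128 := ⟨_, rfl⟩
  have hcw : 2 * (2 + w) ≤ c2 := by omega
  obtain ⟨P1, hP1⟩ : ∃ P1, P1 = c2 + 32 * (2 + 2 * w + 2 ^ max K 1) + 2 * (K + 2) := ⟨_, rfl⟩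
  obtain ⟨q, hq⟩ : ∃ q, q = 8 * (P1 + 1) ^ 2 + 2560 + 1024 * (K + 2) + 8 * c2 * max K 1 + c2 :=
    ⟨_, rfl⟩
  have hq1 : 8 * (P1 + 1) ^ 2 ≤ q := by rw [hq]; omega
  have hq2 : 2560 ≤ q := by rw [hq]; omega
  have hq3 : 1024 * (K + 2) ≤ q := by rw [hq]; omega
  have hq4 : 8 * c2 * max K 1 ≤ q := by
    rw [hq]
    generalize 8 * c2 * max K 1 = y
    omega
  have hq5 : c2 ≤ q := by rw [hq]; exact Nat.le_add_left _ _
  have hq0 : 0 < q := by omega
  refine ⟨q, hq0, ?_⟩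
  intro n k hk C hop X hX hagr Z hZ D hD1 hD2 hD3
  have hD0 : 1 ≤ D := by omega
  have hnq : q * k ≤ n := (Nat.le_mul_of_pos_right _ hD0).trans hD3
  obtain ⟨p, hpp, hPp, hnp, hnp2⟩ := choose_p hq1 hk hnq
  have : Fact p.Prime := ⟨hpp⟩
  have hn1 : 1 ≤ n := by
    have := Nat.mul_pos hq0 hk
    omega
  have hcor := agrees_cor hn1 C hagr
  have hkp : q * k ≤ 8 * p ^ 2 := hnq.trans hnp2.le
  have hop2 : ∀ g, C.Big K g → SubPow (2 ^ w) (C.op g) := fun g hg =>
    subPow_mono Nat.lt_two_pow_self.le (hop g hg)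
  have hout : C.Big K C.out := by
    refine big_out hnp C K k hk hcor (by omega) (by omega) ?_
    exact (Nat.mul_le_mul_right _ hq3).trans hkp
  have hDp : D ≤ p := by
    by_contra h1
    have h2 : p ^ 2 < D ^ 2 := Nat.pow_lt_pow_left (by omega) (by norm_num)
    have h3 : 8 * D ^ 2 ≤ q * D ^ 2 := Nat.mul_le_mul_right _ (by omega)
    omega
  have hDk : 320 * k * D ≤ p ^ 2 := by
    have h1 : 2560 * (k * D) ≤ q * (k * D) := Nat.mul_le_mul_right _ hq2
    have h2 : q * (k * D) = q * k * D := by ring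
    have h3 : 2560 * (k * D) = 8 * (320 * k * D) := by ring
    omega
  have h1 := scale hnp C K w k hk hop2 hcor hout X Z hX hZ (by omega) D (by omega) hDp hDk
  rw [← hc2] at h1
  obtain ⟨R, hR⟩ : ∃ R, R = D * ∑ h ∈ Z.filter (fun h => h ∉ X), min D (bel C K Z h).card +
            ∑ h ∈ shg C K Z, fo C K h * min D (bel C K Z h).card := ⟨_, rfl⟩
  rw [← hR] at h1 ⊢
  calc D * n ≤ D * (8 * p ^ 2) := Nat.mul_le_mul_left _ hnp2.le
    _ = 8 * (D * p ^ 2) := by ring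
    _ ≤ 8 * (c2 * (max K 1 * C.wires K + R)) := Nat.mul_le_mul_left _ h1
    _ ≤ 8 * (c2 * (max K 1 * C.wires K + max K 1 * R)) := by
        refine Nat.mul_le_mul_left _ (Nat.mul_le_mul_left _ (Nat.add_le_add_left ?_ _))
        exact Nat.le_mul_of_pos_left _ (by omega)
    _ = 8 * c2 * max K 1 * (C.wires K + R) := by ring
    _ ≤ q * (C.wires K + R) := Nat.mul_le_mul_right _ hq4

/-- The profile inequality. -/
theorem profile (K w : ℕ) : ∃ q : ℕ, 0 < q ∧ ∀ n k : ℕ, 1 ≤ k → ∀ C : Circuit (Inp n),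
    (∀ g, C.Big K g → SubPow w (C.op g)) → ∀ X : Finset C.Gate, X.card ≤ k → Agrees C k →
      ∀ D : ℕ, q ≤ D → q * D ^ 2 ≤ n → q * k * D ≤ n → D * n ≤ q * (C.wires K +
        ∑ h ∈ shg C K X, min D (below C h).card * min D (fo C K h)) := by
  classical
  obtain ⟨q, hq0, h⟩ := cut_bound K w
  refine ⟨q, hq0, ?_⟩
  intro n k hk C hop X hX hagr D hD1 hD2 hD3
  set Y : Finset C.Gate := (shg C K X).filter fun h => D < fo C K h with hY
  set Z : Finset C.Gate := bigs C K X ∪ Y with hZ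
  have hshg : ∀ (T : Finset C.Gate) (g : C.Gate), g ∈ shg C K T ↔ C.Big K g ∧ g ∉ T ∧ C.Shared K g := by
    intro T g
    unfold shg
    rw [mem_filter]
    exact ⟨fun h => h.2, fun h => ⟨mem_univ _, h⟩⟩
  have hbigs : ∀ g, g ∈ bigs C K X ↔ g ∈ X ∧ C.Big K g := by
    intro g
    unfold bigs
    rw [mem_filter]
  have hYm : ∀ g, g ∈ Y ↔ g ∈ shg C K X ∧ D < fo C K g := by
    intro g
    rw [hY, mem_filter]
  have hZb : ∀ g ∈ Z, C.Big K g := by
    intro g hg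
    rcases mem_union.1 hg with h1 | h1
    · exact ((hbigs g).1 h1).2
    · exact ((hshg X g).1 ((hYm g).1 h1).1).1
  have h1 := h n k hk C hop X hX hagr Z hZb D hD1 hD2 hD3
  refine h1.trans (Nat.mul_le_mul_left _ (Nat.add_le_add_left ?_ _))
  have hbel : ∀ g, (bel C K Z g).card ≤ (below C g).card := fun g => card_le_card (bel_below g)
  -- the gates with more than `D` wires
  have h2 : D * ∑ g ∈ Z.filter (fun g => g ∉ X), min D (bel C K Z g).card ≤
      ∑ g ∈ Y, min D (below C g).card * min D (fo C K g) := by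
    rw [mul_sum]
    refine (sum_le_sum_of_subset (t := Y) ?_).trans (sum_le_sum fun g hg => ?_)
    · intro g hg
      obtain ⟨h3, h4⟩ := mem_filter.1 hg
      rcases mem_union.1 h3 with h5 | h5
      · exact absurd ((hbigs g).1 h5).1 h4
      · exact h5
    · have h3 : min D (fo C K g) = D := min_eq_left ((hYm g).1 hg).2.le
      rw [h3, mul_comm]
      exact Nat.mul_le_mul_right _ (min_le_min_left _ (hbel g))
  have h3 : ∑ g ∈ shg C K Z, fo C K g * min D (bel C K Z g).card ≤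
      ∑ g ∈ (shg C K X).filter (fun g => ¬ D < fo C K g), min D (below C g).card * min D (fo C K g) := by
    refine (sum_le_sum_of_subset (t := (shg C K X).filter (fun g => ¬ D < fo C K g)) ?_).trans
      (sum_le_sum fun g hg => ?_)
    · intro g hg
      obtain ⟨h3, h4, h5⟩ := (hshg Z g).1 hg
      have h6 : g ∈ shg C K X := by
        refine (hshg X g).2 ⟨h3, fun hX => h4 ?_, h5⟩
        exact mem_union_left _ ((hbigs g).2 ⟨hX, h3⟩)
      refine mem_filter.2 ⟨h6, fun h7 => h4 ?_⟩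
      exact mem_union_right _ ((hYm g).2 ⟨h6, h7⟩)
    · have h4 : ¬ D < fo C K g := (mem_filter.1 hg).2
      have h3 : min D (fo C K g) = fo C K g := min_eq_right (by omega)
      rw [h3, mul_comm]
      exact Nat.mul_le_mul_right _ (min_le_min_left _ (hbel g))
  have h4 : ∑ g ∈ Y, min D (below C g).card * min D (fo C K g) +
      ∑ g ∈ (shg C K X).filter (fun g => ¬ D < fo C K g), min D (below C g).card * min D (fo C K g) =
      ∑ g ∈ shg C K X, min D (below C g).card * min D (fo C K g) := by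
    rw [hY]
    exact sum_filter_add_sum_filter_not _ _ _
  rw [← h4]
  exact Nat.add_le_add h2 h3

end Pool.Agent.Lib_MP_22d2c8_rt
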