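import Pool.Agent.Lib_MP_22d2c8_rt.NetMain
import Pool.Agent.Lib_MP_22d2c8_rt.NetOf
import Pool.Agent.Lib_MP_22d2c8_rt.Profile

/-!
# [LV-7] From the cheap scale to the lower bound, with gates that are never cut

As `core` (`Core.lean`), but the shared gates in `Lo` are not in the net. They are never cut; at every
scale they cost at most the number of wires from them times the number of variables below them, which is
part of the total `T`.
-/

set_option linter.unusedSectionVars false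

namespace Pool.Agent.Lib_MP_22d2c8_rt

open Finset Pool.Agent.Lib_MP_22d2c8_sym Pool.Agent.Lib_MP_22d2c8_oa

section

variable {W U : Type} [DecidableEq W] (C : Circuit (W ⊕ U)) (K : ℕ) (X : Finset C.Gate)

private theorem coreL_mem_bigs {h : C.Gate} : h ∈ bigs C K X ↔ h ∈ X ∧ C.Big K h := by
  classical
  unfold bigs
  exact mem_filter

/-- the right side of `scale` for `Z = bigs ∪ Z'` is at most the cost of `Z'` and of `Lo` -/
private theorem coreL_cost (N Lo Z' : Finset C.Gate) (D : ℕ)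
    (hN : ∀ h, C.Big K h → h ∉ X → C.Shared K h → h ∈ N ∨ h ∈ Lo) :
    D * ∑ h ∈ (bigs C K X ∪ Z').filter (fun h => h ∉ X),
        min D (bel C K (bigs C K X ∪ Z') h).card +
      ∑ h ∈ shg C K (bigs C K X ∪ Z'), fo C K h * min D (bel C K (bigs C K X ∪ Z') h).card ≤
    ∑ h ∈ Lo, fo C K h * (bel C K X h).card + cost N (fo C K) (bz C K X) D Z' := by
  classical
  unfold cost
  have hXZ : ∀ h ∈ X, C.Big K h → h ∈ bigs C K X ∪ Z' := fun h hX hb =>
    mem_union_left _ ((coreL_mem_bigs C K X).2 ⟨hX, hb⟩)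
  have h1 : D * ∑ h ∈ (bigs C K X ∪ Z').filter (fun h => h ∉ X),
        min D (bel C K (bigs C K X ∪ Z') h).card ≤ D * ∑ h ∈ Z', min D (bz C K X Z' h) := by
    refine Nat.mul_le_mul_left _ ((sum_le_sum_of_subset ?_).trans (le_of_eq ?_) (b := ∑ h ∈ Z', min D
      (bel C K (bigs C K X ∪ Z') h).card))
    · intro h hh
      obtain ⟨h1, h2⟩ := mem_filter.1 hh
      rcases mem_union.1 h1 with h3 | h3
      · exact absurd ((coreL_mem_bigs C K X).1 h3).1 h2
      · exact h3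
    · rfl
  have h2 : ∑ h ∈ shg C K (bigs C K X ∪ Z'), fo C K h * min D (bel C K (bigs C K X ∪ Z') h).card ≤
      ∑ h ∈ Lo ∪ N \ Z', fo C K h * min D (bel C K (bigs C K X ∪ Z') h).card := by
    refine sum_le_sum_of_subset ?_
    intro h hh
    obtain ⟨h1, h2, h3⟩ := (mem_filter.1 (show h ∈ univ.filter (fun h => C.Big K h ∧
      h ∉ bigs C K X ∪ Z' ∧ C.Shared K h) from hh)).2
    have hX : h ∉ X := fun hX => h2 (hXZ h hX h1)
    rcases hN h h1 hX h3 with h4 | h4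
    · exact mem_union_right _ (mem_sdiff.2 ⟨h4, fun hZ => h2 (mem_union_right _ hZ)⟩)
    · exact mem_union_left _ h4
  have h3 : ∑ h ∈ Lo ∪ N \ Z', fo C K h * min D (bel C K (bigs C K X ∪ Z') h).card ≤
      ∑ h ∈ Lo, fo C K h * min D (bel C K (bigs C K X ∪ Z') h).card +
      ∑ h ∈ N \ Z', fo C K h * min D (bel C K (bigs C K X ∪ Z') h).card := by
    rw [← sum_union_inter]
    exact Nat.le_add_right _ _
  have h4 : ∑ h ∈ Lo, fo C K h * min D (bel C K (bigs C K X ∪ Z') h).card ≤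
      ∑ h ∈ Lo, fo C K h * (bel C K X h).card := by
    refine sum_le_sum fun h _ => Nat.mul_le_mul_left _ ((min_le_right _ _).trans ?_)
    exact card_le_card (bel_anti hXZ h)
  have h5 : ∑ h ∈ N \ Z', fo C K h * min D (bel C K (bigs C K X ∪ Z') h).card =
      ∑ h ∈ N \ Z', fo C K h * min D (bz C K X Z' h) := rfl
  omega

end

theorem core_lo (K w : ℕ) : ∃ q : ℕ, 0 < q ∧ ∀ d n k : ℕ, 1 ≤ k → ∀ C : Circuit (Inp n),
    (∀ g, C.Big K g → SubPow w (C.op g)) → ∀ X : Finset C.Gate, X.card ≤ k → Agrees C k →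
      ∀ (N Lo : Finset C.Gate) (s T : ℕ) (lev a : C.Gate → ℕ) (m : C.Gate → C.Gate → ℕ),
        max K 1 * C.wires K + ∑ h ∈ Lo, fo C K h * (bel C K X h).card ≤ T →
        (∀ h ∈ N, C.Big K h ∧ h ∉ X) →
        (∀ h, C.Big K h → h ∉ X → C.Shared K h → h ∈ N ∨ h ∈ Lo) →
        (∀ x ν : ℕ, T ≤ x * ν → IsNet N s d x ν lev a (fo C K) m (bz C K X)) →
        n * lam d (n / (q * k)) ≤ q * (d + 1) * T := by
  obtain ⟨c2, hc2⟩ : ∃ c2, c2 = 16 * (3 * w + 2 * 2 ^ max K 1) + 128 := ⟨_, rfl⟩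
  have hc128 : 128 ≤ c2 := by omega
  have hcw : 2 * (2 + w) ≤ c2 := by omega
  obtain ⟨P1, hP1⟩ : ∃ P1, P1 = c2 + 32 * (2 + 2 * w + 2 ^ max K 1) + 2 * (K + 2) := ⟨_, rfl⟩
  obtain ⟨q, hq⟩ : ∃ q, q = 8 * (P1 + 1) ^ 2 + 2560 * c2 + 1024 * (K + 2) +
    6144 * c2 ^ 2 * (1 + 2 * c2) := ⟨_, rfl⟩
  have hq1 : 8 * (P1 + 1) ^ 2 ≤ q := by rw [hq]; omega
  have hq2 : 2560 * c2 ≤ q := by rw [hq]; omega
  have hq3 : 1024 * (K + 2) ≤ q := by rw [hq]; omega
  have hq4 : 6144 * c2 ^ 2 * (1 + 2 * c2) ≤ q := by rw [hq]; exact Nat.le_add_left _ _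
  have hq0 : 0 < q := by omega
  refine ⟨q, hq0, ?_⟩
  intro d n k hk C hop X hX hagr N Lo s T lev a m hT hN1 hN2 hnet
  obtain ⟨V, hV⟩ : ∃ V, V = max K 1 * C.wires K + ∑ h ∈ Lo, fo C K h * (bel C K X h).card := ⟨_, rfl⟩
  rw [← hV] at hT
  rcases Nat.lt_or_ge n (q * k) with hnq | hnq
  · rw [Nat.div_eq_of_lt hnq, lam_zero, Nat.mul_zero]
    exact Nat.zero_le _
  obtain ⟨p, hpp, hPp, hnp, hnp2⟩ := choose_p hq1 hk hnq
  have : Fact p.Prime := ⟨hpp⟩
  have hp0 : 0 < p := hpp.pos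
  have hn1 : 1 ≤ n := by
    have := Nat.mul_pos hq0 hk
    omega
  have hcor := agrees_cor hn1 C hagr
  have hkp : q * k ≤ 8 * p ^ 2 := hnq.trans hnp2.le
  have hop2 : ∀ g, C.Big K g → SubPow (2 ^ w) (C.op g) := fun g hg =>
    subPow_mono Nat.lt_two_pow_self.le (hop g hg)
  have hout : C.Big K C.out := by
    refine big_out hnp C K k hk hcor (by omega) (by omega) ?_
    exact (Nat.mul_le_mul_right _ hq3).trans hkp
  have hPp2 : 32 * (2 + 2 * w + 2 ^ max K 1) ≤ p := by omega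
  have hWV : C.wires K ≤ V := by
    have h1 : C.wires K ≤ max K 1 * C.wires K := Nat.le_mul_of_pos_left _ (by omega)
    omega
  have hWT : C.wires K ≤ T := hWV.trans hT
  have hp20 : 0 < p ^ 2 := by positivity
  -- every scale
  have hsc : ∀ (Z' : Finset C.Gate) (D : ℕ), Z' ⊆ N → c2 ≤ D → D ≤ p → 320 * k * D ≤ p ^ 2 →
      D * p ^ 2 ≤ c2 * (V + cost N (fo C K) (bz C K X) D Z') := by
    intro Z' D hZ' hD1 hD2 hD3
    have h1 := scale hnp C K w k hk hop2 hcor hout X (bigs C K X ∪ Z') hX (fun h hh => by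
      rcases mem_union.1 hh with h2 | h2
      · exact ((coreL_mem_bigs C K X).1 h2).2
      · exact (hN1 h (hZ' h2)).1) hPp2 D (hcw.trans hD1) hD2 hD3
    rw [← hc2] at h1
    refine h1.trans (Nat.mul_le_mul_left _ ?_)
    rw [hV, Nat.add_assoc]
    exact Nat.add_le_add_left (coreL_cost C K X N Lo Z' D hN2) _
  -- (1)
  have hpT : p ^ 2 ≤ 2 * c2 * T := by
    have h320 : 320 * k * c2 ≤ p ^ 2 := by
      have h1 : 2560 * c2 * k ≤ 8 * p ^ 2 := (Nat.mul_le_mul_right _ hq2).trans hkp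
      have h2 : 8 * (320 * k * c2) ≤ 8 * p ^ 2 := le_trans (le_of_eq (by ring)) h1
      omega
    have h1 := hsc ∅ c2 (empty_subset _) le_rfl (by omega) h320
    have h2 : cost N (fo C K) (bz C K X) c2 ∅ ≤ c2 * C.wires K := by
      unfold cost
      rw [sum_empty, Nat.mul_zero, Nat.zero_add, sdiff_empty]
      calc ∑ h ∈ N, fo C K h * min c2 (bz C K X ∅ h) ≤ ∑ h ∈ N, c2 * fo C K h := by
            refine sum_le_sum fun h _ => ?_
            rw [Nat.mul_comm]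
            exact Nat.mul_le_mul_right _ (Nat.min_le_left _ _)
        _ = c2 * ∑ h ∈ N, fo C K h := by rw [mul_sum]
        _ ≤ c2 * C.wires K := Nat.mul_le_mul_left _ (sum_fo_all N)
    have h3 : c2 * p ^ 2 ≤ c2 * (2 * c2 * T) := by
      refine h1.trans (Nat.mul_le_mul_left _ ?_)
      calc V + cost N (fo C K) (bz C K X) c2 ∅ ≤ T + c2 * T :=
            Nat.add_le_add hT (h2.trans (Nat.mul_le_mul_left _ hWT))
        _ = (1 + c2) * T := by ring
        _ ≤ 2 * c2 * T := Nat.mul_le_mul_right _ (by omega)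
    exact Nat.le_of_mul_le_mul_left h3 (by omega)
  -- (2)
  obtain ⟨r, hr⟩ : ∃ r, r = T / p ^ 2 + 1 := ⟨_, rfl⟩
  have hr1 : 1 ≤ r := by rw [hr]; exact Nat.succ_le_succ (Nat.zero_le _)
  have hTr : T ≤ p ^ 2 * r := by
    rw [hr]
    exact (Nat.lt_mul_div_succ _ hp20).le
  have hrT : p ^ 2 * r ≤ (1 + 2 * c2) * T := by
    have h1 : p ^ 2 * (T / p ^ 2) ≤ T := Nat.mul_div_le _ _
    calc p ^ 2 * r = p ^ 2 * (T / p ^ 2) + p ^ 2 := by rw [hr]; ring
      _ ≤ T + 2 * c2 * T := Nat.add_le_add h1 hpT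
      _ = (1 + 2 * c2) * T := by ring
  obtain ⟨x, hx⟩ : ∃ x, x = 4 * c2 * r := ⟨_, rfl⟩
  have hxc : 4 * c2 ≤ x := by
    rw [hx]
    exact Nat.le_mul_of_pos_right _ hr1
  have hTx : 4 * c2 * T ≤ x * p ^ 2 := by
    calc 4 * c2 * T ≤ 4 * c2 * (p ^ 2 * r) := Nat.mul_le_mul_left _ hTr
      _ = x * p ^ 2 := by rw [hx]; ring
  obtain ⟨E, hE⟩ : ∃ E, E = 4 * c2 * (3 * d + 4) := ⟨_, rfl⟩
  have hE1 : 1 ≤ E := by
    rw [hE]
    exact Nat.mul_pos (by omega) (by omega)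
  obtain ⟨D, hxD, hDg, Z', hZ', hcost⟩ := net_main E hE1 d N s x (p ^ 2) lev a (fo C K) m
    (bz C K X) (by omega) (hnet x (p ^ 2) ((Nat.le_mul_of_pos_left _ (by omega)).trans hTx))
  have hD0 : 1 ≤ D := by omega
  have hpD : p ^ 2 < 320 * k * D ^ 2 := by
    by_contra hcon
    rw [Nat.not_lt] at hcon
    have hDD : D ≤ D ^ 2 := Nat.le_self_pow (by norm_num) D
    have hD2 : D ≤ p := by
      by_contra h1
      have h2 : p ^ 2 < D ^ 2 := Nat.pow_lt_pow_left (by omega) (by norm_num)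
      have h3 : D ^ 2 ≤ 320 * k * D ^ 2 := Nat.le_mul_of_pos_left _ (by omega)
      omega
    have hD3 : 320 * k * D ≤ p ^ 2 := (Nat.mul_le_mul_left _ hDD).trans hcon
    have h1 := hsc Z' D hZ' (by omega) hD2 hD3
    have h2 : 4 * c2 * cost N (fo C K) (bz C K X) D Z' ≤ D * p ^ 2 := by
      have h3 : (3 * d + 4) * (4 * c2 * cost N (fo C K) (bz C K X) D Z') ≤
          (3 * d + 4) * (D * p ^ 2) := by
        calc (3 * d + 4) * (4 * c2 * cost N (fo C K) (bz C K X) D Z') =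
            E * cost N (fo C K) (bz C K X) D Z' := by rw [hE]; ring
          _ ≤ (3 * d + 1) * (D * p ^ 2) := hcost
          _ ≤ (3 * d + 4) * (D * p ^ 2) := Nat.mul_le_mul_right _ (by omega)
      exact Nat.le_of_mul_le_mul_left h3 (by omega)
    have h4 : 4 * c2 * V ≤ D * p ^ 2 :=
      ((Nat.mul_le_mul_left _ hT).trans hTx).trans (Nat.mul_le_mul_right _ hxD)
    have h5 : 4 * (D * p ^ 2) ≤ 2 * (D * p ^ 2) := by
      calc 4 * (D * p ^ 2) ≤ 4 * (c2 * (V + cost N (fo C K) (bz C K X) D Z')) :=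
            Nat.mul_le_mul_left _ h1
        _ = 4 * c2 * V + 4 * c2 * cost N (fo C K) (bz C K X) D Z' := by ring
        _ ≤ D * p ^ 2 + D * p ^ 2 := Nat.add_le_add h4 h2
        _ = 2 * (D * p ^ 2) := by ring
    have h6 : 0 < D * p ^ 2 := Nat.mul_pos hD0 hp20
    omega
  -- (3)
  have hnD : n / (q * k) ≤ gr E d x ^ 2 := by
    have h1 : n < q * k * D ^ 2 := by
      calc n < 8 * p ^ 2 := hnp2
        _ ≤ 8 * (320 * k * D ^ 2) := Nat.mul_le_mul_left _ hpD.le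
        _ = 2560 * (k * D ^ 2) := by ring
        _ ≤ q * (k * D ^ 2) := Nat.mul_le_mul_right _ (by omega)
        _ = q * k * D ^ 2 := by ring
    have h2 : n / (q * k) < D ^ 2 := Nat.div_lt_of_lt_mul h1
    exact h2.le.trans (Nat.pow_le_pow_left hDg 2)
  have hlam := lam_gr E hE1 d (x := x) (by omega) hnD
  have h1 : lam d (n / (q * k)) ≤ 768 * c2 ^ 2 * (d + 1) * r := by
    refine hlam.trans ?_
    calc 12 * E * x = 192 * c2 ^ 2 * (3 * d + 4) * r := by rw [hE, hx]; ring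
      _ ≤ 192 * c2 ^ 2 * (4 * (d + 1)) * r :=
          Nat.mul_le_mul_right _ (Nat.mul_le_mul_left _ (by omega))
      _ = 768 * c2 ^ 2 * (d + 1) * r := by ring
  calc n * lam d (n / (q * k)) ≤ 8 * p ^ 2 * (768 * c2 ^ 2 * (d + 1) * r) :=
        Nat.mul_le_mul hnp2.le h1
    _ = 6144 * c2 ^ 2 * (d + 1) * (p ^ 2 * r) := by ring
    _ ≤ 6144 * c2 ^ 2 * (d + 1) * ((1 + 2 * c2) * T) := Nat.mul_le_mul_left _ hrT
    _ = 6144 * c2 ^ 2 * (1 + 2 * c2) * ((d + 1) * T) := by ring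
    _ ≤ q * ((d + 1) * T) := Nat.mul_le_mul_right _ hq4
    _ = q * (d + 1) * T := by ring

end Pool.Agent.Lib_MP_22d2c8_rt
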