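import Pool.Agent.Lib_MP_22d2c8_rt.CutDefs

/-!
# [RT-8b] Averages over the translates

(c) `sum_wsh_min`: `∑_(v,v') wsh (gS v v') Z ≤ ∑_(h ∈ shg C K Z) fo h * #{(v,v') | h live}`. The number
is at most `p * p` and, by `live_bel` (with `X := Z`) and `aver_set`, at most `b * (p * L)`,
`b = (bel C K Z h).card`. `D * (b * (p * L)) ≤ p ^ 2 * b` as `D * L ≤ p`, `D * (p * p) = p ^ 2 * D`.
(d) `sum_cutS`: `h ∈ Z \ X` is in `cutS` for at most `p * p` pairs if `D < b` and for at most
`b * (p * L)` pairs if `b ≤ D` (then it must be live).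
(e) from `sum_tB` (`p * L * (max K 1 * wires)`) and `D * L ≤ p`.
-/

set_option linter.unusedSectionVars false

namespace Pool.Agent.Lib_MP_22d2c8_rt

open Finset Pool.Agent.Lib_MP_22d2c8_sym Pool.Agent.Lib_MP_22d2c8_oa

variable {n : ℕ} (C : Circuit (Inp n)) (K p L D : ℕ) [hp : Fact p.Prime]

omit hp in
private theorem CutB_comm [Fintype (ZMod p)] {ι : Type} (B : Finset ι)
    (f : ZMod p → ZMod p → ι → ℕ) :
    ∑ v : ZMod p, ∑ v' : ZMod p, ∑ w ∈ B, f v v' w =
      ∑ w ∈ B, ∑ v : ZMod p, ∑ v' : ZMod p, f v v' w := by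
  calc ∑ v : ZMod p, ∑ v' : ZMod p, ∑ w ∈ B, f v v' w
      = ∑ v : ZMod p, ∑ w ∈ B, ∑ v' : ZMod p, f v v' w := sum_congr rfl fun v _ => sum_comm
    _ = _ := sum_comm

/-- The number of all pairs of translates. -/
private theorem CutB_all (f : ZMod p → ZMod p → ℕ) (hf : ∀ v v', f v v' ≤ 1) :
    ∑ v : ZMod p, ∑ v' : ZMod p, f v v' ≤ p * p := by
  have hc : Fintype.card (ZMod p) = p := ZMod.card p
  calc ∑ v : ZMod p, ∑ v' : ZMod p, f v v'
      ≤ ∑ v : ZMod p, ∑ v' : ZMod p, 1 := sum_le_sum fun v _ => sum_le_sum fun v' _ => hf v v'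
    _ = p * p := by simp [hc]

open Classical in
/-- A gate is live for few translates. -/
private theorem CutB_live (hDL : D * L ≤ p) (Z : Finset C.Gate) (h : C.Gate) :
    D * ∑ v : ZMod p, ∑ v' : ZMod p, (if live C K (gS n p L v v') Z h then 1 else 0) ≤
      p ^ 2 * min D (bel C K Z h).card := by
  set b := (bel C K Z h).card with hb
  have h1 : ∑ v : ZMod p, ∑ v' : ZMod p, (if live C K (gS n p L v v') Z h then 1 else 0) ≤
      p * p := CutB_all p _ fun v v' => by split_ifs <;> simp
  have h2 : ∑ v : ZMod p, ∑ v' : ZMod p, (if live C K (gS n p L v v') Z h then 1 else 0) ≤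
      b * (p * L) := by
    refine le_trans (sum_le_sum fun v _ => sum_le_sum fun v' _ => ?_)
      (aver_set p L (bel C K Z h))
    split_ifs with h3 h4 h4
    · exact le_rfl
    · exact absurd (live_bel (fun _ hz _ => hz) h h3) h4
    · exact Nat.zero_le _
    · exact le_rfl
  rcases le_total D b with h3 | h3
  · rw [min_eq_left h3]
    calc D * _ ≤ D * (p * p) := Nat.mul_le_mul_left _ h1
      _ = p ^ 2 * D := by ring
  · rw [min_eq_right h3]
    calc D * _ ≤ D * (b * (p * L)) := Nat.mul_le_mul_left _ h2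
      _ = b * p * (D * L) := by ring
      _ ≤ b * p * p := Nat.mul_le_mul_left _ hDL
      _ = p ^ 2 * b := by ring

theorem sum_wsh_min (hDL : D * L ≤ p) (Z : Finset C.Gate) :
    D * ∑ v : ZMod p, ∑ v' : ZMod p, wsh C K (gS n p L v v') Z ≤
      p ^ 2 * ∑ h ∈ shg C K Z, fo C K h * min D (bel C K Z h).card := by
  classical
  have h0 : ∀ v v' : ZMod p, wsh C K (gS n p L v v') Z =
      ∑ h ∈ shg C K Z, fo C K h * if live C K (gS n p L v v') Z h then 1 else 0 := by
    intro v v'
    unfold wsh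
    have h1 : (univ.filter fun h => C.Big K h ∧ h ∉ Z ∧ C.Shared K h ∧
        live C K (gS n p L v v') Z h) =
        (shg C K Z).filter fun h => live C K (gS n p L v v') Z h := by
      ext h
      simp only [shg, mem_filter]
      tauto
    rw [h1, sum_filter]
    refine sum_congr rfl fun h _ => ?_
    split_ifs <;> simp
  simp only [h0]
  rw [CutB_comm p (shg C K Z) fun v v' h => fo C K h *
    if live C K (gS n p L v v') Z h then 1 else 0, mul_sum, mul_sum]
  refine sum_le_sum fun h _ => ?_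
  have h2 := Nat.mul_le_mul_left (fo C K h) (CutB_live C K p L D hDL Z h)
  calc D * ∑ v : ZMod p, ∑ v' : ZMod p, fo C K h *
        (if live C K (gS n p L v v') Z h then 1 else 0)
      = fo C K h * (D * ∑ v : ZMod p, ∑ v' : ZMod p,
          (if live C K (gS n p L v v') Z h then 1 else 0)) := by
        simp only [← mul_sum]
        ring
    _ ≤ fo C K h * (p ^ 2 * min D (bel C K Z h).card) := h2
    _ = p ^ 2 * (fo C K h * min D (bel C K Z h).card) := by ring

theorem sum_cutS (hDL : D * L ≤ p) (X Z : Finset C.Gate) :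
    D * ∑ v : ZMod p, ∑ v' : ZMod p,
        ((cutS C K X Z D (gS n p L v v')).filter fun h => h ∉ X).card ≤
      p ^ 2 * ∑ h ∈ Z.filter (fun h => h ∉ X), min D (bel C K Z h).card := by
  classical
  have h0 : ∀ v v' : ZMod p, ((cutS C K X Z D (gS n p L v v')).filter fun h => h ∉ X).card =
      ∑ h ∈ Z.filter (fun h => h ∉ X), if h ∈ cutS C K X Z D (gS n p L v v') then 1 else 0 := by
    intro v v'
    rw [← card_filter]
    congr 1
    ext h
    simp only [cutS, mem_filter]
    tauto
  simp only [h0]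
  rw [CutB_comm p (Z.filter fun h => h ∉ X) fun v v' h =>
    if h ∈ cutS C K X Z D (gS n p L v v') then 1 else 0, mul_sum, mul_sum]
  refine sum_le_sum fun h hh => ?_
  rw [mem_filter] at hh
  rcases lt_or_ge D (bel C K Z h).card with h3 | h3
  · rw [min_eq_left h3.le]
    calc D * _ ≤ D * (p * p) := Nat.mul_le_mul_left _
          (CutB_all p _ fun v v' => by split_ifs <;> simp)
      _ = p ^ 2 * D := by ring
  · refine le_trans (Nat.mul_le_mul_left _ (sum_le_sum fun v _ => sum_le_sum fun v' _ => ?_))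
      (CutB_live C K p L D hDL Z h)
    split_ifs with h4 h5 h5
    · exact le_rfl
    · exfalso
      simp only [cutS, mem_filter] at h4
      rcases h4.2 with h6 | h6 | h6
      · exact hh.2 h6
      · exact absurd h6 (not_lt.2 h3)
      · exact h5 h6
    · exact Nat.zero_le _
    · exact le_rfl

theorem sum_tB_min (hDL : D * L ≤ p) :
    D * ∑ v : ZMod p, ∑ v' : ZMod p, tB C K (gS n p L v v') ≤
      p ^ 2 * (max K 1 * C.wires K) := by
  calc D * ∑ v : ZMod p, ∑ v' : ZMod p, tB C K (gS n p L v v')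
      ≤ D * (p * L * (max K 1 * C.wires K)) := Nat.mul_le_mul_left _ (sum_tB C K p L)
    _ = D * L * (p * (max K 1 * C.wires K)) := by ring
    _ ≤ p * (p * (max K 1 * C.wires K)) := Nat.mul_le_mul_right _ hDL
    _ = p ^ 2 * (max K 1 * C.wires K) := by ring

end Pool.Agent.Lib_MP_22d2c8_rt
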