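import Pool.Agent.Lib_MP_22d2c8_rt.CutDefs

/-!
# [RT-8a] Live gates after the reduced cut

(a) `live_cutS`: strong induction along the circuit (as in `live_bel` in `Lib_MP_22d2c8_oa/Eval.lean`):
a live source `i` of `g` for the smaller set `cutS` is a variable or a small gate (the same condition for
`Z`), or a big gate `h ∉ cutS`, live for `cutS`, so by induction live for `Z`; then `h ∉ Z`, since a gate
of `Z` which is live for `Z` is in `cutS`.
(b) `wsh_cutS`: every `h` in the filter of `wsh C K S (cutS ..)` is live for `Z` by (a) and not in `Z`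
(as `h ∉ cutS`), so it is in the filter of `wsh C K S Z`.
-/

set_option linter.unusedSectionVars false

namespace Pool.Agent.Lib_MP_22d2c8_rt

open Finset Pool.Agent.Lib_MP_22d2c8_sym Pool.Agent.Lib_MP_22d2c8_oa

variable {W U : Type} [DecidableEq W] (C : Circuit (W ⊕ U)) (K : ℕ)

private theorem ca_notMem {X Z : Finset C.Gate} {D : ℕ} {S : Finset W} {h : C.Gate}
    (hl : live C K S Z h) (hc : h ∉ cutS C K X Z D S) : h ∉ Z := by
  classical
  intro hZ
  apply hc
  unfold cutS
  exact mem_filter.2 ⟨hZ, Or.inr (Or.inr hl)⟩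

theorem live_cutS {X Z : Finset C.Gate} {D : ℕ} {S : Finset W} (g : C.Gate)
    (hg : live C K S (cutS C K X Z D S) g) : live C K S Z g := by
  have key : ∀ (m : ℕ) (g : C.Gate), g.val = m → live C K S (cutS C K X Z D S) g →
      live C K S Z g := by
    intro m
    induction m using Nat.strong_induction_on with
    | _ m ih =>
      intro g hgm hg
      obtain ⟨i, hi⟩ := live_iff.1 hg
      refine live_iff.2 ⟨i, ?_⟩
      rcases hσ : C.src g i with v | h
      · rw [hσ] at hi
        exact hi
      · rw [hσ] at hi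
        by_cases hs : C.Small K h
        · exact (liveS_small hs).2 ((liveS_small hs).1 hi)
        · obtain ⟨hZ, hl⟩ := (liveS_big hs).1 hi
          have h2 := C.src_lt g i h hσ
          have h3 := ih h.val (hgm ▸ h2) h rfl hl
          exact (liveS_big hs).2 ⟨ca_notMem C K h3 hZ, h3⟩
  exact key g.val g rfl hg

theorem wsh_cutS (X Z : Finset C.Gate) (D : ℕ) (S : Finset W) :
    wsh C K S (cutS C K X Z D S) ≤ wsh C K S Z := by
  classical
  unfold wsh
  refine sum_le_sum_of_subset ?_
  intro h hh
  rw [mem_filter] at hh ⊢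
  obtain ⟨h1, h2, h3, h4, h5⟩ := hh
  have h6 := live_cutS C K h h5
  exact ⟨h1, h2, ca_notMem C K h6 h3, h4, h6⟩

theorem cutS_card (X Z : Finset C.Gate) (D : ℕ) (S : Finset W) :
    (cutS C K X Z D S).card ≤ X.card + ((cutS C K X Z D S).filter fun h => h ∉ X).card := by
  classical
  refine (card_le_card (t := X ∪ (cutS C K X Z D S).filter fun h => h ∉ X) ?_).trans
    (card_union_le _ _)
  intro h hh
  by_cases hX : h ∈ X
  · exact mem_union_left _ hX
  · exact mem_union_right _ (mem_filter.2 ⟨hh, hX⟩)

end Pool.Agent.Lib_MP_22d2c8_rt
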