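import Pool.Agent.Lib_MP_22d2c8_oa.Bound
import Pool.Agent.Lib_MP_22d2c8_oa.Avg
import Pool.Agent.Lib_MP_22d2c8_oa.Aver

/-!
# Cut sets that depend on `S`

`cutS` keeps of the cut set `Z` only the gates in `X`, the gates with more than `D` variables below,
and the live ones.
-/

set_option linter.unusedSectionVars false

namespace Pool.Agent.Lib_MP_22d2c8_rt

open Finset Pool.Agent.Lib_MP_22d2c8_sym Pool.Agent.Lib_MP_22d2c8_oa

variable {W U : Type} [DecidableEq W] (C : Circuit (W ⊕ U)) (K : ℕ)

open Classical in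
/-- The gates of `Z` which are cut for the set `S`. -/
noncomputable def cutS (X Z : Finset C.Gate) (D : ℕ) (S : Finset W) : Finset C.Gate :=
  Z.filter fun h => h ∈ X ∨ D < (bel C K Z h).card ∨ live C K S Z h

end Pool.Agent.Lib_MP_22d2c8_rt
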