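import Pool.Agent.Lib_MP_22d2c8_rt.NetOf
import Pool.Agent.Lib_MP_22d2c8_oa.One

/-!
# [RT-13] The variables below the gates of `Y`

`massY_below`: `bel_below`, a subset of the sum. `massY_reach`: as `reach_level` in
`Lib_MP_22d2c8_oa/One.lean` with `Y.filter (Big, ∉ X)` in the place of `shg C K X` (the private lemmas
`one_bel`, `oneCone`, `one_wires` there can be copied).
-/

set_option linter.unusedSectionVars false

namespace Pool.Agent.Lib_MP_22d2c8_rt

open Finset Pool.Agent.Lib_MP_22d2c8_sym Pool.Agent.Lib_MP_22d2c8_oa

variable {W U : Type} [DecidableEq W] (C : Circuit (W ⊕ U)) (K : ℕ) (X Y : Finset C.Gate)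

open Classical in
/-- The gates of `Y` that can be reached from `g` by a path (possibly of length zero) of big gates
outside `X`. -/
noncomputable def reachIn (g : C.Gate) : Finset C.Gate :=
  Y.filter fun h => Relation.ReflTransGen (Step C K X) g h

open Classical in
private noncomputable def rCone (h : C.Gate) : Finset ((g : C.Gate) × Fin (C.arity g)) :=
  univ.filter fun p => C.Big K p.1 ∧ Relation.ReflTransGen (Step C K X) p.1 h

private theorem r_bel (h : C.Gate) (hh : C.Big K h) (hhX : h ∉ X) :
    bel C K X h ⊆ (rCone C K X h).biUnion fun p => lset C K (C.src p.1 p.2) := by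
  classical
  have key : ∀ (m : ℕ) (g : C.Gate), g.val = m → C.Big K g → g ∉ X →
      Relation.ReflTransGen (Step C K X) g h →
      bel C K X g ⊆ (rCone C K X h).biUnion fun p => lset C K (C.src p.1 p.2) := by
    intro m
    induction m using Nat.strong_induction_on with
    | _ m ih =>
      intro g hgm hg hgX hgr
      rw [bel_eq]
      intro w hw
      rw [mem_biUnion] at hw
      obtain ⟨i, -, hi⟩ := hw
      have hmem : (⟨g, i⟩ : (g : C.Gate) × Fin (C.arity g)) ∈ rCone C K X h :=
        mem_filter.2 ⟨mem_univ _, hg, hgr⟩
      rcases hσ : C.src g i with v | h'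
      · rw [hσ, belS_inl] at hi
        refine mem_biUnion.2 ⟨⟨g, i⟩, hmem, ?_⟩
        change w ∈ lset C K (C.src g i)
        rw [hσ]
        exact hi
      · rw [hσ] at hi
        by_cases hs : C.Small K h'
        · rw [belS_small hs] at hi
          refine mem_biUnion.2 ⟨⟨g, i⟩, hmem, ?_⟩
          change w ∈ lset C K (C.src g i)
          rw [hσ]
          exact hi
        · by_cases hX : h' ∈ X
          · rw [belS_mem hs hX] at hi
            exact absurd hi (notMem_empty _)
          · rw [belS_big hs hX] at hi
            have h2 := C.src_lt g i h' hσ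
            exact ih h'.val (hgm ▸ h2) h' rfl hs hX
              (Relation.ReflTransGen.head ⟨hs, hg, hX, hgX, i, hσ⟩ hgr) hi
  exact key h.val h rfl hh hhX Relation.ReflTransGen.refl

private theorem r_wires : (univ.filter fun p : (g : C.Gate) × Fin (C.arity g) =>
    @decide (C.Big K p.1) (Classical.propDecidable _) = true).card = C.wires K := by
  classical
  have h1 : (univ.filter fun p : (g : C.Gate) × Fin (C.arity g) =>
      @decide (C.Big K p.1) (Classical.propDecidable _) = true) =
      (univ.filter fun g : C.Gate => C.Big K g).sigma fun _ => univ := by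
    ext p
    simp
  rw [h1, card_sigma]
  unfold Circuit.wires
  refine Finset.sum_congr ?_ fun g _ => ?_
  · ext g
    simp
  · rw [card_univ, Fintype.card_fin]

theorem massY_below : massY C K X Y ≤ ∑ h ∈ Y, (below C h).card := by
  classical
  unfold massY
  refine (Finset.sum_le_sum fun h _ => card_le_card (bel_below (C := C) (K := K) (X := X) h)).trans ?_
  exact Finset.sum_le_sum_of_subset (filter_subset _ _)

theorem massY_reach (r : ℕ)
    (hr : ∀ g, C.Big K g → g ∉ X → (reachIn C K X Y g).card ≤ r) :
    massY C K X Y ≤ max K 1 * (r * C.wires K) := by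
  classical
  unfold massY
  set T : Finset C.Gate := Y.filter (fun h => C.Big K h ∧ h ∉ X) with hT
  have hmem : ∀ h ∈ T, C.Big K h ∧ h ∉ X := fun h hh => (mem_filter.1 hh).2
  have h2 : ∀ h ∈ T, (bel C K X h).card ≤ max K 1 * (rCone C K X h).card := by
    intro h hh
    refine (card_le_card (r_bel C K X h (hmem h hh).1 (hmem h hh).2)).trans ?_
    refine card_biUnion_le.trans ?_
    refine (Finset.sum_le_sum fun p _ => lset_card (C := C) (K := K) (C.src p.1 p.2)).trans ?_
    rw [Finset.sum_const, smul_eq_mul, mul_comm]
  refine (Finset.sum_le_sum h2).trans ?_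
  rw [← Finset.mul_sum]
  refine Nat.mul_le_mul_left _ ?_
  set P : Finset ((g : C.Gate) × Fin (C.arity g)) := univ.filter fun p => C.Big K p.1 with hP
  have hcone : ∀ h ∈ T, (rCone C K X h).card = ∑ p ∈ P,
      if Relation.ReflTransGen (Step C K X) p.1 h then 1 else 0 := by
    intro h _
    rw [← card_filter, hP, filter_filter]
    unfold rCone
    congr 1
  rw [Finset.sum_congr rfl hcone, Finset.sum_comm]
  have hPc : P.card = C.wires K := by
    rw [← r_wires]
    congr 1
    ext p
    simp [hP]
  have hp : ∀ p ∈ P, (∑ h ∈ T,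
      if Relation.ReflTransGen (Step C K X) p.1 h then 1 else 0) ≤ r := by
    intro p hp
    rw [← card_filter]
    have hb : C.Big K p.1 := (mem_filter.1 hp).2
    by_cases hX : p.1 ∈ X
    · have h0 : T.filter (fun h => Relation.ReflTransGen (Step C K X) p.1 h) = ∅ := by
        rw [filter_eq_empty_iff]
        intro h hh hR
        rcases Relation.ReflTransGen.cases_head hR with heq | ⟨c, hc, -⟩
        · rw [← heq] at hh
          exact (hmem _ hh).2 hX
        · exact hc.2.2.1 hX
      rw [h0, card_empty]
      exact Nat.zero_le _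
    · refine le_trans ?_ (hr p.1 hb hX)
      refine card_le_card ?_
      intro h hh
      obtain ⟨a1, a2⟩ := mem_filter.1 hh
      exact mem_filter.2 ⟨(mem_filter.1 a1).1, a2⟩
  refine (Finset.sum_le_sum hp).trans ?_
  rw [Finset.sum_const, smul_eq_mul, hPc, mul_comm]

end Pool.Agent.Lib_MP_22d2c8_rt
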