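import Pool.Agent.Lib_MP_22d2c8_rt.Core
import Pool.Agent.Lib_MP_22d2c8_rt.Reach

/-!
# The rates for every sharing depth
-/

set_option linter.unusedSectionVars false

namespace Pool.Agent.Lib_MP_22d2c8_rt

open Finset Pool.Agent.Lib_MP_22d2c8_sym Pool.Agent.Lib_MP_22d2c8_oa

private theorem fin_div {n q0 k κ : ℕ} (hq0 : 0 < q0) (hk : 1 ≤ k) (hκ : 1 ≤ κ) :
    n / (4 * κ * q0 * k) ≤ n / (q0 * k) := by
  refine Nat.div_le_div_left ?_ (Nat.mul_pos hq0 hk)
  refine Nat.mul_le_mul_right _ ?_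
  exact Nat.le_mul_of_pos_left _ (by omega)

theorem rates (K w : ℕ) : ∃ q : ℕ, 0 < q ∧ ∀ d n k : ℕ, 1 ≤ k → ∀ C : Circuit (Inp n),
    (∀ g, C.Big K g → SubPow w (C.op g)) → ∀ X : Finset C.Gate, X.card ≤ k →
      (1 / 2 + 1 / 2 ^ k) * 2 ^ (4 * n - 1) ≤ (agree C : ℝ) →
      (C.SharingDepthLE K X d → n * lam d (n / (q * k)) ≤ q * (d + 1) * C.wires K) ∧
      ∀ Y : Finset C.Gate, C.SharingDepthLE K (X ∪ Y) d →
        n * lam (d + 1) (n / (q * k)) ≤ q * (d + 1) * (C.wires K + ∑ h ∈ Y, (below C h).card) ∧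
        ∀ r : ℕ, (∀ g, C.Big K g → g ∉ X → (reachIn C K X Y g).card ≤ r) →
          n * lam (d + 1) (n / (q * k)) ≤ q * (d + 1) * ((r + 1) * C.wires K) := by
  classical
  obtain ⟨q0, hq0, h⟩ := core K w
  obtain ⟨κ, hκ⟩ : ∃ κ, κ = max K 1 := ⟨_, rfl⟩
  have hκ1 : 1 ≤ κ := by omega
  have hκ0 : 0 < κ := hκ1
  refine ⟨4 * κ * q0, by positivity, ?_⟩
  intro d n k hk C hop X hX hagr
  have hdiv : n / (4 * κ * q0 * k) ≤ n / (q0 * k) := fin_div hq0 hk hκ1
  have hlam : ∀ e, n * lam e (n / (4 * κ * q0 * k)) ≤ n * lam e (n / (q0 * k)) := fun e =>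
    Nat.mul_le_mul_left _ (lam_mono e hdiv)
  have hnod : ∀ Y : Finset C.Gate, ∀ g ∈ nodes C K X Y, C.Big K g ∧ g ∉ X := by
    intro Y g hg
    have h1 := (mem_filter.1 hg).2
    exact ⟨h1.1, h1.2.1⟩
  have hshr : ∀ Y : Finset C.Gate, ∀ g, C.Big K g → g ∉ X → C.Shared K g →
      g ∈ nodes C K X Y := by
    intro Y g h1 h2 h3
    exact mem_filter.2 ⟨mem_univ _, h1, h2, Or.inl h3⟩
  constructor
  · intro hd
    have hd2 : C.SharingDepthLE K (X ∪ ∅) d := by
      rw [union_empty]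
      exact hd
    obtain ⟨lev, a, m, hnet⟩ := circuit_net C K X ∅ d hd2
    have hm0 : massY C K X ∅ = 0 := by
      unfold massY
      rw [filter_empty, sum_empty]
    have h1 := h d n k hk C hop X hX hagr (nodes C K X ∅) 1 (κ * C.wires K) lev a m
      (by rw [hκ]) (hnod ∅) (hshr ∅) (fun x ν hx => (hnet x ν (by
        rw [hm0, add_zero, ← hκ]
        exact hx)).2 (by
        intro g hg
        exact absurd hg (notMem_empty g)))
    refine (hlam d).trans (h1.trans ?_)
    calc q0 * (d + 1) * (κ * C.wires K) = κ * q0 * (d + 1) * C.wires K := by ring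
      _ ≤ 4 * (κ * q0 * (d + 1) * C.wires K) := Nat.le_mul_of_pos_left _ (by norm_num)
      _ = 4 * κ * q0 * (d + 1) * C.wires K := by ring
  · intro Y hd
    obtain ⟨lev, a, m, hnet⟩ := circuit_net C K X Y d hd
    have h1 := h (d + 1) n k hk C hop X hX hagr (nodes C K X Y) 0
      (κ * C.wires K + massY C K X Y) lev a m
      (by
        rw [hκ]
        exact Nat.le_add_right _ _) (hnod Y) (hshr Y) (fun x ν hx => (hnet x ν (by
        rw [← hκ]
        exact hx)).1)
    have key : ∀ M : ℕ, κ * C.wires K + massY C K X Y ≤ κ * M →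
        n * lam (d + 1) (n / (4 * κ * q0 * k)) ≤ 4 * κ * q0 * (d + 1) * M := by
      intro M hM
      refine (hlam (d + 1)).trans (h1.trans ?_)
      calc q0 * (d + 1 + 1) * (κ * C.wires K + massY C K X Y) ≤ q0 * (d + 1 + 1) * (κ * M) :=
            Nat.mul_le_mul_left _ hM
        _ ≤ q0 * (4 * (d + 1)) * (κ * M) :=
            Nat.mul_le_mul_right _ (Nat.mul_le_mul_left _ (by omega))
        _ = 4 * κ * q0 * (d + 1) * M := by ring
    constructor
    · refine key _ ?_
      rw [Nat.mul_add]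
      refine Nat.add_le_add_left ?_ _
      exact (massY_below C K X Y).trans (Nat.le_mul_of_pos_left _ hκ0)
    · intro r hr
      refine key _ ?_
      have h2 := massY_reach C K X Y r hr
      rw [← hκ] at h2
      calc κ * C.wires K + massY C K X Y ≤ κ * C.wires K + κ * (r * C.wires K) :=
            Nat.add_le_add_left h2 _
        _ = κ * ((r + 1) * C.wires K) := by ring

end Pool.Agent.Lib_MP_22d2c8_rt
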