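import Pool.Agent.Lib_MP_22d2c8_rt.Defs

/-!
# [RT-2a] Properties of the growth functions `gr E d`

[RT-2a] (two-step induction on `d`, `E ≥ 1`.) `gr E d` is monotone, `x ≤ gr E d x`,
`t * gr E d x ≤ gr E d (t * x)` for `t ≥ 1`. For the step put `g y = E * y * gr E d (2 * E * y ^ 3)`:
`g` is monotone, `y ≤ g y` (for `y = 0` both sides are `0`, for `y ≥ 1` the last factor is at least
`1`), `t * g y ≤ g (t * y)` as `2 * E * y ^ 3 ≤ 2 * E * (t * y) ^ 3`. So
`t * g^[M] x ≤ g^[M] (t * x) ≤ g^[M'] (t * x)` for `M ≤ M'`; `M = 2 * E * x`.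
-/

namespace Pool.Agent.Lib_MP_22d2c8_rt

/-- the three properties -/
private def GrP (G : ℕ → ℕ) : Prop :=
  Monotone G ∧ (∀ x, x ≤ G x) ∧ ∀ t : ℕ, 1 ≤ t → ∀ x, t * G x ≤ G (t * x)

private theorem GrP_iter {g : ℕ → ℕ} (hg : GrP g) (c : ℕ) : GrP (fun x => g^[c * x] x) := by
  obtain ⟨h1, h2, h3⟩ := hg
  have hm : ∀ M, Monotone (g^[M]) := fun M => h1.iterate M
  have hle : ∀ (M : ℕ) (x : ℕ), x ≤ g^[M] x := by
    intro M x
    induction M with
    | zero => exact le_rfl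
    | succ M ih =>
      rw [Function.iterate_succ_apply']
      exact ih.trans (h2 _)
  have hMM : ∀ (M M' x : ℕ), M ≤ M' → g^[M] x ≤ g^[M'] x := by
    intro M M' x h
    obtain ⟨k, rfl⟩ := Nat.exists_eq_add_of_le h
    rw [add_comm, Function.iterate_add_apply]
    exact hle k _
  have ht : ∀ (t : ℕ), 1 ≤ t → ∀ (M x : ℕ), t * g^[M] x ≤ g^[M] (t * x) := by
    intro t ht M x
    induction M with
    | zero => exact le_rfl
    | succ M ih =>
      rw [Function.iterate_succ_apply', Function.iterate_succ_apply']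
      exact (h3 t ht _).trans (h1 ih)
  refine ⟨fun x y hxy => ?_, fun x => hle _ x, fun t h1t x => ?_⟩
  · exact (hm _ hxy).trans (hMM _ _ y (Nat.mul_le_mul_left _ hxy))
  · refine (ht t h1t _ x).trans (hMM _ _ _ (Nat.mul_le_mul_left _ ?_))
    exact Nat.le_mul_of_pos_left _ (by omega)

private theorem GrP_step {E : ℕ} (hE : 1 ≤ E) {G : ℕ → ℕ} (hG : GrP G) :
    GrP (fun y => E * y * G (2 * E * y ^ 3)) := by
  obtain ⟨h1, h2, h3⟩ := hG
  refine ⟨fun x y hxy => ?_, fun y => ?_, fun t ht y => ?_⟩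
  · exact Nat.mul_le_mul (Nat.mul_le_mul_left _ hxy)
      (h1 (Nat.mul_le_mul_left _ (Nat.pow_le_pow_left hxy 3)))
  · rcases Nat.eq_zero_or_pos y with rfl | hy
    · exact Nat.zero_le _
    · have h4 : 1 ≤ G (2 * E * y ^ 3) := by
        refine le_trans ?_ (h2 _)
        have : 1 ≤ y ^ 3 := Nat.one_le_pow _ _ hy
        calc 1 = 1 * 1 * 1 := rfl
          _ ≤ 2 * E * y ^ 3 := Nat.mul_le_mul (Nat.mul_le_mul (by norm_num) hE) this
      calc y = 1 * y * 1 := by ring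
        _ ≤ E * y * G (2 * E * y ^ 3) := Nat.mul_le_mul (Nat.mul_le_mul_right _ hE) h4
  · calc t * (E * y * G (2 * E * y ^ 3)) = E * (t * y) * G (2 * E * y ^ 3) := by ring
      _ ≤ E * (t * y) * G (2 * E * (t * y) ^ 3) := by
        refine Nat.mul_le_mul_left _ (h1 (Nat.mul_le_mul_left _ (Nat.pow_le_pow_left ?_ 3)))
        exact Nat.le_mul_of_pos_left _ (by omega)

private theorem GrP_gr {E : ℕ} (hE : 1 ≤ E) : ∀ d : ℕ, GrP (gr E d)
  | 0 => ⟨fun _ _ h => h, fun _ => le_rfl, fun _ _ _ => le_rfl⟩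
  | 1 => by
    have e : gr E 1 = fun x => x * 2 ^ (E * x) := rfl
    rw [e]
    refine ⟨fun x y hxy => ?_, fun x => ?_, fun t ht x => ?_⟩
    · exact Nat.mul_le_mul hxy (Nat.pow_le_pow_right (by norm_num) (Nat.mul_le_mul_left _ hxy))
    · exact Nat.le_mul_of_pos_right _ (by positivity)
    · show t * (x * 2 ^ (E * x)) ≤ t * x * 2 ^ (E * (t * x))
      rw [← mul_assoc]
      refine Nat.mul_le_mul_left _ (Nat.pow_le_pow_right (by norm_num) (Nat.mul_le_mul_left _ ?_))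
      exact Nat.le_mul_of_pos_left _ (by omega)
  | d + 2 => GrP_iter (GrP_step hE (GrP_gr hE d)) (2 * E)

theorem gr_mono (E d : ℕ) (hE : 1 ≤ E) : Monotone (gr E d) := (GrP_gr hE d).1

theorem le_gr (E d : ℕ) (hE : 1 ≤ E) (x : ℕ) : x ≤ gr E d x := (GrP_gr hE d).2.1 x

theorem mul_gr (E d : ℕ) (hE : 1 ≤ E) (t : ℕ) (ht : 1 ≤ t) (x : ℕ) :
    t * gr E d x ≤ gr E d (t * x) := (GrP_gr hE d).2.2 t ht x

end Pool.Agent.Lib_MP_22d2c8_rt
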