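import Pool.Agent.Lib_MP_22d2c8_rt.Lam
import Pool.Agent.Lib_MP_22d2c8_rt.GrA

/-!
# [RT-2b] `lam d` undoes `gr E d`

[RT-2b] `lam_gr` (two-step induction on `d`, for all `E ≥ 1`, `x ≥ 16`, `N`; the constant `12` does not
depend on `d`): `d = 0`: `sqrt N ≤ x`. `d = 1`: `N ≤ (x * 2 ^ (E x)) ^ 2 ≤ 2 ^ (4 * E * x)`.
Step `d → d + 2`. `g = gs E d`. (i) Let `y ≥ max E 16`, `N ≤ (g y) ^ 2`. As
`g y ≤ gr E d (2 * E * E * y ^ 4)` (`mul_gr` with `t = E * y`), the induction hypothesis gives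
`A1 = lam d N ≤ 12 * E * (2 * E * E * y ^ 4) ≤ 24 * y ^ 7`. With `lam_sq` three more applications give
`A4` with `A4 ^ 8 ≤ 2 ^ 21 * A1 ≤ 2 ^ 21 * 24 * y ^ 7 ≤ y ^ 16`. So `(lam d)^[4] N ≤ y ^ 2`.
(ii) All `g^[j] x`, `1 ≤ j`, are at least `E` and at least `16`, so `N ≤ (g^[M + 1] x) ^ 2` gives
`(lam d)^[4 * M] N ≤ (g x) ^ 2`.
(iii) `N ≤ (g x) ^ 2` gives `A4 ≤ E * x ^ 2` and `A5 ≤ 3 * E * x`. So
`lam (d + 2) N ≤ 4 * (2 * E * x - 1) + 5 + 3 * E * x ≤ 12 * E * x` (`iter_le_one`, `lam_le_of_iter`).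
-/

namespace Pool.Agent.Lib_MP_22d2c8_rt

/-- one step of the growth function `gr E (d + 2)` -/
private def gs (E d y : ℕ) : ℕ := E * y * gr E d (2 * E * y ^ 3)

private theorem gr_two (E d x : ℕ) : gr E (d + 2) x = (gs E d)^[2 * E * x] x := rfl

private theorem le_gs (E d : ℕ) (hE : 1 ≤ E) {y : ℕ} (hy : 1 ≤ y) : E * y ≤ gs E d y := by
  have h1 : 1 ≤ 2 * E * y ^ 3 := Nat.mul_pos (by omega) (by positivity)
  have h2 := le_gr E d hE (2 * E * y ^ 3)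
  exact Nat.le_mul_of_pos_right _ (by omega)

/-- the square of one step is at most the square of the growth function -/
private theorem gs_sq (E d : ℕ) (hE : 1 ≤ E) {y N : ℕ} (hy : 1 ≤ y) (hN : N ≤ gs E d y ^ 2) :
    N ≤ gr E d (2 * E ^ 2 * y ^ 4) ^ 2 := by
  refine hN.trans (Nat.pow_le_pow_left ?_ 2)
  have h1 := mul_gr E d hE (E * y) (Nat.mul_pos hE hy) (2 * E * y ^ 3)
  have h2 : E * y * (2 * E * y ^ 3) = 2 * E ^ 2 * y ^ 4 := by ring
  rw [h2] at h1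
  exact h1

private theorem four_steps (d : ℕ) {A : ℕ} :
    (lam d)^[3] A ^ 8 ≤ 2 ^ 21 * A := by
  have h1 := lam_sq d A
  have h2 := lam_sq d (lam d A)
  have h3 := lam_sq d (lam d (lam d A))
  have e : (lam d)^[3] A = lam d (lam d (lam d A)) := rfl
  rw [e]
  generalize lam d (lam d (lam d A)) = a3 at *
  generalize lam d (lam d A) = a2 at *
  generalize lam d A = a1 at *
  calc a3 ^ 8 = (a3 ^ 2) ^ 4 := by ring
    _ ≤ (8 * a2) ^ 4 := Nat.pow_le_pow_left h3 4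
    _ = 8 ^ 4 * (a2 ^ 2) ^ 2 := by ring
    _ ≤ 8 ^ 4 * (8 * a1) ^ 2 := Nat.mul_le_mul_left _ (Nat.pow_le_pow_left h2 2)
    _ = 8 ^ 6 * a1 ^ 2 := by ring
    _ ≤ 8 ^ 6 * (8 * A) := Nat.mul_le_mul_left _ h1
    _ = 2 ^ 21 * A := by ring

/-- four applications of `lam d` undo one step -/
private theorem step_big (E d : ℕ) (hE : 1 ≤ E)
    (ih : ∀ x N : ℕ, 16 ≤ x → N ≤ gr E d x ^ 2 → lam d N ≤ 12 * E * x) {y N : ℕ} (hy : 16 ≤ y)
    (hyE : E ≤ y) (hN : N ≤ gs E d y ^ 2) : (lam d)^[4] N ≤ y ^ 2 := by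
  have hy4 : 16 ≤ 2 * E ^ 2 * y ^ 4 := by
    have h1 : 1 ≤ E ^ 2 := Nat.one_le_pow _ _ hE
    have h2 : y ≤ y ^ 4 := Nat.le_self_pow (by norm_num) y
    nlinarith
  have h1 := ih _ _ hy4 (gs_sq E d hE (by omega) hN)
  have h2 : (lam d)^[4] N = (lam d)^[3] (lam d N) := rfl
  have h3 := four_steps d (A := lam d N)
  rw [← h2] at h3
  by_contra hc
  have hc' : y ^ 2 + 1 ≤ (lam d)^[4] N := by omega
  have h4 : (y ^ 2) ^ 8 < (lam d)^[4] N ^ 8 := Nat.pow_lt_pow_left (by omega) (by norm_num)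
  have h5 : lam d N ≤ 24 * y ^ 7 := by
    refine h1.trans ?_
    calc 12 * E * (2 * E ^ 2 * y ^ 4) = 24 * E ^ 3 * y ^ 4 := by ring
      _ ≤ 24 * y ^ 3 * y ^ 4 := by
          exact Nat.mul_le_mul_right _ (Nat.mul_le_mul_left _ (Nat.pow_le_pow_left hyE 3))
      _ = 24 * y ^ 7 := by ring
  have h6 : 2 ^ 21 * lam d N ≤ 2 ^ 21 * 24 * y ^ 7 := by
    calc 2 ^ 21 * lam d N ≤ 2 ^ 21 * (24 * y ^ 7) := Nat.mul_le_mul_left _ h5
      _ = _ := by ring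
  have h7 : 2 ^ 21 * 24 * y ^ 7 ≤ (y ^ 2) ^ 8 := by
    have h8 : 2 ^ 21 * 24 ≤ y ^ 9 := by
      calc 2 ^ 21 * 24 ≤ 16 ^ 9 := by norm_num
        _ ≤ y ^ 9 := Nat.pow_le_pow_left hy 9
    calc 2 ^ 21 * 24 * y ^ 7 ≤ y ^ 9 * y ^ 7 := Nat.mul_le_mul_right _ h8
      _ = (y ^ 2) ^ 8 := by ring
  omega

/-- the last step -/
private theorem step_last (E d : ℕ) (hE : 1 ≤ E)
    (ih : ∀ x N : ℕ, 16 ≤ x → N ≤ gr E d x ^ 2 → lam d N ≤ 12 * E * x) {x N : ℕ} (hx : 16 ≤ x)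
    (hN : N ≤ gs E d x ^ 2) : (lam d)^[5] N ≤ 3 * E * x := by
  have hy4 : 16 ≤ 2 * E ^ 2 * x ^ 4 := by
    have h1 : 1 ≤ E ^ 2 := Nat.one_le_pow _ _ hE
    have h2 : x ≤ x ^ 4 := Nat.le_self_pow (by norm_num) x
    nlinarith
  have h1 := ih _ _ hy4 (gs_sq E d hE (by omega) hN)
  have h2 : (lam d)^[4] N = (lam d)^[3] (lam d N) := rfl
  have h3 := four_steps d (A := lam d N)
  rw [← h2] at h3
  have h9 : (lam d)^[4] N ≤ E * x ^ 2 := by
    by_contra hc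
    have h4 : (E * x ^ 2) ^ 8 < (lam d)^[4] N ^ 8 := Nat.pow_lt_pow_left (by omega) (by norm_num)
    have h6 : 2 ^ 21 * lam d N ≤ 2 ^ 21 * 24 * (E ^ 3 * x ^ 4) := by
      calc 2 ^ 21 * lam d N ≤ 2 ^ 21 * (12 * E * (2 * E ^ 2 * x ^ 4)) := Nat.mul_le_mul_left _ h1
        _ = _ := by ring
    have h7 : 2 ^ 21 * 24 * (E ^ 3 * x ^ 4) ≤ (E * x ^ 2) ^ 8 := by
      have h8 : 2 ^ 21 * 24 ≤ x ^ 12 := by
        calc 2 ^ 21 * 24 ≤ 16 ^ 12 := by norm_num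
          _ ≤ x ^ 12 := Nat.pow_le_pow_left hx 12
      have h10 : E ^ 3 ≤ E ^ 8 := Nat.pow_le_pow_right hE (by norm_num)
      calc 2 ^ 21 * 24 * (E ^ 3 * x ^ 4) ≤ x ^ 12 * (E ^ 8 * x ^ 4) :=
            Nat.mul_le_mul h8 (Nat.mul_le_mul_right _ h10)
        _ = (E * x ^ 2) ^ 8 := by ring
    omega
  have h10 : (lam d)^[5] N = lam d ((lam d)^[4] N) := Function.iterate_succ_apply' _ _ _
  have h11 := lam_sq d ((lam d)^[4] N)
  rw [← h10] at h11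
  by_contra hc
  have h12 : (3 * E * x) ^ 2 < (lam d)^[5] N ^ 2 := Nat.pow_lt_pow_left (by omega) (by norm_num)
  have h13 : 8 * (E * x ^ 2) ≤ (3 * E * x) ^ 2 := by
    have : E ≤ E ^ 2 := Nat.le_self_pow (by norm_num) E
    calc 8 * (E * x ^ 2) ≤ 9 * (E ^ 2 * x ^ 2) :=
          Nat.mul_le_mul (by norm_num) (Nat.mul_le_mul_right _ this)
      _ = (3 * E * x) ^ 2 := by ring
  omega

private theorem le_gs_iter (E d : ℕ) (hE : 1 ≤ E) {x : ℕ} (hx : 1 ≤ x) (M : ℕ) :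
    x ≤ (gs E d)^[M] x ∧ (1 ≤ M → E * x ≤ (gs E d)^[M] x) := by
  induction M with
  | zero => exact ⟨le_rfl, fun h => absurd h (by norm_num)⟩
  | succ M ih =>
    have h1 : E * ((gs E d)^[M] x) ≤ (gs E d)^[M + 1] x := by
      rw [Function.iterate_succ_apply']
      exact le_gs E d hE (hx.trans ih.1)
    have h2 : E * x ≤ (gs E d)^[M + 1] x := (Nat.mul_le_mul_left _ ih.1).trans h1
    exact ⟨(Nat.le_mul_of_pos_left _ hE).trans h2, fun _ => h2⟩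

private theorem steps (E d : ℕ) (hE : 1 ≤ E)
    (ih : ∀ x N : ℕ, 16 ≤ x → N ≤ gr E d x ^ 2 → lam d N ≤ 12 * E * x) {x : ℕ} (hx : 16 ≤ x)
    (M : ℕ) : ∀ N, N ≤ (gs E d)^[M + 1] x ^ 2 → (lam d)^[4 * M] N ≤ (gs E d x) ^ 2 := by
  induction M with
  | zero => intro N hN; exact hN
  | succ M ihM =>
    intro N hN
    have hi := le_gs_iter E d hE (x := x) (by omega) (M + 1)
    have h1 : (lam d)^[4] N ≤ (gs E d)^[M + 1] x ^ 2 := by
      refine step_big E d hE ih (hx.trans hi.1) ?_ ?_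
      · exact (Nat.le_mul_of_pos_right _ (by omega)).trans (hi.2 (by omega))
      · rw [Function.iterate_succ_apply'] at hN
        exact hN
    have h2 := ihM _ h1
    rw [← Function.iterate_add_apply] at h2
    exact h2

theorem lam_gr (E : ℕ) (hE : 1 ≤ E) (d : ℕ) {x N : ℕ} (hx : 16 ≤ x) (h : N ≤ gr E d x ^ 2) :
    lam d N ≤ 12 * E * x := by
  induction d using Nat.twoStepInduction generalizing x N with
  | zero =>
    have h1 : N ≤ x ^ 2 := h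
    have h2 : Nat.sqrt N ≤ x := by
      rw [← Nat.sqrt_eq' x]
      exact Nat.sqrt_le_sqrt h1
    have h3 : lam 0 N = Nat.sqrt N := rfl
    rw [h3]
    nlinarith
  | one =>
    have h1 : N ≤ (x * 2 ^ (E * x)) ^ 2 := h
    have h3 : lam 1 N = Nat.log 2 N := rfl
    rw [h3]
    have h4 : x < 2 ^ x := Nat.lt_two_pow_self
    have h5 : N ≤ 2 ^ (4 * E * x) := by
      refine h1.trans ?_
      calc (x * 2 ^ (E * x)) ^ 2 ≤ (2 ^ x * 2 ^ (E * x)) ^ 2 :=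
            Nat.pow_le_pow_left (Nat.mul_le_mul_right _ h4.le) 2
        _ = 2 ^ (2 * x + 2 * (E * x)) := by
            rw [← pow_add, ← pow_mul]; congr 1; ring
        _ ≤ 2 ^ (4 * E * x) := by
            refine Nat.pow_le_pow_right (by norm_num) ?_
            nlinarith
    have h6 : Nat.log 2 N ≤ 4 * E * x := by
      calc Nat.log 2 N ≤ Nat.log 2 (2 ^ (4 * E * x)) := Nat.log_mono_right h5
        _ = 4 * E * x := Nat.log_pow (by norm_num) _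
    calc _ ≤ 4 * E * x := h6
      _ ≤ 12 * E * x := by
        exact Nat.mul_le_mul_right _ (Nat.mul_le_mul_right _ (by norm_num))
  | more d ih _ =>
    rw [gr_two] at h
    obtain ⟨M, hM⟩ : ∃ M, 2 * E * x = M + 1 := ⟨2 * E * x - 1, by
      have : 1 ≤ 2 * E * x := Nat.mul_pos (by omega) (by omega)
      omega⟩
    rw [hM] at h
    have ih' : ∀ x N : ℕ, 16 ≤ x → N ≤ gr E d x ^ 2 → lam d N ≤ 12 * E * x :=
      fun x N h1 h2 => ih h1 h2
    have h1 := steps E d hE ih' hx M N h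
    have h2 := step_last E d hE ih' hx h1
    rw [← Function.iterate_add_apply] at h2
    have h3 : (lam d)^[3 * E * x + (5 + 4 * M)] N ≤ 1 := by
      rw [Function.iterate_add_apply]
      exact iter_le_one d h2
    refine (lam_le_of_iter d h3).trans ?_
    have : 1 ≤ E * x := Nat.mul_pos hE (by omega)
    nlinarith

end Pool.Agent.Lib_MP_22d2c8_rt
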