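import Pool.Agent.Lib_MP_22d2c8_rt.Defs

/-!
# [RT-1] Properties of `lam`

`f = lam d` satisfies (for every `d`, two-step induction `0, 1, d → d + 2`):
(P1) `f m ≤ 1` for `m ≤ 1`, (P2) `f m < m` for `m ≥ 2`, (P3) monotone, (P4) `f m ^ 2 ≤ 8 * m`.
For the step let `f` have these properties, `f* n = sInf {i | f^[i] n ≤ 1}`.
By (P1), (P2): `f^[i] m ≤ 1` for `m ≤ i` (values at least `2` drop by at least `1` in each step,
values at most `1` stay at most `1`), so the set is never empty and `f* m ≤ i` iff `f^[i] m ≤ 1`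
(for `→` use that values at most `1` stay so).
(P1) `f* m = 0` for `m ≤ 1`. (P2) for `m ≥ 2`: `f^[m - 1] m ≤ 1` (one step less, since `2` goes to at
most `1`); by induction on `m`. (P3) `f^[i]` is monotone. (P4) `f* m ≤ max (f m) 1`: if `f m ≤ 1` then
`f* m ≤ 1`; otherwise `f^[1 + (f m - 1)] m = f^[f m - 1] (f m) ≤ 1`, so `f* m ≤ f m`; for `m = 0`,
`f* 0 = 0`.
Cases `0`, `1`: `Nat.sqrt`, `Nat.log 2`; `(Nat.log 2 m) ^ 2 ≤ 8 * m` since `l ^ 2 ≤ 8 * 2 ^ l`.
-/

namespace Pool.Agent.Lib_MP_22d2c8_rt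

private structure LGood (f : ℕ → ℕ) : Prop where
  one : ∀ m, m ≤ 1 → f m ≤ 1
  lt : ∀ m, 2 ≤ m → f m < m
  mono : Monotone f
  sq : ∀ m, f m ^ 2 ≤ 8 * m

private theorem lgood_iter {f : ℕ → ℕ} (h : LGood f) : ∀ i m : ℕ, m ≤ i + 1 → f^[i] m ≤ 1
  | 0, m, hm => by simpa using hm
  | i + 1, m, hm => by
    rw [Function.iterate_succ_apply]
    apply lgood_iter h i
    rcases Nat.lt_or_ge m 2 with h2 | h2
    · have := h.one m (by omega)
      omega
    · have := h.lt m h2
      omega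

private theorem lgood_star_le {f : ℕ → ℕ} (h : LGood f) (n i : ℕ) :
    sInf {i | f^[i] n ≤ 1} ≤ i ↔ f^[i] n ≤ 1 := by
  constructor
  · intro hi
    have hne : {i | f^[i] n ≤ 1}.Nonempty := ⟨n, lgood_iter h n n (by omega)⟩
    have hmem : f^[sInf {i | f^[i] n ≤ 1}] n ≤ 1 := Nat.sInf_mem hne
    obtain ⟨k, hk⟩ := Nat.exists_eq_add_of_le hi
    rw [hk, Nat.add_comm, Function.iterate_add_apply]
    exact lgood_iter h k _ (by omega)
  · intro hi
    exact Nat.sInf_le hi

private theorem lgood_star {f : ℕ → ℕ} (h : LGood f) : LGood (fun n => sInf {i | f^[i] n ≤ 1}) where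
  one m hm := by
    have : sInf {i | f^[i] m ≤ 1} ≤ 0 := (lgood_star_le h m 0).2 (by simpa using hm)
    show sInf {i | f^[i] m ≤ 1} ≤ 1
    omega
  lt m hm := by
    have : sInf {i | f^[i] m ≤ 1} ≤ m - 1 := (lgood_star_le h m (m - 1)).2 (lgood_iter h _ _ (by omega))
    show sInf {i | f^[i] m ≤ 1} < m
    omega
  mono := by
    intro n n' hn
    show sInf {i | f^[i] n ≤ 1} ≤ sInf {i | f^[i] n' ≤ 1}
    rw [lgood_star_le h]
    exact (h.mono.iterate _ hn).trans ((lgood_star_le h n' _).1 le_rfl)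
  sq m := by
    show (sInf {i | f^[i] m ≤ 1}) ^ 2 ≤ 8 * m
    rcases Nat.eq_zero_or_pos m with h0 | h0
    · subst h0
      have : sInf {i | f^[i] 0 ≤ 1} ≤ 0 := (lgood_star_le h 0 0).2 (by simp)
      have h1 : sInf {i | f^[i] 0 ≤ 1} = 0 := by omega
      rw [h1]
      simp
    · rcases Nat.lt_or_ge (f m) 2 with h2 | h2
      · have h3 : sInf {i | f^[i] m ≤ 1} ≤ 1 := (lgood_star_le h m 1).2 (by
          rw [Function.iterate_one]
          omega)
        have h4 : (sInf {i | f^[i] m ≤ 1}) ^ 2 ≤ 1 ^ 2 := Nat.pow_le_pow_left h3 2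
        omega
      · have h3 : sInf {i | f^[i] m ≤ 1} ≤ f m := by
          rw [lgood_star_le h]
          obtain ⟨k, hk⟩ : ∃ k, f m = k + 1 := ⟨f m - 1, by omega⟩
          have h5 : f^[k] (f m) ≤ 1 := lgood_iter h k (f m) (by omega)
          rw [← Function.iterate_succ_apply f k m, Nat.succ_eq_add_one, ← hk] at h5
          exact h5
        exact (Nat.pow_le_pow_left h3 2).trans (h.sq m)

private theorem lgood_sqrt : LGood Nat.sqrt where
  one m hm := (Nat.sqrt_le_self m).trans hm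
  lt m hm := Nat.sqrt_lt_self (by omega)
  mono := fun _ _ h => Nat.sqrt_le_sqrt h
  sq m := by
    have := Nat.sqrt_le' m
    omega

private theorem lgood_log : LGood (Nat.log 2) where
  one m hm := by
    have : Nat.log 2 m ≤ m := Nat.log_le_self 2 m
    omega
  lt m hm := Nat.log_lt_self 2 (by omega)
  mono := fun _ _ h => Nat.log_mono_right h
  sq m := by
    rcases Nat.eq_zero_or_pos m with h0 | h0
    · subst h0
      simp
    · have h1 : 2 ^ Nat.log 2 m ≤ m := Nat.pow_log_le_self 2 (by omega)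
      have h2 : ∀ l : ℕ, l ^ 2 ≤ 8 * 2 ^ l := by
        intro l
        induction l with
        | zero => simp
        | succ l ih =>
          have h3 : l < 2 ^ l := Nat.lt_two_pow_self
          have h4 : (l + 1) ^ 2 = l ^ 2 + 2 * l + 1 := by ring
          have h5 : 2 ^ (l + 1) = 2 * 2 ^ l := by ring
          rw [h4, h5]
          omega
      have := h2 (Nat.log 2 m)
      omega

private theorem lgood_lam : ∀ d : ℕ, LGood (lam d)
  | 0 => lgood_sqrt
  | 1 => lgood_log
  | d + 2 => lgood_star (lgood_lam d)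

theorem lam_le_one (d : ℕ) {m : ℕ} (hm : m ≤ 1) : lam d m ≤ 1 := by
  exact (lgood_lam d).one m hm

theorem lam_zero (d : ℕ) : lam d 0 = 0 := by
  have := (lgood_lam d).sq 0
  simpa using this

theorem lam_lt (d : ℕ) {m : ℕ} (hm : 2 ≤ m) : lam d m < m := by
  exact (lgood_lam d).lt m hm

theorem lam_mono (d : ℕ) : Monotone (lam d) := by
  exact (lgood_lam d).mono

theorem lam_sq (d m : ℕ) : lam d m ^ 2 ≤ 8 * m := by
  exact (lgood_lam d).sq m

theorem iter_le_one (d : ℕ) {m i : ℕ} (hi : m ≤ i) : (lam d)^[i] m ≤ 1 := by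
  exact lgood_iter (lgood_lam d) i m (by omega)

theorem lam_le_of_iter (d : ℕ) {n i : ℕ} (h : (lam d)^[i] n ≤ 1) : lam (d + 2) n ≤ i := by
  exact (lgood_star_le (lgood_lam d) n i).2 h

end Pool.Agent.Lib_MP_22d2c8_rt
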