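import Pool.Agent.Lib_MP_22d2c8_oa.Model

/-!
# Levels of shared gates, total charge

`Y0` = gates which are charged with the number of variables below them once for every wire to a big
gate (they get no level), `Y1` = gates which are charged once with the number of variables below them.
-/

set_option linter.unusedSectionVars false

namespace Pool.Agent.Lib_MP_22d2c8_rt

open Finset Pool.Agent.Lib_MP_22d2c8_sym Pool.Agent.Lib_MP_22d2c8_oa

variable {W U : Type} [DecidableEq W] (C : Circuit (W ⊕ U)) (K : ℕ)

/-- The gate `g` is a source of the gate `g'`, both are big gates outside `E`, and if `g` is shared then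
its level is `i`. -/
def LStep (E : Finset C.Gate) (lev : C.Gate → ℕ) (i : ℕ) (g g' : C.Gate) : Prop :=
  Step C K E g g' ∧ (C.Shared K g → lev g = i)

open Classical in
/-- The shared gates `v` which can be reached from `g` by a path (possibly of length zero) of big gates
outside `E` on which all shared gates have the same level as `v`. -/
noncomputable def lreach (E : Finset C.Gate) (lev : C.Gate → ℕ) (g : C.Gate) : Finset C.Gate :=
  (shg C K E).filter fun v => Relation.ReflTransGen (LStep C K E lev (lev v)) g v

/-- The levels of the shared gates outside `E` are less than `d` and do not fall along paths of big gates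
outside `E`. -/
def IsLevels (E : Finset C.Gate) (lev : C.Gate → ℕ) (d : ℕ) : Prop :=
  (∀ v ∈ shg C K E, lev v < d) ∧
    ∀ u ∈ shg C K E, ∀ v ∈ shg C K E, Relation.ReflTransGen (Step C K E) u v → lev u ≤ lev v

/-- The number of variables below a source if it is a gate in `Y`, otherwise `0`. -/
noncomputable def carry (Y : Finset C.Gate) : (W ⊕ U) ⊕ C.Gate → ℕ
  | Sum.inl _ => 0
  | Sum.inr h => open Classical in if h ∈ Y then (below C h).card else 0

open Classical in
/-- The wires into big gates. -/
noncomputable def bigWires : Finset ((g : C.Gate) × Fin (C.arity g)) :=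
  univ.filter fun e => C.Big K e.1

/-- The total charge: each wire `e` into a big gate `e.1` counts `(1 + c) (1 + r)`, with `c` the number of
variables below its source if this is in `Y0` (otherwise `c = 0`) and `r` the number of shared gates in
`lreach e.1`. -/
noncomputable def charge (X Y0 Y1 : Finset C.Gate) (lev : C.Gate → ℕ) : ℕ :=
  ∑ e ∈ bigWires C K, (1 + carry C Y0 (C.src e.1 e.2)) *
    (1 + (lreach C K (X ∪ Y0 ∪ Y1) lev e.1).card)

end Pool.Agent.Lib_MP_22d2c8_rt
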