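import Pool.Agent.Lib_MP_22d2c8_rt.ConeDefs
import Pool.Agent.Lib_MP_22d2c8_rt.LevDefs

/-!
# [LV-1] Cones within one level

`nodB` = big gates outside `X` which are in `Y1`, or shared and not in `Y0`. `lows` = big gates outside
`X`, `Y1` in `Y0`. `blk i` = the gates at which a cone of a gate of level `i` stops: `lows`, and the gates
of `nodB` which are in `Y1` or have another level.

`path_lreach`: head induction along the path (for all `g`, `g` big; the target `v` fixed). `v` is shared,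
big, outside `E = X ∪ Y0 ∪ Y1`. For a first step `Up g g'`: `g` is big, outside `X` and `blk (lev v)`, so
outside `Y0` and `Y1` (a big gate of `Y1` outside `X` is in `nodB`, a big gate of `Y0` outside `X`, `Y1` is
in `lows`), and if `g` is shared then `g ∈ nodB`, so `lev g = lev v`. The gate `g'` is outside `E` by the
induction hypothesis (strengthen it: every big `g` with a path to `v` is outside `E`, or get it from
`v ∈ lreach .. g'` / cases on the rest of the path).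

`level_sum`: `∑_v ∑_(q ∈ cone v) f q = ∑_q f q * #{v : q ∈ cone v}` (`sum_comm'` or filters over
`bigWires`), and `q ∈ cone v` implies `v ∈ lreach .. q.1` by `path_lreach`.
-/

set_option linter.unusedSectionVars false

namespace Pool.Agent.Lib_MP_22d2c8_rt

open Finset Pool.Agent.Lib_MP_22d2c8_sym Pool.Agent.Lib_MP_22d2c8_oa

variable {W U : Type} [DecidableEq W] (C : Circuit (W ⊕ U)) (K : ℕ) (X Y0 Y1 : Finset C.Gate)

open Classical in
/-- The gates of the net. -/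
noncomputable def nodB : Finset C.Gate :=
  univ.filter fun h => C.Big K h ∧ h ∉ X ∧ (h ∈ Y1 ∨ (h ∉ Y0 ∧ C.Shared K h))

open Classical in
/-- The gates without level. -/
noncomputable def lows : Finset C.Gate :=
  univ.filter fun h => C.Big K h ∧ h ∉ X ∧ h ∉ Y1 ∧ h ∈ Y0

open Classical in
/-- The gates at which a cone of a gate of level `i` stops. -/
noncomputable def blk (lev : C.Gate → ℕ) (i : ℕ) : Finset C.Gate :=
  lows C K X Y0 Y1 ∪ (nodB C K X Y0 Y1).filter fun u => u ∈ Y1 ∨ lev u ≠ i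

private theorem lev_nodB {h : C.Gate} : h ∈ nodB C K X Y0 Y1 ↔
    C.Big K h ∧ h ∉ X ∧ (h ∈ Y1 ∨ (h ∉ Y0 ∧ C.Shared K h)) := by
  unfold nodB
  exact ⟨fun h => ((@Finset.mem_filter _ _ (_) _ _).1 h).2,
    fun h => (@Finset.mem_filter _ _ (_) _ _).2 ⟨mem_univ _, h⟩⟩

private theorem lev_lows {h : C.Gate} : h ∈ lows C K X Y0 Y1 ↔
    C.Big K h ∧ h ∉ X ∧ h ∉ Y1 ∧ h ∈ Y0 := by
  unfold lows
  exact ⟨fun h => ((@Finset.mem_filter _ _ (_) _ _).1 h).2,
    fun h => (@Finset.mem_filter _ _ (_) _ _).2 ⟨mem_univ _, h⟩⟩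

private theorem lev_not_mem {g : C.Gate} (h1 : g ∉ X) (h2 : g ∉ Y0) (h3 : g ∉ Y1) :
    g ∉ X ∪ Y0 ∪ Y1 := by
  rw [mem_union, mem_union]
  rintro ((h | h) | h)
  · exact h1 h
  · exact h2 h
  · exact h3 h

private theorem lev_of_not_blk (lev : C.Gate → ℕ) {i : ℕ} {g : C.Gate} (hb : C.Big K g)
    (hX : g ∉ X) (hg : g ∉ blk C K X Y0 Y1 lev i) :
    g ∉ X ∪ Y0 ∪ Y1 ∧ (C.Shared K g → lev g = i) := by
  classical
  unfold blk at hg
  rw [mem_union, not_or] at hg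
  obtain ⟨h1, h2⟩ := hg
  have h3 : g ∉ Y1 := by
    intro h
    exact h2 (mem_filter.2 ⟨(lev_nodB C K X Y0 Y1).2 ⟨hb, hX, Or.inl h⟩, Or.inl h⟩)
  have h4 : g ∉ Y0 := fun h => h1 ((lev_lows C K X Y0 Y1).2 ⟨hb, hX, h3, h⟩)
  refine ⟨lev_not_mem C X Y0 Y1 hX h4 h3, fun hs => ?_⟩
  by_contra hne
  exact h2 (mem_filter.2 ⟨(lev_nodB C K X Y0 Y1).2 ⟨hb, hX, Or.inr ⟨h4, hs⟩⟩, Or.inr hne⟩)

theorem path_lreach (lev : C.Gate → ℕ) {v : C.Gate} (hv : v ∈ nodB C K X Y0 Y1) (hv1 : v ∉ Y1)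
    {g : C.Gate} (hg : C.Big K g)
    (hr : Relation.ReflTransGen (Up C K X (blk C K X Y0 Y1 lev (lev v))) g v) :
    v ∈ lreach C K (X ∪ Y0 ∪ Y1) lev g ∧ g ∉ X ∪ Y0 ∪ Y1 := by
  classical
  obtain ⟨hb, hX, h1⟩ := (lev_nodB C K X Y0 Y1).1 hv
  obtain ⟨h0, hs⟩ := h1.resolve_left hv1
  have hvE := lev_not_mem C X Y0 Y1 hX h0 hv1
  have key : Relation.ReflTransGen (LStep C K (X ∪ Y0 ∪ Y1) lev (lev v)) g v ∧
      g ∉ X ∪ Y0 ∪ Y1 := by
    clear hg
    induction hr using Relation.ReflTransGen.head_induction_on with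
    | refl => exact ⟨Relation.ReflTransGen.refl, hvE⟩
    | head h2 _ ih =>
      obtain ⟨hb1, hb2, hX1, hN1, hsrc⟩ := h2
      obtain ⟨h3, h4⟩ := lev_of_not_blk C K X Y0 Y1 lev hb1 hX1 hN1
      exact ⟨Relation.ReflTransGen.head ⟨⟨hb1, hb2, h3, ih.2, hsrc⟩, h4⟩ ih.1, h3⟩
  refine ⟨?_, key.2⟩
  unfold lreach shg
  rw [mem_filter, mem_filter]
  exact ⟨⟨mem_univ _, hb, hvE, hs⟩, key.1⟩

theorem level_sum (lev : C.Gate → ℕ) (f : ((g : C.Gate) × Fin (C.arity g)) → ℕ) :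
    ∑ v ∈ (nodB C K X Y0 Y1).filter (fun v => v ∉ Y1),
        ∑ q ∈ cone C K X (blk C K X Y0 Y1 lev (lev v)) v, f q ≤
      ∑ q ∈ bigWires C K, f q * (lreach C K (X ∪ Y0 ∪ Y1) lev q.1).card := by
  classical
  have h1 : ∑ v ∈ (nodB C K X Y0 Y1).filter (fun v => v ∉ Y1),
        ∑ q ∈ cone C K X (blk C K X Y0 Y1 lev (lev v)) v, f q =
      ∑ q ∈ bigWires C K, ∑ v ∈ ((nodB C K X Y0 Y1).filter (fun v => v ∉ Y1)).filter
        (fun v => q ∈ cone C K X (blk C K X Y0 Y1 lev (lev v)) v), f q := by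
    refine Finset.sum_comm' fun v q => ?_
    constructor
    · rintro ⟨hv, hq⟩
      refine ⟨mem_filter.2 ⟨hv, hq⟩, ?_⟩
      unfold cone at hq
      unfold bigWires
      exact mem_filter.2 ⟨mem_univ _, (mem_filter.1 hq).2.1⟩
    · rintro ⟨hv, _⟩
      exact mem_filter.1 hv
  rw [h1]
  refine sum_le_sum fun q _ => ?_
  rw [sum_const, smul_eq_mul, mul_comm]
  refine Nat.mul_le_mul_left _ (card_le_card fun v hv => ?_)
  obtain ⟨hv2, hq⟩ := mem_filter.1 hv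
  obtain ⟨hv3, hv4⟩ := mem_filter.1 hv2
  unfold cone at hq
  obtain ⟨_, hb, hr⟩ := mem_filter.1 hq
  exact (path_lreach C K X Y0 Y1 lev hv3 hv4 hb hr).1

end Pool.Agent.Lib_MP_22d2c8_rt
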