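import Pool.Agent.Lib_MP_22d2c8_rt.LevDefs
import Pool.Agent.Lib_MP_22d2c8_oa.Defs
import Pool.Agent.Lib_MP_22d2c8_sym.Lev

/-!
# [LV-3] Levels from the sharing depth

`Circuit.exists_lev C K d E h` gives `l` with `l a ≤ l g`, and `<` if `a` is shared, for big `g` and big
sources `a ∉ E` of `g`, and `l g < d` for shared big `g ∉ E`. So `IsLevels` (induction along the path).
`lreach` has at most one element: let `v`, `v'` be in it. Along a path of `LStep` from `g` to `v` no gate
before `v` is shared: a shared gate `u ≠ v`, followed by `u'` on the path, has `l u < l u' ≤ l v`, but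
`l u = l v` by `LStep`. So on both paths each gate before the end is not shared, so it has only one
successor (two wires to different big gates would make it shared, see `up_unique` in `ConeA.lean`), and
the ends are shared; head induction as in `cone_disjoint` in `ConeA.lean`.
`charge_depth`: `1 + r ≤ 2`, and `∑ e ∈ bigWires, carry (src e) = ∑ h ∈ Y0, fo h * (below h).card`
(`≤` is enough: sum over the sources).
-/

set_option linter.unusedSectionVars false

namespace Pool.Agent.Lib_MP_22d2c8_rt

open Finset Pool.Agent.Lib_MP_22d2c8_sym Pool.Agent.Lib_MP_22d2c8_oa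

variable {W U : Type} [DecidableEq W] (C : Circuit (W ⊕ U)) (K : ℕ)

private theorem lev_step {C : Circuit (W ⊕ U)} {K d : ℕ} {E : Finset C.Gate} {lev : C.Gate → ℕ}
    (hlev : C.IsLev K E d lev) {g g' : C.Gate} (h : Step C K E g g') :
    lev g ≤ lev g' ∧ (C.Shared K g → lev g < lev g') := by
  obtain ⟨hb, hb', hE, -, s, hs⟩ := h
  exact hlev.1 g' s g hb' hb hE hs

private theorem lev_path {C : Circuit (W ⊕ U)} {K d : ℕ} {E : Finset C.Gate} {lev : C.Gate → ℕ}
    (hlev : C.IsLev K E d lev) {g g' : C.Gate} (h : Relation.ReflTransGen (Step C K E) g g') :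
    lev g ≤ lev g' := by
  induction h with
  | refl => exact le_rfl
  | tail _ h2 ih => exact ih.trans (lev_step hlev h2).1

private theorem lstep_to_step {C : Circuit (W ⊕ U)} {K i : ℕ} {E : Finset C.Gate} {lev : C.Gate → ℕ}
    {c v : C.Gate} (h : Relation.ReflTransGen (LStep C K E lev i) c v) :
    Relation.ReflTransGen (Step C K E) c v := by
  induction h with
  | refl => exact Relation.ReflTransGen.refl
  | tail _ hb ih => exact ih.tail hb.1

private theorem not_shared {C : Circuit (W ⊕ U)} {K d : ℕ} {E : Finset C.Gate} {lev : C.Gate → ℕ}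
    (hlev : C.IsLev K E d lev) {g c v : C.Gate} (h1 : LStep C K E lev (lev v) g c)
    (h2 : Relation.ReflTransGen (LStep C K E lev (lev v)) c v) : ¬ C.Shared K g := by
  intro hs
  have h3 := (lev_step hlev h1.1).2 hs
  have h4 := h1.2 hs
  have h5 : Relation.ReflTransGen (Step C K E) c v := lstep_to_step h2
  have h6 := lev_path hlev h5
  omega

private theorem step_unique {C : Circuit (W ⊕ U)} {K : ℕ} {E : Finset C.Gate} {g g1 g2 : C.Gate}
    (hg : ¬ C.Shared K g) (h1 : Step C K E g g1) (h2 : Step C K E g g2) : g1 = g2 := by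
  by_contra hne
  obtain ⟨-, hb1, -, -, s, hs⟩ := h1
  obtain ⟨-, hb2, -, -, s', hs'⟩ := h2
  apply hg
  have hp : (⟨g1, s⟩ : (g : C.Gate) × Fin (C.arity g)) ≠ ⟨g2, s'⟩ := by
    intro h
    exact hne (congrArg Sigma.fst h)
  refine Finset.one_lt_card.2 ⟨⟨g1, s⟩, ?_, ⟨g2, s'⟩, ?_, hp⟩
  · exact (@Finset.mem_filter _ _ (_) _ _).2 ⟨mem_univ _, hb1, hs⟩
  · exact (@Finset.mem_filter _ _ (_) _ _).2 ⟨mem_univ _, hb2, hs'⟩

theorem depth_levels (E : Finset C.Gate) (d : ℕ) (h : C.SharingDepthLE K E d) :
    ∃ lev : C.Gate → ℕ, IsLevels C K E lev d ∧ ∀ g, (lreach C K E lev g).card ≤ 1 := by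
  classical
  obtain ⟨lev, hlev⟩ := Circuit.exists_lev C K d E h
  refine ⟨lev, ⟨?_, ?_⟩, ?_⟩
  · intro v hv
    unfold shg at hv
    rw [mem_filter] at hv
    exact hlev.2 v hv.2.1 hv.2.2.1 hv.2.2.2
  · intro u _ v _ huv
    exact lev_path hlev huv
  · intro g
    have key : ∀ v v' : C.Gate, C.Shared K v → C.Shared K v' → ∀ g,
        Relation.ReflTransGen (LStep C K E lev (lev v)) g v →
        Relation.ReflTransGen (LStep C K E lev (lev v')) g v' → v = v' := by
      intro v v' hv hv' g hr
      induction hr using Relation.ReflTransGen.head_induction_on with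
      | refl =>
        intro hr'
        rcases Relation.ReflTransGen.cases_head hr' with heq | ⟨c, hc, hc'⟩
        · exact heq
        · exact absurd hv (not_shared hlev hc hc')
      | head h1 h2 ih =>
        intro hr'
        rcases Relation.ReflTransGen.cases_head hr' with heq | ⟨c', hc', hr''⟩
        · subst heq
          exact absurd hv' (not_shared hlev h1 h2)
        · have h3 := step_unique (not_shared hlev h1 h2) h1.1 hc'.1
          subst h3
          exact ih hr''
    refine Finset.card_le_one.2 fun v hv v' hv' => ?_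
    unfold lreach at hv hv'
    rw [mem_filter] at hv hv'
    have e1 := hv.1
    have e2 := hv'.1
    unfold shg at e1 e2
    rw [mem_filter] at e1 e2
    exact key v v' e1.2.2.2 e2.2.2.2 g hv.2 hv'.2

theorem charge_reach (X Y0 Y1 : Finset C.Gate) (lev : C.Gate → ℕ) (r : ℕ)
    (h : ∀ g, (lreach C K (X ∪ Y0 ∪ Y1) lev g).card ≤ r) :
    charge C K X Y0 Y1 lev ≤ (r + 1) * (C.wires K + ∑ h ∈ Y0, fo C K h * (below C h).card) := by
  classical
  have h1 : charge C K X Y0 Y1 lev ≤
      ∑ e ∈ bigWires C K, (1 + carry C Y0 (C.src e.1 e.2)) * (r + 1) := by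
    unfold charge
    refine sum_le_sum fun e _ => Nat.mul_le_mul_left _ ?_
    have := h e.1
    omega
  refine h1.trans ?_
  rw [← sum_mul, mul_comm, sum_add_distrib]
  apply Nat.mul_le_mul_left
  apply Nat.add_le_add
  · rw [sum_const, smul_eq_mul, mul_one]
    have e1 : bigWires C K = (univ.filter fun g => C.Big K g).sigma fun g =>
        (univ : Finset (Fin (C.arity g))) := by
      ext e
      unfold bigWires
      rw [mem_filter, mem_sigma, mem_filter]
      simp
    rw [e1, card_sigma]
    unfold Circuit.wires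
    simp only [card_univ, Fintype.card_fin]
    exact le_rfl
  · have e1 : ∀ σ : (W ⊕ U) ⊕ C.Gate, carry C Y0 σ =
        ∑ h ∈ Y0, if σ = Sum.inr h then (below C h).card else 0 := by
      intro σ
      rcases σ with σ | g
      · unfold carry
        simp
      · unfold carry
        simp only [Sum.inr.injEq]
        rw [sum_ite_eq]
    simp only [e1]
    rw [sum_comm]
    refine sum_le_sum fun h _ => ?_
    rw [← sum_filter, sum_const, smul_eq_mul]
    apply Nat.mul_le_mul_right
    unfold fo bigWires
    rw [filter_filter]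

theorem charge_depth (X Y0 Y1 : Finset C.Gate) (lev : C.Gate → ℕ)
    (h : ∀ g, (lreach C K (X ∪ Y0 ∪ Y1) lev g).card ≤ 1) :
    charge C K X Y0 Y1 lev ≤ 2 * (C.wires K + ∑ h ∈ Y0, fo C K h * (below C h).card) :=
  charge_reach C K X Y0 Y1 lev 1 h

end Pool.Agent.Lib_MP_22d2c8_rt
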