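import Pool.Agent.Lib_MP_22d2c8_rt.LevCone
import Pool.Agent.Lib_MP_22d2c8_rt.Cone
import Pool.Agent.Lib_MP_22d2c8_rt.NetOf

/-!
# [LV-2] The net of a circuit with levels

Compare `net_aux`, `circuit_net` in `NetOf.lean` (copy the private lemmas `mem_bigs` etc.).
Write `B i = blk C K X Y0 Y1 lev i`, `N = nodB C K X Y0 Y1`, `L = lows C K X Y0 Y1`,
`E = X ∪ Y0 ∪ Y1`. Levels `lev' h = if h ∈ Y1 then 1 else lev h + 2`,
`a v = if v ∈ Y1 then (bel C K X v).card
  else ∑ q ∈ cone C K X (B (lev v)) v, max K 1 * (1 + carry C Y0 (C.src q.1 q.2))`,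
`m u v = if v ∈ Y1 then 0 else if u ∈ B (lev v) then mm C K X (B (lev v)) u v else 0`.
* `lev_lt`, `lev_le`: `lev v < d` for `v ∈ N`, `v ∉ Y1` (then `v ∈ shg C K E`).
* `m_lev`: `m u v ≠ 0` (`u, v ∈ N`): `v ∉ Y1`, `u ∈ B (lev v)`, some `q ∈ cone` with source `u`. If
  `u ∈ Y1`: `1 < lev v + 2`. Otherwise `u ∉ L` (as `u ∈ N`: `u ∉ Y1` gives `u ∉ Y0`), so
  `lev u ≠ lev v`, and `lev u ≤ lev v` by `IsLevels`: the path `u → q.1 → ... → v` of `Step C K E`
  (`path_lreach` gives `q.1 ∉ E` and, with `lreach`, a path of `LStep`, so of `Step`, from `q.1` to `v`).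
* `b_le`: for `v ∈ Y1`: `bel_anti`. For `v ∉ Y1`: `cone_bel_card` with `N := B (lev v)`, `Z := X' ∪ Z`
  (`X' = bigs C K X`): `bel_Z v ≤ ma + ∑ u ∈ B \ (X' ∪ Z), mm u v * bel_Z u`. Split `B = L ∪ (B ∩ N)`
  (disjoint): for `u ∈ L`: `bel_Z u ≤ below u` (`bel_below`), `= carry` of the source; so
  `ma + ∑ u ∈ L, mm u v * (below C u).card ≤ ∑ q ∈ cone, (max K 1 + carry (src q)) ≤ a v`
  (`lset_card`; `mm u v` = number of `q` in the cone with source `u`; the sum over `u ∈ L` of
  `mm u v * c u` is at most the sum over `q ∈ cone` of `carry (src q)`).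
  For `u ∈ B ∩ N`, `u ∉ X' ∪ Z`: a term of `∑ u ∈ N \ Z, m u v * b Z u`.
* `sum_a`: `level_sum` with `f q = max K 1 * (1 + carry ..)`, plus
  `massY` for the gates in `Y1`. Total `≤ max K 1 * (charge + massY)` as
  `(1 + c) * r ≤ (1 + c) * (1 + r)`.
* `sum_φ`: `sum_fo_all`, `C.wires K = (bigWires C K).card ≤ charge`.
* `sum_m`: `∑_u ∑_v m u v ≤ ∑_v (cone v).card ≤ ∑_q (lreach q.1).card ≤ charge` (`level_sum` with
  `f = 1`; for fixed `v`, the sets of wires with source `u` are disjoint, `coneC_fib` in `ConeC.lean`).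
-/

set_option linter.unusedSectionVars false

namespace Pool.Agent.Lib_MP_22d2c8_rt

open Finset Pool.Agent.Lib_MP_22d2c8_sym Pool.Agent.Lib_MP_22d2c8_oa

variable {W U : Type} [DecidableEq W] (C : Circuit (W ⊕ U)) (K : ℕ) (X Y0 Y1 : Finset C.Gate)

private theorem mem_nodB_lv {h : C.Gate} :
    h ∈ nodB C K X Y0 Y1 ↔ C.Big K h ∧ h ∉ X ∧ (h ∈ Y1 ∨ (h ∉ Y0 ∧ C.Shared K h)) := by
  classical
  unfold nodB
  rw [mem_filter]
  exact ⟨fun h => h.2, fun h => ⟨mem_univ _, h⟩⟩

private theorem mem_lows_lv {h : C.Gate} :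
    h ∈ lows C K X Y0 Y1 ↔ C.Big K h ∧ h ∉ X ∧ h ∉ Y1 ∧ h ∈ Y0 := by
  classical
  unfold lows
  rw [mem_filter]
  exact ⟨fun h => h.2, fun h => ⟨mem_univ _, h⟩⟩

private theorem mem_blk_lv {lev : C.Gate → ℕ} {i : ℕ} {h : C.Gate} :
    h ∈ blk C K X Y0 Y1 lev i ↔ h ∈ lows C K X Y0 Y1 ∨
      (h ∈ nodB C K X Y0 Y1 ∧ (h ∈ Y1 ∨ lev h ≠ i)) := by
  classical
  unfold blk
  rw [mem_union, mem_filter]

private theorem mem_bigs_lv {h : C.Gate} : h ∈ bigs C K X ↔ h ∈ X ∧ C.Big K h := by
  classical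
  unfold bigs
  rw [mem_filter]

private theorem mem_bigWires_lv {q : (g : C.Gate) × Fin (C.arity g)} :
    q ∈ bigWires C K ↔ C.Big K q.1 := by
  classical
  unfold bigWires
  rw [mem_filter]
  exact ⟨fun h => h.2, fun h => ⟨mem_univ _, h⟩⟩

private theorem mem_shg_lv {E : Finset C.Gate} {h : C.Gate} :
    h ∈ shg C K E ↔ C.Big K h ∧ h ∉ E ∧ C.Shared K h := by
  classical
  unfold shg
  rw [mem_filter]
  exact ⟨fun h => h.2, fun h => ⟨mem_univ _, h⟩⟩

private theorem shg_of_nodB_lv {v : C.Gate} (hv : v ∈ nodB C K X Y0 Y1) (hv1 : v ∉ Y1) :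
    v ∈ shg C K (X ∪ Y0 ∪ Y1) := by
  obtain ⟨hb, hX, h⟩ := (mem_nodB_lv C K X Y0 Y1).1 hv
  obtain ⟨h0, hs⟩ := h.resolve_left hv1
  refine (mem_shg_lv C K).2 ⟨hb, ?_, hs⟩
  rw [mem_union, mem_union]
  rintro ((h | h) | h)
  · exact hX h
  · exact h0 h
  · exact hv1 h

private theorem wires_lv : (bigWires C K).card = C.wires K := by
  classical
  have h1 : bigWires C K =
      (univ.filter fun g => C.Big K g).sigma fun g => (univ : Finset (Fin (C.arity g))) := by
    ext q
    rw [mem_bigWires_lv, mem_sigma, mem_filter]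
    exact ⟨fun h => ⟨⟨mem_univ _, h⟩, mem_univ _⟩, fun h => h.1.2⟩
  rw [h1, card_sigma, Circuit.wires]
  simp only [card_univ, Fintype.card_fin]

/-- the wires from the gates without level carry the numbers of the variables below them -/
private theorem carry_sum_lv (D : Finset ((g : C.Gate) × Fin (C.arity g)))
    [∀ u, DecidablePred fun q : (g : C.Gate) × Fin (C.arity g) => C.src q.1 q.2 = Sum.inr u]
    (T : Finset C.Gate) :
    ∑ u ∈ lows C K X Y0 Y1, (D.filter fun q => C.src q.1 q.2 = Sum.inr u).card *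
      (bel C K T u).card ≤ ∑ q ∈ D, carry C Y0 (C.src q.1 q.2) := by
  classical
  have h1 : ∀ u ∈ lows C K X Y0 Y1, (D.filter fun q => C.src q.1 q.2 = Sum.inr u).card *
      (bel C K T u).card = ∑ q ∈ D, if C.src q.1 q.2 = Sum.inr u then (bel C K T u).card else 0 := by
    intro u _
    rw [← sum_filter, sum_const, smul_eq_mul]
  rw [sum_congr rfl h1, sum_comm]
  refine sum_le_sum fun q _ => ?_
  by_cases hex : ∃ h, C.src q.1 q.2 = Sum.inr h
  · obtain ⟨h, hh⟩ := hex
    have h2 : ∀ u ∈ lows C K X Y0 Y1,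
        (if C.src q.1 q.2 = Sum.inr u then (bel C K T u).card else 0) =
        if u = h then (bel C K T u).card else 0 := by
      intro u _
      by_cases hu : u = h
      · rw [if_pos (by rw [hh, hu]), if_pos hu]
      · rw [if_neg (by rw [hh]; exact fun h' => hu (Sum.inr_injective h').symm), if_neg hu]
    rw [sum_congr rfl h2, hh]
    by_cases hL : h ∈ lows C K X Y0 Y1
    · rw [sum_ite_eq_of_mem' _ _ _ hL]
      have h0 : h ∈ Y0 := ((mem_lows_lv C K X Y0 Y1).1 hL).2.2.2
      unfold carry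
      simp only
      rw [if_pos h0]
      exact card_le_card (bel_below h)
    · refine le_of_eq_of_le (sum_eq_zero fun u hu => ?_) (Nat.zero_le _)
      rw [if_neg]
      rintro rfl
      exact hL hu
  · refine le_of_eq_of_le (sum_eq_zero fun u _ => ?_) (Nat.zero_le _)
    rw [if_neg]
    exact fun h => hex ⟨u, h⟩

private theorem wires_le_charge_lv (lev : C.Gate → ℕ) : C.wires K ≤ charge C K X Y0 Y1 lev := by
  rw [← wires_lv, card_eq_sum_ones]
  unfold charge
  refine sum_le_sum fun q _ => ?_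
  nlinarith [Nat.zero_le (carry C Y0 (C.src q.1 q.2)),
    Nat.zero_le (lreach C K (X ∪ Y0 ∪ Y1) lev q.1).card]

private theorem net_lv (lev : C.Gate → ℕ) (d s D x ν : ℕ) (hl : IsLevels C K (X ∪ Y0 ∪ Y1) lev d)
    (hx : max K 1 * (charge C K X Y0 Y1 lev + massY C K X Y1) ≤ x * ν)
    (h1 : ∀ h ∈ nodB C K X Y0 Y1, s < open Classical in if h ∈ Y1 then 1 else lev h + 2)
    (h2 : ∀ h ∈ nodB C K X Y0 Y1, (open Classical in if h ∈ Y1 then 1 else lev h + 2) ≤ s + D) :
    IsNet (nodB C K X Y0 Y1) s D x ν (fun h => open Classical in if h ∈ Y1 then 1 else lev h + 2)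
      (fun v => open Classical in if v ∈ Y1 then (bel C K X v).card else
        ∑ q ∈ cone C K X (blk C K X Y0 Y1 lev (lev v)) v,
          max K 1 * (1 + carry C Y0 (C.src q.1 q.2))) (fo C K)
      (fun u v => open Classical in if v ∈ Y1 then 0 else
        if u ∈ blk C K X Y0 Y1 lev (lev v) then
          mm C K X (blk C K X Y0 Y1 lev (lev v)) u v else 0) (bz C K X) := by
  classical
  have hK : 1 ≤ max K 1 := le_max_right _ _
  have hch : charge C K X Y0 Y1 lev ≤ x * ν := by
    refine le_trans ?_ hx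
    calc charge C K X Y0 Y1 lev ≤ charge C K X Y0 Y1 lev + massY C K X Y1 :=
          Nat.le_add_right _ _
      _ = 1 * (charge C K X Y0 Y1 lev + massY C K X Y1) := (one_mul _).symm
      _ ≤ _ := Nat.mul_le_mul_right _ hK
  refine ⟨h1, h2, ?_, ?_, ?_, ?_, ?_⟩
  · intro u hu v hv hm
    have hm' : (if v ∈ Y1 then 0 else if u ∈ blk C K X Y0 Y1 lev (lev v) then
      mm C K X (blk C K X Y0 Y1 lev (lev v)) u v else 0) ≠ 0 := hm
    show (if u ∈ Y1 then 1 else lev u + 2) < (if v ∈ Y1 then 1 else lev v + 2)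
    by_cases hv1 : v ∈ Y1
    · rw [if_pos hv1] at hm'
      exact absurd rfl hm'
    · rw [if_neg hv1] at hm' ⊢
      by_cases hu1 : u ∈ Y1
      · rw [if_pos hu1]
        omega
      · rw [if_neg hu1]
        by_cases huB : u ∈ blk C K X Y0 Y1 lev (lev v)
        · rw [if_pos huB] at hm'
          have hne : lev u ≠ lev v := by
            rcases (mem_blk_lv C K X Y0 Y1).1 huB with h3 | ⟨-, h3⟩
            · exfalso
              have h4 := ((mem_lows_lv C K X Y0 Y1).1 h3).2.2.2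
              have h5 := ((mem_nodB_lv C K X Y0 Y1).1 hu).2.2.resolve_left hu1
              exact h5.1 h4
            · exact h3.resolve_left hu1
          unfold mm at hm'
          obtain ⟨q, hq⟩ := Finset.card_pos.1 (Nat.pos_of_ne_zero hm')
          obtain ⟨hq1, hq2⟩ := mem_filter.1 hq
          unfold cone at hq1
          obtain ⟨-, hqb, hqr⟩ := mem_filter.1 hq1
          obtain ⟨h3, h4⟩ := path_lreach C K X Y0 Y1 lev hv hv1 hqb hqr
          have husg := shg_of_nodB_lv C K X Y0 Y1 hu hu1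
          have hvsg := shg_of_nodB_lv C K X Y0 Y1 hv hv1
          obtain ⟨hub, huE, -⟩ := (mem_shg_lv C K).1 husg
          unfold lreach at h3
          obtain ⟨-, h5⟩ := mem_filter.1 h3
          have h6 : Relation.ReflTransGen (Step C K (X ∪ Y0 ∪ Y1)) q.1 v :=
            Relation.ReflTransGen.mono (r := LStep C K (X ∪ Y0 ∪ Y1) lev (lev v))
              (fun a b hab => hab.1) _ _ h5
          have h7 : Relation.ReflTransGen (Step C K (X ∪ Y0 ∪ Y1)) u v :=
            Relation.ReflTransGen.head ⟨hub, hqb, huE, h4, q.2, hq2⟩ h6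
          have h8 := hl.2 u husg v hvsg h7
          omega
        · rw [if_neg huB] at hm'
          exact absurd rfl hm'
  · intro Z hZ v hv
    have hXZ : ∀ h ∈ X, C.Big K h → h ∈ bigs C K X ∪ Z := fun h hX hb =>
      mem_union_left _ ((mem_bigs_lv C K X).2 ⟨hX, hb⟩)
    change bz C K X Z v ≤ (if v ∈ Y1 then (bel C K X v).card else
        ∑ q ∈ cone C K X (blk C K X Y0 Y1 lev (lev v)) v,
          max K 1 * (1 + carry C Y0 (C.src q.1 q.2))) +
      ∑ u ∈ nodB C K X Y0 Y1 \ Z, (if v ∈ Y1 then 0 else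
        if u ∈ blk C K X Y0 Y1 lev (lev v) then
          mm C K X (blk C K X Y0 Y1 lev (lev v)) u v else 0) * bz C K X Z u
    by_cases hv1 : v ∈ Y1
    · rw [if_pos hv1]
      exact (card_le_card (bel_anti hXZ v)).trans (Nat.le_add_right _ _)
    · rw [if_neg hv1]
      have hb := ((mem_nodB_lv C K X Y0 Y1).1 hv).1
      simp only [if_neg hv1]
      obtain ⟨B, hB⟩ : ∃ B, B = blk C K X Y0 Y1 lev (lev v) := ⟨_, rfl⟩
      rw [← hB]
      refine (cone_bel_card (N := B) hXZ hb).trans ?_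
      have hsub : B \ (bigs C K X ∪ Z) ⊆ lows C K X Y0 Y1 ∪
          (nodB C K X Y0 Y1 \ Z).filter (fun u => u ∈ B) := by
        intro u hu
        rw [mem_sdiff] at hu
        rw [mem_union, mem_filter, mem_sdiff]
        have hu1 := hu.1
        rw [hB, mem_blk_lv] at hu1
        rcases hu1 with h3 | ⟨h3, -⟩
        · exact Or.inl h3
        · exact Or.inr ⟨⟨h3, fun h => hu.2 (mem_union_right _ h)⟩, hu.1⟩
      have h3 : ∑ u ∈ B \ (bigs C K X ∪ Z), mm C K X B u v * (bel C K (bigs C K X ∪ Z) u).card ≤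
          ∑ u ∈ lows C K X Y0 Y1, mm C K X B u v * (bel C K (bigs C K X ∪ Z) u).card +
          ∑ u ∈ (nodB C K X Y0 Y1 \ Z).filter (fun u => u ∈ B),
            mm C K X B u v * (bel C K (bigs C K X ∪ Z) u).card := by
        refine (Finset.sum_le_sum_of_subset hsub).trans ?_
        rw [← Finset.sum_union_inter]
        exact Nat.le_add_right _ _
      have h4 : ∑ u ∈ (nodB C K X Y0 Y1 \ Z).filter (fun u => u ∈ B),
            mm C K X B u v * (bel C K (bigs C K X ∪ Z) u).card =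
          ∑ u ∈ nodB C K X Y0 Y1 \ Z, (if u ∈ B then mm C K X B u v else 0) * bz C K X Z u := by
        rw [sum_filter]
        refine sum_congr rfl fun u _ => ?_
        rw [ite_mul, zero_mul]
        rfl
      have h5 : ∑ u ∈ lows C K X Y0 Y1, mm C K X B u v * (bel C K (bigs C K X ∪ Z) u).card ≤
          ∑ q ∈ cone C K X B v, carry C Y0 (C.src q.1 q.2) := by
        have h6 := carry_sum_lv C K X Y0 Y1 (cone C K X B v) (bigs C K X ∪ Z)
        refine le_trans (le_of_eq ?_) h6
        refine sum_congr rfl fun u _ => ?_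
        unfold mm
        congr 2
      have h7 : ma C K X B v ≤ ∑ q ∈ cone C K X B v, max K 1 := by
        unfold ma
        exact sum_le_sum fun q _ => lset_card _
      have h8 : ∑ q ∈ cone C K X B v, max K 1 + ∑ q ∈ cone C K X B v, carry C Y0 (C.src q.1 q.2) ≤
          ∑ q ∈ cone C K X B v, max K 1 * (1 + carry C Y0 (C.src q.1 q.2)) := by
        rw [← sum_add_distrib]
        refine sum_le_sum fun q _ => ?_
        rw [mul_add, mul_one]
        refine Nat.add_le_add_left ?_ _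
        exact Nat.le_mul_of_pos_left _ hK
      rw [h4] at h3
      omega
  · have h3 : ∑ h ∈ nodB C K X Y0 Y1, (if h ∈ Y1 then (bel C K X h).card else
        ∑ q ∈ cone C K X (blk C K X Y0 Y1 lev (lev h)) h,
          max K 1 * (1 + carry C Y0 (C.src q.1 q.2))) =
        ∑ h ∈ (nodB C K X Y0 Y1).filter (fun h => h ∈ Y1), (bel C K X h).card +
        ∑ h ∈ (nodB C K X Y0 Y1).filter (fun h => h ∉ Y1),
          ∑ q ∈ cone C K X (blk C K X Y0 Y1 lev (lev h)) h,
            max K 1 * (1 + carry C Y0 (C.src q.1 q.2)) := sum_ite _ _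
    change ∑ h ∈ nodB C K X Y0 Y1, (if h ∈ Y1 then (bel C K X h).card else
        ∑ q ∈ cone C K X (blk C K X Y0 Y1 lev (lev h)) h,
          max K 1 * (1 + carry C Y0 (C.src q.1 q.2))) ≤ x * ν
    rw [h3]
    have h4 : ∑ h ∈ (nodB C K X Y0 Y1).filter (fun h => h ∈ Y1), (bel C K X h).card ≤
        max K 1 * massY C K X Y1 := by
      refine le_trans ?_ (Nat.le_mul_of_pos_left _ hK)
      unfold massY
      refine Finset.sum_le_sum_of_subset ?_
      intro h hh
      obtain ⟨hh1, hh2⟩ := mem_filter.1 hh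
      unfold nodB at hh1
      obtain ⟨-, hb, hX, -⟩ := mem_filter.1 hh1
      exact (@mem_filter _ _ (_) _ _).2 ⟨hh2, hb, hX⟩
    have h5 := level_sum C K X Y0 Y1 lev (fun q => max K 1 * (1 + carry C Y0 (C.src q.1 q.2)))
    have h5' : ∑ h ∈ (nodB C K X Y0 Y1).filter (fun h => h ∉ Y1),
          ∑ q ∈ cone C K X (blk C K X Y0 Y1 lev (lev h)) h,
            max K 1 * (1 + carry C Y0 (C.src q.1 q.2)) ≤
        ∑ q ∈ bigWires C K, max K 1 * (1 + carry C Y0 (C.src q.1 q.2)) *
          (lreach C K (X ∪ Y0 ∪ Y1) lev q.1).card := by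
      refine le_trans (le_of_eq ?_) h5
      refine sum_congr ?_ fun _ _ => rfl
      congr
    have h6 : ∑ q ∈ bigWires C K, max K 1 * (1 + carry C Y0 (C.src q.1 q.2)) *
          (lreach C K (X ∪ Y0 ∪ Y1) lev q.1).card ≤ max K 1 * charge C K X Y0 Y1 lev := by
      unfold charge
      rw [mul_sum]
      refine sum_le_sum fun q _ => ?_
      rw [mul_assoc]
      refine Nat.mul_le_mul_left _ (Nat.mul_le_mul_left _ ?_)
      omega
    rw [mul_add] at hx
    omega
  · exact ((sum_fo_all _).trans (wires_le_charge_lv C K X Y0 Y1 lev)).trans hch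
  · change ∑ u ∈ nodB C K X Y0 Y1, ∑ v ∈ nodB C K X Y0 Y1, (if v ∈ Y1 then 0 else
        if u ∈ blk C K X Y0 Y1 lev (lev v) then
          mm C K X (blk C K X Y0 Y1 lev (lev v)) u v else 0) ≤ x * ν
    rw [sum_comm]
    have h3 : ∑ v ∈ nodB C K X Y0 Y1, ∑ u ∈ nodB C K X Y0 Y1, (if v ∈ Y1 then 0 else
        if u ∈ blk C K X Y0 Y1 lev (lev v) then
          mm C K X (blk C K X Y0 Y1 lev (lev v)) u v else 0) ≤
        ∑ v ∈ nodB C K X Y0 Y1, (if v ∈ Y1 then 0 else
          ∑ q ∈ cone C K X (blk C K X Y0 Y1 lev (lev v)) v, 1) := by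
      refine sum_le_sum fun v _ => ?_
      by_cases hv1 : v ∈ Y1
      · simp only [if_pos hv1, sum_const_zero, le_refl]
      · simp only [if_neg hv1]
        rw [← card_eq_sum_ones]
        refine le_trans (sum_le_sum (g := fun u => mm C K X (blk C K X Y0 Y1 lev (lev v)) u v)
          fun u _ => ?_) ?_
        · split_ifs
          · exact le_rfl
          · exact Nat.zero_le _
        · unfold mm
          rw [← card_biUnion]
          · refine card_le_card fun q hq => ?_
            obtain ⟨u, -, hq'⟩ := mem_biUnion.1 hq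
            exact (mem_filter.1 hq').1
          · intro u _ u' _ hne
            rw [Function.onFun, disjoint_left]
            intro q hq hq'
            have h8 := ((mem_filter.1 hq).2).symm.trans (mem_filter.1 hq').2
            exact hne (Sum.inr_injective h8)
    refine h3.trans ?_
    rw [sum_ite, sum_const_zero, zero_add]
    have h5 := level_sum C K X Y0 Y1 lev (fun _ => 1)
    have h5' : ∑ h ∈ (nodB C K X Y0 Y1).filter (fun h => h ∉ Y1),
          ∑ q ∈ cone C K X (blk C K X Y0 Y1 lev (lev h)) h, 1 ≤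
        ∑ q ∈ bigWires C K, 1 * (lreach C K (X ∪ Y0 ∪ Y1) lev q.1).card := by
      refine le_trans (le_of_eq ?_) h5
      refine sum_congr ?_ fun _ _ => rfl
      congr
    refine h5'.trans (le_trans ?_ hch)
    unfold charge
    refine sum_le_sum fun q _ => ?_
    refine Nat.mul_le_mul ?_ ?_ <;> omega

theorem level_net (lev : C.Gate → ℕ) (d : ℕ) (hl : IsLevels C K (X ∪ Y0 ∪ Y1) lev d) :
    ∃ (lev' a : C.Gate → ℕ) (m : C.Gate → C.Gate → ℕ), ∀ x ν : ℕ,
      max K 1 * (charge C K X Y0 Y1 lev + massY C K X Y1) ≤ x * ν →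
      IsNet (nodB C K X Y0 Y1) 0 (d + 1) x ν lev' a (fo C K) m (bz C K X) ∧
        (Y1 = ∅ → IsNet (nodB C K X Y0 Y1) 1 d x ν lev' a (fo C K) m (bz C K X)) := by
  classical
  have hld : ∀ h ∈ nodB C K X Y0 Y1, h ∉ Y1 → lev h < d := fun h hh h1 =>
    hl.1 h (shg_of_nodB_lv C K X Y0 Y1 hh h1)
  refine ⟨_, _, _, fun x ν hx => ⟨net_lv C K X Y0 Y1 lev d 0 (d + 1) x ν hl hx ?_ ?_, fun hY =>
    net_lv C K X Y0 Y1 lev d 1 d x ν hl hx ?_ ?_⟩⟩
  · intro h hh
    split_ifs <;> omega
  · intro h hh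
    split_ifs with h1
    · omega
    · have := hld h hh h1
      omega
  · intro h hh
    have h1 : h ∉ Y1 := by rw [hY]; exact notMem_empty _
    rw [if_neg h1]
    omega
  · intro h hh
    have h1 : h ∉ Y1 := by rw [hY]; exact notMem_empty _
    rw [if_neg h1]
    have := hld h hh h1
    omega

/-- the charge pays for all wires and for the gates without level -/
theorem charge_low (lev : C.Gate → ℕ) :
    C.wires K + ∑ h ∈ lows C K X Y0 Y1, fo C K h * (bel C K X h).card ≤
      charge C K X Y0 Y1 lev := by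
  classical
  have h1 := carry_sum_lv C K X Y0 Y1 (bigWires C K) X
  have h2 : ∑ h ∈ lows C K X Y0 Y1, fo C K h * (bel C K X h).card =
      ∑ u ∈ lows C K X Y0 Y1, ((bigWires C K).filter fun q => C.src q.1 q.2 = Sum.inr u).card *
        (bel C K X u).card := by
    refine sum_congr rfl fun u _ => ?_
    congr 1
    unfold fo
    congr 1
    ext q
    rw [mem_filter, mem_filter, mem_bigWires_lv]
    exact ⟨fun h => h.2, fun h => ⟨mem_univ _, h⟩⟩
  rw [h2, ← wires_lv, card_eq_sum_ones]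
  refine (Nat.add_le_add_left h1 _).trans ?_
  rw [← sum_add_distrib]
  unfold charge
  refine sum_le_sum fun q _ => ?_
  exact Nat.le_mul_of_pos_right _ (by omega)

end Pool.Agent.Lib_MP_22d2c8_rt
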