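import Mathlib

/-!
# [LV-5] Few shared gates (pure arithmetic)

`s` = number of `h ∈ S` with `B < b h`, `q' = 2 * q ^ 2`, `m = s + k + sqrt n`, `D = n / (q' * m)`. If
`D = 0` the left side is `0`. Otherwise use `hprof` for `q * D`:
`q' * D * m ≤ n`, so `q * k * (q * D) = q ^ 2 * k * D ≤ q' * D * m ≤ n`, and
`q' * D * (sqrt n + 1) ≤ n < (sqrt n + 1) ^ 2` (`k ≥ 1`) gives `q' * D ≤ sqrt n`, `(q' * D) ^ 2 ≤ n`,
`q * (q * D) ^ 2 = q ^ 3 * D ^ 2 ≤ (q' * D) ^ 2 ≤ n`. The sum on the right of `hprof`: terms with `b h ≤ B` at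
most `B * φ h`, the others at most `(q * D) ^ 2`: so
`q * D * n ≤ q * (W + B * W + s * (q * D) ^ 2)`, and `2 * q ^ 2 * D * s ≤ n` gives
`s * (q * D) ^ 2 * 2 = D * (2 * q ^ 2 * D * s) ≤ D * n`. So `D * n ≤ 2 * (B + 1) * W`.
-/

namespace Pool.Agent.Lib_MP_22d2c8_rt

open Finset

theorem prof_few {H : Type} [DecidableEq H] (S : Finset H) (b φ : H → ℕ) (n q k W B : ℕ)
    (hq : 1 ≤ q) (hk : 1 ≤ k) (hφ : ∑ h ∈ S, φ h ≤ W)
    (hprof : ∀ D : ℕ, q ≤ D → q * D ^ 2 ≤ n → q * k * D ≤ n →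
      D * n ≤ q * (W + ∑ h ∈ S, min D (b h) * min D (φ h))) :
    n * (n / (2 * q ^ 2 * ((S.filter fun h => B < b h).card + k + Nat.sqrt n))) ≤
      2 * q ^ 2 * ((B + 1) * W) := by
  obtain ⟨s, hs⟩ : ∃ s, s = (S.filter fun h => B < b h).card := ⟨_, rfl⟩
  rw [← hs]
  obtain ⟨D, hD⟩ : ∃ D, D = n / (2 * q ^ 2 * (s + k + Nat.sqrt n)) := ⟨_, rfl⟩
  rw [← hD]
  rcases Nat.eq_zero_or_pos D with h0 | hpos
  · rw [h0]
    simp
  have hDm : D * (2 * q ^ 2 * (s + k + Nat.sqrt n)) ≤ n := by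
    rw [hD]
    exact Nat.div_mul_le_self _ _
  have hsq := Nat.lt_succ_sqrt n
  obtain ⟨r, hr⟩ : ∃ r, r = Nat.sqrt n := ⟨_, rfl⟩
  rw [← hr] at hDm hsq
  have hrn : r * r ≤ n := by
    rw [hr]
    exact Nat.sqrt_le n
  have hsq' : n < (r + 1) * (r + 1) := hsq
  -- `q' * D ≤ sqrt n`
  have h1 : D * (2 * q ^ 2) ≤ r := by
    by_contra hc
    have hc' : r + 1 ≤ D * (2 * q ^ 2) := not_le.1 hc
    have h2 : (r + 1) * (r + 1) ≤ D * (2 * q ^ 2) * (s + k + r) :=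
      Nat.mul_le_mul hc' (by omega)
    have h3 : D * (2 * q ^ 2) * (s + k + r) = D * (2 * q ^ 2 * (s + k + r)) := by ring
    omega
  have h2 : (D * (2 * q ^ 2)) * (D * (2 * q ^ 2)) ≤ n := (Nat.mul_le_mul h1 h1).trans hrn
  have hq2 : q ≤ q ^ 2 := Nat.le_self_pow (by norm_num) q
  have hE1 : q * (q * D) ^ 2 ≤ n := by
    refine le_trans ?_ h2
    calc q * (q * D) ^ 2 = (q * q ^ 2) * (D * D) := by ring
      _ ≤ (q ^ 2 * q ^ 2) * (D * D) := Nat.mul_le_mul_right _ (Nat.mul_le_mul_right _ hq2)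
      _ ≤ 4 * ((q ^ 2 * q ^ 2) * (D * D)) := Nat.le_mul_of_pos_left _ (by norm_num)
      _ = (D * (2 * q ^ 2)) * (D * (2 * q ^ 2)) := by ring
  have hE2 : q * k * (q * D) ≤ n := by
    refine le_trans ?_ hDm
    calc q * k * (q * D) = D * (q ^ 2 * k) := by ring
      _ ≤ D * (2 * q ^ 2 * (s + k + r)) := Nat.mul_le_mul_left _ (by nlinarith [Nat.zero_le (q ^ 2)])
  have hE3 := hprof (q * D) (Nat.le_mul_of_pos_right q hpos) hE1 hE2
  -- the sum
  have hsum : ∑ h ∈ S, min (q * D) (b h) * min (q * D) (φ h) ≤ B * W + s * (q * D) ^ 2 := by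
    have h3 : ∀ h ∈ S, min (q * D) (b h) * min (q * D) (φ h) ≤
        B * φ h + (if B < b h then (q * D) ^ 2 else 0) := by
      intro h _
      by_cases hb : B < b h
      · rw [if_pos hb, pow_two]
        exact (Nat.mul_le_mul (min_le_left _ _) (min_le_left _ _)).trans (Nat.le_add_left _ _)
      · rw [if_neg hb, add_zero]
        exact Nat.mul_le_mul ((min_le_right _ _).trans (not_lt.1 hb)) (min_le_right _ _)
    refine (Finset.sum_le_sum h3).trans ?_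
    rw [Finset.sum_add_distrib, ← Finset.mul_sum, ← Finset.sum_filter, Finset.sum_const,
      smul_eq_mul, ← hs]
    exact Nat.add_le_add_right (Nat.mul_le_mul_left _ hφ) _
  have h4 : q * (D * n) ≤ q * (W + (B * W + s * (q * D) ^ 2)) := by
    calc q * (D * n) = q * D * n := by ring
      _ ≤ q * (W + ∑ h ∈ S, min (q * D) (b h) * min (q * D) (φ h)) := hE3
      _ ≤ q * (W + (B * W + s * (q * D) ^ 2)) := Nat.mul_le_mul_left _ (Nat.add_le_add_left hsum _)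
  have h5 : D * n ≤ W + (B * W + s * (q * D) ^ 2) := Nat.le_of_mul_le_mul_left h4 hq
  have h6 : 2 * (s * (q * D) ^ 2) ≤ D * n := by
    calc 2 * (s * (q * D) ^ 2) = D * (D * (2 * q ^ 2 * s)) := by ring
      _ ≤ D * n := Nat.mul_le_mul_left _ (le_trans (Nat.mul_le_mul_left _
          (Nat.mul_le_mul_left _ (by omega))) hDm)
  have h7 : D * n ≤ 2 * ((B + 1) * W) := by
    have e : 2 * ((B + 1) * W) = 2 * (B * W) + 2 * W := by ring
    omega
  calc n * D = D * n := Nat.mul_comm _ _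
    _ ≤ 2 * ((B + 1) * W) := h7
    _ = 2 * 1 * ((B + 1) * W) := by ring
    _ ≤ 2 * q ^ 2 * ((B + 1) * W) := Nat.mul_le_mul_right _ (Nat.mul_le_mul_left _
        (Nat.one_le_pow _ _ hq))

end Pool.Agent.Lib_MP_22d2c8_rt
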