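import Mathlib

/-!
# [LV-4] Summation of the profile over all scales (pure arithmetic)

`q' = 14 * q ^ 3`, `N = n / (q' * k)`. If `N = 0` or `N = 1` the left side is `0`. Otherwise
`J = Nat.log 2 N`, scales `D_j = q * 2 ^ j` for `j ≤ J / 2` (so `4 ^ j ≤ 2 ^ J ≤ N`):
`q * D_j ^ 2 = q ^ 3 * 4 ^ j ≤ q ^ 3 * N ≤ n` and `q * k * D_j = q ^ 2 * k * 2 ^ j ≤ q' * k * N ≤ n`.
(real numbers) `n ≤ q * (W / D_j + ∑_h min(D_j, b) min(D_j, φ) / D_j)`. Sum over the `J / 2 + 1 > J / 2`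
scales: `∑_j 1 / D_j ≤ 2 / q ≤ 2`, and for every `h` with `φ = φ h`, `b = b h`:
`∑_j min(D_j, b) min(D_j, φ) / D_j ≤ 2 φ + φ (1 + log2 (b / φ)) + 2 φ`:
* `D_j ≤ φ`: at most `D_j`, sum `≤ 2 φ` (geometric sum, compare `one_low` in `NetOne.lean`);
* `φ < D_j < b`: at most `φ`, number of such `j` at most `1 + Nat.log 2 (b / φ)` (if `j0 < j1` are the
  smallest and the largest, `φ * 2 ^ (j1 - j0) ≤ D_(j1) < b`; for `φ = 0` all terms are `0`);
* `D_j ≥ b`: at most `φ b / D_j`, sum `≤ 2 φ` (compare `one_high` in `NetOne.lean`).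
So `n * J / 2 ≤ q * (2 W + ∑_h φ (5 + log2 (b / φ))) ≤ 7 q (W + ∑_h φ log2 (b / φ))` as `∑ φ ≤ W`.
-/

namespace Pool.Agent.Lib_MP_22d2c8_rt

open Finset

private theorem pl_low (x P : ℕ) (n : ℕ) :
    ∑ i ∈ range n, (if x * 2 ^ i ≤ P then (x : ℝ) * 2 ^ i else 0) ≤ 2 * P ∧
      ∑ i ∈ range n, (if x * 2 ^ i ≤ P then (x : ℝ) * 2 ^ i else 0) ≤ x * 2 ^ n := by
  induction n with
  | zero => simp
  | succ n ih =>
    obtain ⟨h1, h2⟩ := ih
    rw [Finset.sum_range_succ]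
    have hx : (0 : ℝ) ≤ x * 2 ^ n := by positivity
    have hp : (x : ℝ) * 2 ^ (n + 1) = x * 2 ^ n + x * 2 ^ n := by ring
    by_cases h : x * 2 ^ n ≤ P
    · have h' : (x : ℝ) * 2 ^ n ≤ P := by exact_mod_cast h
      rw [if_pos h, hp]
      constructor <;> linarith
    · rw [if_neg h, hp]
      constructor <;> linarith

private theorem pl_high {x : ℝ} (hx : 0 < x) (n : ℕ) :
    ∀ P : ℝ, 0 ≤ P →
      ∑ i ∈ range n, (if P ≤ x * 2 ^ i then P / (x * 2 ^ i) else 0) ≤ 2 ∧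
        ∑ i ∈ range n, (if P ≤ x * 2 ^ i then P / (x * 2 ^ i) else 0) ≤ 2 * P / x := by
  induction n with
  | zero =>
    intro P hP
    simp
    positivity
  | succ n ih =>
    intro P hP
    obtain ⟨h1, h2⟩ := ih (P / 2) (by positivity)
    have h3 : ∑ i ∈ range n, (if P ≤ x * 2 ^ (i + 1) then P / (x * 2 ^ (i + 1)) else 0) =
        ∑ i ∈ range n, (if P / 2 ≤ x * 2 ^ i then P / 2 / (x * 2 ^ i) else 0) := by
      refine Finset.sum_congr rfl fun i _ => ?_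
      have e1 : P ≤ x * 2 ^ (i + 1) ↔ P / 2 ≤ x * 2 ^ i := by
        rw [pow_succ, div_le_iff₀ (by norm_num : (0 : ℝ) < 2), mul_assoc]
      have e2 : P / (x * 2 ^ (i + 1)) = P / 2 / (x * 2 ^ i) := by
        rw [pow_succ, div_div]
        congr 1
        ring
      rw [e2]
      exact if_congr e1 rfl rfl
    rw [Finset.sum_range_succ', h3]
    simp only [pow_zero, mul_one]
    have h4 : 2 * (P / 2) / x = P / x := by ring
    have h5 : 2 * P / x = P / x + P / x := by ring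
    have h6 : 0 ≤ P / x := by positivity
    rw [h4] at h2
    rw [h5]
    by_cases h : P ≤ x
    · rw [if_pos h]
      have h7 : P / x ≤ 1 := by
        rw [div_le_one hx]
        exact h
      constructor <;> linarith
    · rw [if_neg h]
      constructor <;> linarith

private theorem pl_mid (x b φ : ℕ) (hφ : 1 ≤ φ) (m : ℕ) :
    ((range m).filter fun j => φ < x * 2 ^ j ∧ x * 2 ^ j < b).card ≤ 1 + Nat.log 2 (b / φ) := by
  rcases ((range m).filter fun j => φ < x * 2 ^ j ∧ x * 2 ^ j < b).eq_empty_or_nonempty with h | h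
  · rw [h, card_empty]
    exact Nat.zero_le _
  · obtain ⟨j0, hj0, hmin⟩ := exists_min_image _ id h
    simp only [id] at hmin
    have h0 := (mem_filter.mp hj0).2
    have hsub : ((range m).filter fun j => φ < x * 2 ^ j ∧ x * 2 ^ j < b) ⊆
        Icc j0 (j0 + Nat.log 2 (b / φ)) := by
      intro j hj
      have h1 := (mem_filter.mp hj).2
      have h2 := hmin j hj
      rw [mem_Icc]
      refine ⟨h2, ?_⟩
      obtain ⟨d, rfl⟩ := Nat.exists_eq_add_of_le h2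
      have h3 : φ * 2 ^ d ≤ b := by
        calc φ * 2 ^ d ≤ x * 2 ^ j0 * 2 ^ d := Nat.mul_le_mul_right _ h0.1.le
          _ = x * 2 ^ (j0 + d) := by rw [pow_add, mul_assoc]
          _ ≤ b := h1.2.le
      have h4 : 2 ^ d ≤ b / φ := by
        rw [Nat.le_div_iff_mul_le hφ, mul_comm]
        exact h3
      have h5 : d ≤ Nat.log 2 (b / φ) := by
        have h6 := Nat.log_mono_right (b := 2) h4
        rwa [Nat.log_pow (by norm_num)] at h6
      omega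
    refine (card_le_card hsub).trans (le_of_eq ?_)
    rw [Nat.card_Icc]
    omega

private theorem pl_h (q b φ m : ℕ) (hq : 1 ≤ q) :
    ∑ j ∈ range m, (((min (q * 2 ^ j) b * min (q * 2 ^ j) φ : ℕ) : ℝ) / ((q * 2 ^ j : ℕ) : ℝ)) ≤
      5 * (φ : ℝ) + φ * (Nat.log 2 (b / φ) : ℕ) := by
  have hqR : (0 : ℝ) < q := by exact_mod_cast hq
  rcases Nat.eq_zero_or_pos φ with h0 | h0
  · subst h0
    simp
  have hφR : (0 : ℝ) < φ := by exact_mod_cast h0
  have hterm : ∀ j ∈ range m,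
      ((min (q * 2 ^ j) b * min (q * 2 ^ j) φ : ℕ) : ℝ) / ((q * 2 ^ j : ℕ) : ℝ) ≤
      (if q * 2 ^ j ≤ φ then (q : ℝ) * 2 ^ j else 0) +
        φ * (if φ < q * 2 ^ j ∧ q * 2 ^ j < b then 1 else 0) +
        φ * (if (b : ℝ) ≤ q * 2 ^ j then (b : ℝ) / (q * 2 ^ j) else 0) := by
    intro j _
    have hD : 1 ≤ q * 2 ^ j := Nat.one_le_iff_ne_zero.mpr (by positivity)
    have hDR : (0 : ℝ) < (q : ℝ) * 2 ^ j := by positivity
    have hc : ((q * 2 ^ j : ℕ) : ℝ) = (q : ℝ) * 2 ^ j := by push_cast; rfl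
    have p2 : (0 : ℝ) ≤ φ * (if φ < q * 2 ^ j ∧ q * 2 ^ j < b then 1 else 0) := by
      split_ifs <;> positivity
    have p3 : (0 : ℝ) ≤ φ * (if (b : ℝ) ≤ q * 2 ^ j then (b : ℝ) / (q * 2 ^ j) else 0) := by
      split_ifs <;> positivity
    rw [hc, div_le_iff₀ hDR]
    by_cases h1 : q * 2 ^ j ≤ φ
    · rw [if_pos h1]
      have h2 : ((min (q * 2 ^ j) b * min (q * 2 ^ j) φ : ℕ) : ℝ) ≤
          ((q * 2 ^ j * (q * 2 ^ j) : ℕ) : ℝ) := by
        exact_mod_cast Nat.mul_le_mul (min_le_left _ _) (min_le_left _ _)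
      rw [Nat.cast_mul (q * 2 ^ j) (q * 2 ^ j), hc] at h2
      nlinarith [mul_nonneg p2 hDR.le, mul_nonneg p3 hDR.le]
    · by_cases h2 : q * 2 ^ j < b
      · rw [if_neg h1, if_pos ⟨not_le.mp h1, h2⟩]
        have h3 : ((min (q * 2 ^ j) b * min (q * 2 ^ j) φ : ℕ) : ℝ) ≤
            ((q * 2 ^ j * φ : ℕ) : ℝ) := by
          exact_mod_cast Nat.mul_le_mul (min_le_left _ _) (min_le_right _ _)
        rw [Nat.cast_mul (q * 2 ^ j) φ, hc] at h3
        nlinarith [mul_nonneg p3 hDR.le]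
      · have h3 : (b : ℝ) ≤ q * 2 ^ j := by
          rw [← hc]
          exact_mod_cast not_lt.mp h2
        rw [if_neg h1, if_pos h3]
        have h4 : ((min (q * 2 ^ j) b * min (q * 2 ^ j) φ : ℕ) : ℝ) ≤ ((b * φ : ℕ) : ℝ) := by
          exact_mod_cast Nat.mul_le_mul (min_le_right _ _) (min_le_right _ _)
        rw [Nat.cast_mul b φ] at h4
        have h5 : (φ : ℝ) * ((b : ℝ) / (q * 2 ^ j)) * (q * 2 ^ j) = b * φ := by
          field_simp
        nlinarith [mul_nonneg p2 hDR.le]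
  refine (Finset.sum_le_sum hterm).trans ?_
  rw [Finset.sum_add_distrib, Finset.sum_add_distrib, ← Finset.mul_sum, ← Finset.mul_sum]
  have e1 := (pl_low q φ m).1
  have e3 := (pl_high hqR m (b : ℝ) (Nat.cast_nonneg _)).1
  have e2 : ∑ j ∈ range m, (if φ < q * 2 ^ j ∧ q * 2 ^ j < b then (1 : ℝ) else 0) ≤
      1 + (Nat.log 2 (b / φ) : ℕ) := by
    have h := pl_mid q b φ h0 m
    rw [Finset.sum_boole]
    exact_mod_cast h
  have e4 := mul_le_mul_of_nonneg_left e2 hφR.le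
  have e5 := mul_le_mul_of_nonneg_left e3 hφR.le
  linarith

theorem prof_log {H : Type} [DecidableEq H] (S : Finset H) (b φ : H → ℕ) (n q k W : ℕ)
    (hq : 1 ≤ q) (hk : 1 ≤ k) (hφ : ∑ h ∈ S, φ h ≤ W)
    (hprof : ∀ D : ℕ, q ≤ D → q * D ^ 2 ≤ n → q * k * D ≤ n →
      D * n ≤ q * (W + ∑ h ∈ S, min D (b h) * min D (φ h))) :
    n * Nat.log 2 (n / (14 * q ^ 3 * k)) ≤
      14 * q ^ 3 * (W + ∑ h ∈ S, φ h * Nat.log 2 (b h / φ h)) := by
  obtain ⟨N, hN⟩ : ∃ N, N = n / (14 * q ^ 3 * k) := ⟨_, rfl⟩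
  obtain ⟨L, hL⟩ : ∃ L, L = Nat.log 2 N := ⟨_, rfl⟩
  rw [← hN, ← hL]
  rcases Nat.eq_zero_or_pos L with hL0 | hL0
  · rw [hL0, mul_zero]
    exact Nat.zero_le _
  have hN0 : N ≠ 0 := by
    rintro rfl
    rw [Nat.log_zero_right] at hL
    omega
  have hNn : 14 * q ^ 3 * k * N ≤ n := by
    rw [hN]
    exact Nat.mul_div_le _ _
  have hq3 : q ^ 3 * N ≤ n := by
    refine le_trans ?_ hNn
    calc q ^ 3 * N = 1 * q ^ 3 * 1 * N := by ring
      _ ≤ 14 * q ^ 3 * k * N := by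
          refine Nat.mul_le_mul_right _ (Nat.mul_le_mul (Nat.mul_le_mul_right _ (by norm_num)) hk)
  have hq3k : q ^ 3 * k * N ≤ n := by
    refine le_trans ?_ hNn
    calc q ^ 3 * k * N = 1 * q ^ 3 * k * N := by ring
      _ ≤ 14 * q ^ 3 * k * N := by
          refine Nat.mul_le_mul_right _ (Nat.mul_le_mul_right _ (Nat.mul_le_mul_right _ (by norm_num)))
  obtain ⟨m, hm⟩ : ∃ m, m = L / 2 + 1 := ⟨_, rfl⟩
  have hqR : (0 : ℝ) < q := by exact_mod_cast hq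
  have hscale : ∀ j ∈ range m, (n : ℝ) ≤ q * (W * (1 / ((q * 2 ^ j : ℕ) : ℝ)) +
      ∑ h ∈ S, ((min (q * 2 ^ j) (b h) * min (q * 2 ^ j) (φ h) : ℕ) : ℝ) /
        ((q * 2 ^ j : ℕ) : ℝ)) := by
    intro j hj
    have hj' : j < m := mem_range.mp hj
    have h2j : 2 * j ≤ L := by omega
    have h4 : 4 ^ j ≤ N := by
      calc 4 ^ j = 2 ^ (2 * j) := by rw [pow_mul, show (2 : ℕ) ^ 2 = 4 from rfl]
        _ ≤ 2 ^ L := Nat.pow_le_pow_right (by norm_num) h2j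
        _ ≤ N := by
            rw [hL]
            exact Nat.pow_log_le_self 2 hN0
    have hD : 1 ≤ q * 2 ^ j := Nat.one_le_iff_ne_zero.mpr (by positivity)
    have hDR : (0 : ℝ) < ((q * 2 ^ j : ℕ) : ℝ) := by exact_mod_cast hD
    have h5 : q * (q * 2 ^ j) ^ 2 ≤ n := by
      calc q * (q * 2 ^ j) ^ 2 = q ^ 3 * 4 ^ j := by
            rw [mul_pow, ← pow_mul, mul_comm j 2, pow_mul]
            norm_num
            ring
        _ ≤ q ^ 3 * N := Nat.mul_le_mul_left _ h4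
        _ ≤ n := hq3
    have h6 : q * k * (q * 2 ^ j) ≤ n := by
      calc q * k * (q * 2 ^ j) = q ^ 2 * k * 2 ^ j := by ring
        _ ≤ q ^ 3 * k * N := by
            refine Nat.mul_le_mul (Nat.mul_le_mul_right _ (Nat.pow_le_pow_right hq (by norm_num))) ?_
            exact (Nat.pow_le_pow_left (by norm_num) j).trans h4
        _ ≤ n := hq3k
    have h7 := hprof (q * 2 ^ j) (Nat.le_mul_of_pos_right q (by positivity)) h5 h6
    have h8 : ((q * 2 ^ j * n : ℕ) : ℝ) ≤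
        ((q * (W + ∑ h ∈ S, min (q * 2 ^ j) (b h) * min (q * 2 ^ j) (φ h)) : ℕ) : ℝ) := by
      exact_mod_cast h7
    rw [Nat.cast_mul (q * 2 ^ j) n,
      Nat.cast_mul q (W + ∑ h ∈ S, min (q * 2 ^ j) (b h) * min (q * 2 ^ j) (φ h)),
      Nat.cast_add, Nat.cast_sum] at h8
    have h9 : (q : ℝ) * (W * (1 / ((q * 2 ^ j : ℕ) : ℝ)) +
        ∑ h ∈ S, ((min (q * 2 ^ j) (b h) * min (q * 2 ^ j) (φ h) : ℕ) : ℝ) /
          ((q * 2 ^ j : ℕ) : ℝ)) = q * (W +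
        ∑ h ∈ S, ((min (q * 2 ^ j) (b h) * min (q * 2 ^ j) (φ h) : ℕ) : ℝ)) /
          ((q * 2 ^ j : ℕ) : ℝ) := by
      rw [← Finset.sum_div]
      ring
    rw [h9, le_div_iff₀ hDR]
    linarith
  have hsum := Finset.sum_le_sum hscale
  rw [Finset.sum_const, card_range, nsmul_eq_mul, ← Finset.mul_sum, Finset.sum_add_distrib,
    ← Finset.mul_sum, Finset.sum_comm] at hsum
  have e1 : ∑ j ∈ range m, (1 / ((q * 2 ^ j : ℕ) : ℝ)) ≤ 2 := by
    refine le_trans (le_of_eq ?_) (pl_high hqR m 1 zero_le_one).1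
    refine Finset.sum_congr rfl fun j _ => ?_
    have h1 : (1 : ℝ) ≤ q * 2 ^ j := by
      have : 1 ≤ q * 2 ^ j := Nat.one_le_iff_ne_zero.mpr (by positivity)
      exact_mod_cast this
    rw [if_pos h1]
    push_cast
    rfl
  have e2 : ∑ h ∈ S, ∑ j ∈ range m, (((min (q * 2 ^ j) (b h) * min (q * 2 ^ j) (φ h) : ℕ) : ℝ) /
      ((q * 2 ^ j : ℕ) : ℝ)) ≤ ∑ h ∈ S, (5 * (φ h : ℝ) + φ h * (Nat.log 2 (b h / φ h) : ℕ)) :=
    Finset.sum_le_sum fun h _ => pl_h q (b h) (φ h) m hq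
  rw [Finset.sum_add_distrib, ← Finset.mul_sum] at e2
  have e3 : (∑ h ∈ S, (φ h : ℝ)) ≤ W := by exact_mod_cast hφ
  obtain ⟨Φ, hΦ⟩ : ∃ Φ : ℝ, Φ = ∑ h ∈ S, (φ h : ℝ) * (Nat.log 2 (b h / φ h) : ℕ) := ⟨_, rfl⟩
  have hΦ0 : 0 ≤ Φ := by
    rw [hΦ]
    exact Finset.sum_nonneg fun h _ => by positivity
  rw [← hΦ] at e2
  have hW0 : (0 : ℝ) ≤ W := Nat.cast_nonneg _
  have e4 : (m : ℝ) * n ≤ q * (7 * (W + Φ)) := by
    refine hsum.trans (mul_le_mul_of_nonneg_left ?_ hqR.le)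
    have h1 : (W : ℝ) * ∑ j ∈ range m, (1 / ((q * 2 ^ j : ℕ) : ℝ)) ≤ W * 2 :=
      mul_le_mul_of_nonneg_left e1 hW0
    linarith
  have e5 : (n : ℝ) * L ≤ 14 * q ^ 3 * (W + Φ) := by
    have h1 : (L : ℝ) ≤ 2 * m := by
      have : L ≤ 2 * m := by omega
      exact_mod_cast this
    have h2 : (n : ℝ) * L ≤ n * (2 * m) := mul_le_mul_of_nonneg_left h1 (Nat.cast_nonneg _)
    have h3 : (q : ℝ) ≤ q ^ 3 := by
      have : q ≤ q ^ 3 := Nat.le_self_pow (by norm_num) q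
      exact_mod_cast this
    have h4 : (q : ℝ) * (W + Φ) ≤ q ^ 3 * (W + Φ) := mul_le_mul_of_nonneg_right h3 (by positivity)
    linarith
  have e6 : ((n * L : ℕ) : ℝ) ≤
      ((14 * q ^ 3 * (W + ∑ h ∈ S, φ h * Nat.log 2 (b h / φ h)) : ℕ) : ℝ) := by
    push_cast
    rw [← hΦ]
    exact e5
  exact_mod_cast e6

end Pool.Agent.Lib_MP_22d2c8_rt
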