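import Pool.Agent.Lib_MP_22d2c8_rt.CoreLo
import Pool.Agent.Lib_MP_22d2c8_rt.Reach
import Pool.Agent.Lib_MP_22d2c8_rt.LevNet
import Pool.Agent.Lib_MP_22d2c8_rt.LevDepth
import Pool.Agent.Lib_MP_22d2c8_rt.ProfLog
import Pool.Agent.Lib_MP_22d2c8_rt.ProfFew

/-!
# [LV-8] The theorem
-/

set_option linter.unusedSectionVars false

namespace Pool.Agent.Lib_MP_22d2c8_rt

open Finset Pool.Agent.Lib_MP_22d2c8_sym Pool.Agent.Lib_MP_22d2c8_oa

/-- Levels, all charges. -/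
theorem levels (K w : ℕ) : ∃ q : ℕ, 0 < q ∧ ∀ n k : ℕ, 1 ≤ k → ∀ C : Circuit (Inp n),
    (∀ g, C.Big K g → SubPow w (C.op g)) → ∀ X : Finset C.Gate, X.card ≤ k → Agrees C k →
      ∀ (Y0 Y1 : Finset C.Gate) (lev : C.Gate → ℕ) (d : ℕ), IsLevels C K (X ∪ Y0 ∪ Y1) lev d →
        ∀ M : ℕ, charge C K X Y0 Y1 lev + massY C K X Y1 ≤ M →
        n * lam (d + 1) (n / (q * k)) ≤ q * (d + 1) * M ∧
        (Y1 = ∅ → n * lam d (n / (q * k)) ≤ q * (d + 1) * M) := by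
  classical
  obtain ⟨q0, hq0, h⟩ := core_lo K w
  obtain ⟨κ, hκ⟩ : ∃ κ, κ = max K 1 := ⟨_, rfl⟩
  have hκ1 : 1 ≤ κ := by omega
  have hκ0 : 0 < κ := hκ1
  refine ⟨2 * κ * q0, by positivity, ?_⟩
  intro n k hk C hop X hX hagr Y0 Y1 lev d hl M hM
  have hdiv : n / (2 * κ * q0 * k) ≤ n / (q0 * k) := by
    refine Nat.div_le_div_left ?_ (Nat.mul_pos hq0 hk)
    refine Nat.mul_le_mul_right _ ?_
    exact Nat.le_mul_of_pos_left _ (by omega)
  have hlam : ∀ e, n * lam e (n / (2 * κ * q0 * k)) ≤ n * lam e (n / (q0 * k)) := fun e =>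
    Nat.mul_le_mul_left _ (lam_mono e hdiv)
  have hnod : ∀ g ∈ nodB C K X Y0 Y1, C.Big K g ∧ g ∉ X := by
    intro g hg
    have h1 := (mem_filter.1 hg).2
    exact ⟨h1.1, h1.2.1⟩
  have hshr : ∀ g, C.Big K g → g ∉ X → C.Shared K g →
      g ∈ nodB C K X Y0 Y1 ∨ g ∈ lows C K X Y0 Y1 := by
    intro g h1 h2 h3
    by_cases h4 : g ∈ Y1
    · exact Or.inl (mem_filter.2 ⟨mem_univ _, h1, h2, Or.inl h4⟩)
    · by_cases h5 : g ∈ Y0
      · exact Or.inr (mem_filter.2 ⟨mem_univ _, h1, h2, h4, h5⟩)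
      · exact Or.inl (mem_filter.2 ⟨mem_univ _, h1, h2, Or.inr ⟨h5, h3⟩⟩)
  have hlow : κ * C.wires K + ∑ h ∈ lows C K X Y0 Y1, fo C K h * (bel C K X h).card ≤ κ * M := by
    have h1 := charge_low C K X Y0 Y1 lev
    calc κ * C.wires K + ∑ h ∈ lows C K X Y0 Y1, fo C K h * (bel C K X h).card ≤
          κ * C.wires K + κ * ∑ h ∈ lows C K X Y0 Y1, fo C K h * (bel C K X h).card :=
        Nat.add_le_add_left (Nat.le_mul_of_pos_left _ hκ0) _
      _ = κ * (C.wires K + ∑ h ∈ lows C K X Y0 Y1, fo C K h * (bel C K X h).card) := by ring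
      _ ≤ κ * M := Nat.mul_le_mul_left _ (by omega)
  obtain ⟨lev', a, m, hnet⟩ := level_net C K X Y0 Y1 lev d hl
  have hMx : ∀ x ν : ℕ, κ * M ≤ x * ν →
      max K 1 * (charge C K X Y0 Y1 lev + massY C K X Y1) ≤ x * ν := by
    intro x ν hx
    rw [← hκ]
    exact (Nat.mul_le_mul_left _ hM).trans hx
  constructor
  · have h1 := h (d + 1) n k hk C hop X hX hagr (nodB C K X Y0 Y1) (lows C K X Y0 Y1) 0 (κ * M)
      lev' a m (by rw [← hκ]; exact hlow) hnod hshr (fun x ν hx => (hnet x ν (hMx x ν hx)).1)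
    refine (hlam (d + 1)).trans (h1.trans ?_)
    calc q0 * (d + 1 + 1) * (κ * M) ≤ q0 * (2 * (d + 1)) * (κ * M) :=
          Nat.mul_le_mul_right _ (Nat.mul_le_mul_left _ (by omega))
      _ = 2 * κ * q0 * (d + 1) * M := by ring
  · intro hY
    have h1 := h d n k hk C hop X hX hagr (nodB C K X Y0 Y1) (lows C K X Y0 Y1) 1 (κ * M)
      lev' a m (by rw [← hκ]; exact hlow) hnod hshr (fun x ν hx => (hnet x ν (hMx x ν hx)).2 hY)
    refine (hlam d).trans (h1.trans ?_)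
    calc q0 * (d + 1) * (κ * M) ≤ 2 * (q0 * (d + 1) * (κ * M)) :=
          Nat.le_mul_of_pos_left _ (by norm_num)
      _ = 2 * κ * q0 * (d + 1) * M := by ring

private theorem div_anti {n q Q k : ℕ} (hq : 0 < q) (hk : 1 ≤ k) (h : q ≤ Q) :
    n / (Q * k) ≤ n / (q * k) :=
  Nat.div_le_div_left (Nat.mul_le_mul_right _ h) (Nat.mul_pos hq hk)

theorem reuse (K w : ℕ) : ∃ q : ℕ, 0 < q ∧ ∀ n k : ℕ, 1 ≤ k → ∀ C : Circuit (Inp n),
    (∀ g, C.Big K g → SubPow w (C.op g)) → ∀ X : Finset C.Gate, X.card ≤ k →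
      (1 / 2 + 1 / 2 ^ k) * 2 ^ (4 * n - 1) ≤ (agree C : ℝ) →
      (∀ D : ℕ, q ≤ D → q * D ^ 2 ≤ n → q * k * D ≤ n → D * n ≤ q * (C.wires K +
        ∑ h ∈ shg C K X, min D (below C h).card * min D (fo C K h))) ∧
      (∀ B : ℕ, n * (n / (q * (((shg C K X).filter fun h => B < (below C h).card).card + k +
        Nat.sqrt n))) ≤ q * ((B + 1) * C.wires K)) ∧
      n * Nat.log 2 (n / (q * k)) ≤ q * (C.wires K +
        ∑ h ∈ shg C K X, fo C K h * Nat.log 2 ((below C h).card / fo C K h)) ∧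
      ∀ (Y0 Y1 : Finset C.Gate) (d : ℕ), C.SharingDepthLE K (X ∪ Y0 ∪ Y1) d →
        n * lam (d + 1) (n / (q * k)) ≤ q * (d + 1) * (C.wires K +
          ∑ h ∈ Y0, fo C K h * (below C h).card + ∑ h ∈ Y1, (below C h).card) ∧
        (Y1 = ∅ → n * lam d (n / (q * k)) ≤
          q * (d + 1) * (C.wires K + ∑ h ∈ Y0, fo C K h * (below C h).card)) := by
  classical
  obtain ⟨q1, hq1, h1⟩ := profile K w
  obtain ⟨q2, hq2, h2⟩ := levels K w
  obtain ⟨κ, hκ⟩ : ∃ κ, κ = max K 1 := ⟨_, rfl⟩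
  have hκ1 : 1 ≤ κ := by omega
  have hκ0 : 0 < κ := hκ1
  obtain ⟨Q, hQ⟩ : ∃ Q, Q = 14 * q1 ^ 3 + 2 * q1 ^ 2 + q1 + 2 * κ * q2 := ⟨_, rfl⟩
  have hQ1 : 14 * q1 ^ 3 ≤ Q := by
    rw [hQ]
    generalize 14 * q1 ^ 3 = y
    omega
  have hQ2 : 2 * q1 ^ 2 ≤ Q := by
    rw [hQ]
    generalize 14 * q1 ^ 3 = y
    generalize 2 * q1 ^ 2 = z
    omega
  have hQ3 : q1 ≤ Q := by
    rw [hQ]
    generalize 14 * q1 ^ 3 = y
    generalize 2 * q1 ^ 2 = z
    omega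
  have hQ4 : 2 * κ * q2 ≤ Q := by
    rw [hQ]
    exact Nat.le_add_left _ _
  have hQ5 : q2 ≤ Q := (Nat.le_mul_of_pos_left _ (by omega)).trans hQ4
  refine ⟨Q, by omega, ?_⟩
  intro n k hk C hop X hX hagr
  have hprof := h1 n k hk C hop X hX hagr
  have hlev := h2 n k hk C hop X hX hagr
  have hfo : ∑ h ∈ shg C K X, fo C K h ≤ C.wires K := sum_fo_all _
  have hlam : ∀ e, n * lam e (n / (Q * k)) ≤ n * lam e (n / (q2 * k)) := fun e =>
    Nat.mul_le_mul_left _ (lam_mono e (div_anti hq2 hk hQ5))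
  have hdep : ∀ (Y0 Y1 : Finset C.Gate) (d : ℕ), C.SharingDepthLE K (X ∪ Y0 ∪ Y1) d →
      ∀ M : ℕ, C.wires K + ∑ h ∈ Y0, fo C K h * (below C h).card + massY C K X Y1 ≤ κ * M →
        n * lam (d + 1) (n / (Q * k)) ≤ Q * (d + 1) * M ∧
        (Y1 = ∅ → n * lam d (n / (Q * k)) ≤ Q * (d + 1) * M) := by
    intro Y0 Y1 d hd M hM
    obtain ⟨lev, hl, hr⟩ := depth_levels C K (X ∪ Y0 ∪ Y1) d hd
    have h3 := charge_depth C K X Y0 Y1 lev hr
    have h4 := hlev Y0 Y1 lev d hl (2 * (κ * M)) (by omega)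
    have h5 : q2 * (d + 1) * (2 * (κ * M)) ≤ Q * (d + 1) * M := by
      calc q2 * (d + 1) * (2 * (κ * M)) = 2 * κ * q2 * ((d + 1) * M) := by ring
        _ ≤ Q * ((d + 1) * M) := Nat.mul_le_mul_right _ hQ4
        _ = Q * (d + 1) * M := by ring
    exact ⟨(hlam _).trans (h4.1.trans h5), fun hY => (hlam _).trans ((h4.2 hY).trans h5)⟩
  refine ⟨?_, ?_, ?_, ?_⟩
  · intro D hD1 hD2 hD3
    refine (hprof D (hQ3.trans hD1) ((Nat.mul_le_mul_right _ hQ3).trans hD2) ?_).trans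
      (Nat.mul_le_mul_right _ hQ3)
    refine le_trans ?_ hD3
    exact Nat.mul_le_mul_right _ (Nat.mul_le_mul_right _ hQ3)
  · intro B
    have h3 := prof_few (shg C K X) (fun h => (below C h).card) (fo C K) n q1 k (C.wires K) B hq1 hk
      hfo hprof
    refine le_trans (Nat.mul_le_mul_left _ ?_) (h3.trans (Nat.mul_le_mul_right _ hQ2))
    refine Nat.div_le_div_left (Nat.mul_le_mul_right _ hQ2) ?_
    have : 0 < q1 ^ 2 := by positivity
    refine Nat.mul_pos (by omega) ?_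
    omega
  · have h3 := prof_log (shg C K X) (fun h => (below C h).card) (fo C K) n q1 k (C.wires K) hq1 hk
      hfo hprof
    refine le_trans (Nat.mul_le_mul_left _ (Nat.log_mono_right ?_))
      (h3.trans (Nat.mul_le_mul_right _ hQ1))
    exact div_anti (by positivity) hk hQ1
  · intro Y0 Y1 d hd
    refine ⟨?_, ?_⟩
    · refine (hdep Y0 Y1 d hd _ ?_).1
      refine le_trans (Nat.add_le_add_left (massY_below C K X Y1) _) ?_
      exact Nat.le_mul_of_pos_left _ hκ0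
    · intro hY
      refine (hdep Y0 Y1 d hd _ ?_).2 hY
      have h4 : massY C K X Y1 = 0 := by
        rw [hY]
        unfold massY
        rw [filter_empty, sum_empty]
      rw [h4]
      exact Nat.le_mul_of_pos_left _ hκ0

end Pool.Agent.Lib_MP_22d2c8_rt
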