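import Mathlib

/-!
# [RT-4] Pigeonhole over disjoint windows

For each point `t` at most one `i < M` has `Y i < t ≤ Y (i + 1)` (`Y` monotone), so
`∑_(i < M) (∑_(u ∈ A, Y i < f u ≤ Y (i + 1)) f u + the same for B, g) ≤ ∑_A f + ∑_B g ≤ 2 x ν`. With
`M = 2 * E * x` some `i < M` has `2 * E * x * (window sum) ≤ 2 * x * ν`, cancel `2 * x`.
(Induction on `M`: `∑_(i < M) (if Y i < t ∧ t ≤ Y (i + 1) then t else 0) ≤ if t ≤ Y M then t else 0`.)
-/

namespace Pool.Agent.Lib_MP_22d2c8_rt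

open Finset

private theorem window_single (Y : ℕ → ℕ) (hY : Monotone Y) (t : ℕ) : ∀ M : ℕ,
    ∑ i ∈ range M, (if Y i < t ∧ t ≤ Y (i + 1) then t else 0) ≤ if t ≤ Y M then t else 0 := by
  intro M
  induction M with
  | zero => simp
  | succ M ih =>
    rw [sum_range_succ]
    have h := hY (Nat.le_succ M)
    rw [Nat.succ_eq_add_one] at h
    by_cases h1 : t ≤ Y M
    · rw [if_pos h1] at ih
      rw [if_neg (show ¬ (Y M < t ∧ t ≤ Y (M + 1)) by omega), if_pos (show t ≤ Y (M + 1) by omega)]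
      omega
    · rw [if_neg h1] at ih
      by_cases h2 : t ≤ Y (M + 1)
      · rw [if_pos (show Y M < t ∧ t ≤ Y (M + 1) by omega), if_pos h2]
        omega
      · rw [if_neg (show ¬ (Y M < t ∧ t ≤ Y (M + 1)) by omega), if_neg h2]
        omega

private theorem window_sum {H : Type} [DecidableEq H] (A : Finset H) (f : H → ℕ) (Y : ℕ → ℕ)
    (hY : Monotone Y) (M : ℕ) :
    ∑ i ∈ range M, ∑ u ∈ A.filter (fun u => Y i < f u ∧ f u ≤ Y (i + 1)), f u ≤ ∑ u ∈ A, f u := by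
  simp only [sum_filter]
  rw [sum_comm]
  refine sum_le_sum fun u _ => ?_
  refine (window_single Y hY (f u) M).trans ?_
  split_ifs <;> omega

theorem window {H : Type} [DecidableEq H] (A B : Finset H) (f g : H → ℕ) (E x ν : ℕ) (hE : 1 ≤ E)
    (hx : 1 ≤ x) (hA : ∑ u ∈ A, f u ≤ x * ν) (hB : ∑ u ∈ B, g u ≤ x * ν) (Y : ℕ → ℕ)
    (hY : Monotone Y) :
    ∃ i < 2 * E * x, E * (∑ u ∈ A.filter (fun u => Y i < f u ∧ f u ≤ Y (i + 1)), f u +
      ∑ u ∈ B.filter (fun u => Y i < g u ∧ g u ≤ Y (i + 1)), g u) ≤ ν := by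
  by_contra hcon
  push Not at hcon
  have h1 : ∑ _i ∈ range (2 * E * x), (ν + 1) ≤ ∑ i ∈ range (2 * E * x),
      E * (∑ u ∈ A.filter (fun u => Y i < f u ∧ f u ≤ Y (i + 1)), f u +
        ∑ u ∈ B.filter (fun u => Y i < g u ∧ g u ≤ Y (i + 1)), g u) :=
    sum_le_sum fun i hi => hcon i (mem_range.1 hi)
  rw [sum_const, card_range, smul_eq_mul, ← mul_sum, sum_add_distrib] at h1
  have h2 := window_sum A f Y hY (2 * E * x)
  have h3 := window_sum B g Y hY (2 * E * x)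
  have h4 : E * (∑ i ∈ range (2 * E * x), ∑ u ∈ A.filter (fun u => Y i < f u ∧ f u ≤ Y (i + 1)), f u +
      ∑ i ∈ range (2 * E * x), ∑ u ∈ B.filter (fun u => Y i < g u ∧ g u ≤ Y (i + 1)), g u) ≤
      E * (x * ν + x * ν) := Nat.mul_le_mul_left E (by omega)
  have h5 : E * (x * ν + x * ν) = 2 * E * x * ν := by ring
  have h6 : 2 * E * x * (ν + 1) = 2 * E * x * ν + 2 * E * x := by ring
  have h7 : 0 < 2 * E * x := by positivity
  omega

end Pool.Agent.Lib_MP_22d2c8_rt
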