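import Pool.Agent.Lib_MP_22d2c8_rt.NetOne
import Pool.Agent.Lib_MP_22d2c8_rt.Window
import Pool.Agent.Lib_MP_22d2c8_rt.Contract
import Pool.Agent.Lib_MP_22d2c8_rt.Gr

/-!
# [RT-7] Every net has a cheap scale

Two-step induction on `d`. `d = 0`: `N` is empty, `D = x`, `Z = ∅`. `d = 1`: `net_one`.
`d + 2`: `g y = E * y * gr E d (2 * E * y ^ 3)`, `Y i = g^[i] x` (monotone, all `≥ x`), `window` for the
lowest and the highest gates gives `i < 2 * E * x`; `y = Y i`, `y' = Y (i + 1) = g y`. The induction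
hypothesis for `contract_isNet` gives `D ∈ [2 E y ^ 3, gr E d (2 E y ^ 3)]` and `Z'`. Then
`E * x * D ≤ y'`, `x ≤ D ≤ y' ≤ Y (2 E x) = gr E (d + 2) x`, `cost_contract`.
-/

namespace Pool.Agent.Lib_MP_22d2c8_rt

open Finset

private theorem le_step (E : ℕ) (hE : 1 ≤ E) (d y : ℕ) : y ≤ E * y * gr E d (2 * E * y ^ 3) := by
  rcases Nat.eq_zero_or_pos y with rfl | hy
  · exact Nat.zero_le _
  · have h1 : 1 ≤ 2 * E * y ^ 3 := Nat.mul_pos (by omega) (pow_pos hy 3)
    have h2 : 1 ≤ gr E d (2 * E * y ^ 3) := h1.trans (le_gr E d hE _)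
    calc y = 1 * y * 1 := by ring
      _ ≤ E * y * gr E d (2 * E * y ^ 3) := Nat.mul_le_mul (Nat.mul_le_mul_right y hE) h2

private theorem cutC_subset {H : Type} [DecidableEq H] (N : Finset H) (s d y y' : ℕ) (lev a φ : H → ℕ) :
    cutC N s d y y' lev a φ ⊆ N := by
  intro h hh
  unfold cutC low high at hh
  rcases mem_union.1 hh with h1 | h1
  · exact (mem_filter.1 (mem_filter.1 h1).1).1
  · exact (mem_filter.1 (mem_filter.1 h1).1).1

theorem net_main (E : ℕ) (hE : 1 ≤ E) (d : ℕ) : ∀ {H : Type} [DecidableEq H] (N : Finset H)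
    (s x ν : ℕ) (lev a φ : H → ℕ) (m : H → H → ℕ) (b : Finset H → H → ℕ), 1 ≤ x →
    IsNet N s d x ν lev a φ m b →
    ∃ D, x ≤ D ∧ D ≤ gr E d x ∧ ∃ Z ⊆ N, E * cost N φ b D Z ≤ (3 * d + 1) * (D * ν) := by
  induction d using Nat.twoStepInduction with
  | zero =>
    intro H _ N s x ν lev a φ m b hx h
    have hN : N = ∅ := by
      rw [eq_empty_iff_forall_notMem]
      intro u hu
      have h1 := h.lev_lt u hu
      have h2 := h.lev_le u hu
      omega
    refine ⟨x, le_rfl, le_rfl, ∅, empty_subset _, ?_⟩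
    subst hN
    simp [cost]
  | one =>
    intro H _ N s x ν lev a φ m b hx h
    obtain ⟨D, h1, h2, Z, hZ, h3⟩ := net_one E hE N s x ν lev a φ m b hx h
    exact ⟨D, h1, h2, Z, hZ, h3⟩
  | more d ih _ =>
    intro H _ N s x ν lev a φ m b hx h
    set g : ℕ → ℕ := fun y => E * y * gr E d (2 * E * y ^ 3) with hg
    have hgr : gr E (d + 2) x = g^[2 * E * x] x := rfl
    have hYs : ∀ i, g^[i + 1] x = g (g^[i] x) := fun i => Function.iterate_succ_apply' g i x
    have hY : Monotone fun i => g^[i] x := by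
      refine monotone_nat_of_le_succ fun i => ?_
      show g^[i] x ≤ g^[i + 1] x
      rw [hYs]
      exact le_step E hE d _
    have hA : ∑ u ∈ low N s lev, a u ≤ x * ν :=
      (sum_le_sum_of_subset (filter_subset _ _)).trans h.sum_a
    have hB : ∑ u ∈ high N s d lev, φ u ≤ x * ν :=
      (sum_le_sum_of_subset (filter_subset _ _)).trans h.sum_φ
    obtain ⟨i, hi, hw⟩ := window (low N s lev) (high N s d lev) a φ E x ν hE hx hA hB
      (fun i => g^[i] x) hY
    have hxy : x ≤ g^[i] x := hY (Nat.zero_le i)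
    have hyE : g^[i] x ≤ 2 * E * (g^[i] x) ^ 3 := by
      have h1 : (g^[i] x) ^ 1 ≤ (g^[i] x) ^ 3 := Nat.pow_le_pow_right (by omega) (by norm_num)
      calc g^[i] x = 1 * (g^[i] x) ^ 1 := by ring
        _ ≤ 2 * E * (g^[i] x) ^ 3 := Nat.mul_le_mul (by omega) h1
    obtain ⟨D, hD1, hD2, Z', hZ', hc⟩ := ih (mid N s d lev) (s + 1) (2 * E * (g^[i] x) ^ 3) ν lev
      (aC N s (g^[i] x) lev a m) (φC N s d (g^[i] x) lev φ m) m
      (fun Z => b (Z ∪ cutC N s d (g^[i] x) (g^[i + 1] x) lev a φ)) (by omega)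
      (contract_isNet h E (g^[i] x) (g^[i + 1] x) hE hx hxy)
    have hy' : E * x * D ≤ g^[i + 1] x := by
      rw [hYs]
      exact Nat.mul_le_mul (Nat.mul_le_mul_left E hxy) hD2
    have hDx : D ≤ E * x * D := Nat.le_mul_of_pos_left D (Nat.mul_pos hE hx)
    refine ⟨D, by omega, ?_, Z' ∪ cutC N s d (g^[i] x) (g^[i + 1] x) lev a φ,
      union_subset (hZ'.trans (filter_subset _ _)) (cutC_subset _ _ _ _ _ _ _ _),
      cost_contract h E (g^[i] x) (g^[i + 1] x) D hE hx hxy hD1 hy' hw Z' hZ' hc⟩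
    rw [hgr]
    exact (hDx.trans hy').trans (hY (by omega : i + 1 ≤ 2 * E * x))

end Pool.Agent.Lib_MP_22d2c8_rt
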