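import Pool.Agent.Lib_MP_22d2c8_rt.Defs

/-!
# [RT-3] Nets with one level

All gates have level `s + 1`, so `m u v = 0` and `b Z v ≤ a v`. Scales `D_j = x * 2 ^ j`, `j < E * x`,
cut sets `Z_j = {h ∈ N | D_j < a h}`. Then (real numbers)
`∑_j cost_j / D_j ≤ ∑_(h ∈ N) (∑_(j : D_j < a h) D_j + φ h * ∑_(j : a h ≤ D_j) a h / D_j)
  ≤ ∑_(h ∈ N) (2 * a h + 2 * φ h) ≤ 4 * x * ν`
(compare `Scales_two`, `Scales_three` in `Lib_MP_22d2c8_oa/Scales.lean`, private there, copy), so some
`j < E * x` has `E * cost_j ≤ 4 * D_j * ν`, and `x ≤ D_j ≤ x * 2 ^ (E * x) = gr E 1 x`.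
-/

namespace Pool.Agent.Lib_MP_22d2c8_rt

open Finset

private theorem one_low (x P : ℕ) (n : ℕ) :
    ∑ i ∈ range n, (if x * 2 ^ i < P then (x : ℝ) * 2 ^ i else 0) ≤ 2 * P ∧
      ∑ i ∈ range n, (if x * 2 ^ i < P then (x : ℝ) * 2 ^ i else 0) ≤ x * 2 ^ n := by
  induction n with
  | zero => simp
  | succ n ih =>
    obtain ⟨h1, h2⟩ := ih
    rw [Finset.sum_range_succ]
    have hx : (0 : ℝ) ≤ x * 2 ^ n := by positivity
    have hp : (x : ℝ) * 2 ^ (n + 1) = x * 2 ^ n + x * 2 ^ n := by ring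
    by_cases h : x * 2 ^ n < P
    · have h' : (x : ℝ) * 2 ^ n < P := by exact_mod_cast h
      rw [if_pos h, hp]
      constructor <;> linarith
    · rw [if_neg h, hp]
      constructor <;> linarith

private theorem one_high {x : ℝ} (hx : 0 < x) (n : ℕ) :
    ∀ P : ℝ, 0 ≤ P →
      ∑ i ∈ range n, (if P ≤ x * 2 ^ i then P / (x * 2 ^ i) else 0) ≤ 2 ∧
        ∑ i ∈ range n, (if P ≤ x * 2 ^ i then P / (x * 2 ^ i) else 0) ≤ 2 * P / x := by
  induction n with
  | zero =>
    intro P hP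
    simp
    positivity
  | succ n ih =>
    intro P hP
    obtain ⟨h1, h2⟩ := ih (P / 2) (by positivity)
    have h3 : ∑ i ∈ range n, (if P ≤ x * 2 ^ (i + 1) then P / (x * 2 ^ (i + 1)) else 0) =
        ∑ i ∈ range n, (if P / 2 ≤ x * 2 ^ i then P / 2 / (x * 2 ^ i) else 0) := by
      refine Finset.sum_congr rfl fun i _ => ?_
      have e1 : P ≤ x * 2 ^ (i + 1) ↔ P / 2 ≤ x * 2 ^ i := by
        rw [pow_succ, div_le_iff₀ (by norm_num : (0 : ℝ) < 2), mul_assoc]
      have e2 : P / (x * 2 ^ (i + 1)) = P / 2 / (x * 2 ^ i) := by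
        rw [pow_succ, div_div]
        congr 1
        ring
      rw [e2]
      exact if_congr e1 rfl rfl
    rw [Finset.sum_range_succ', h3]
    simp only [pow_zero, mul_one]
    have h4 : 2 * (P / 2) / x = P / x := by ring
    have h5 : 2 * P / x = P / x + P / x := by ring
    have h6 : 0 ≤ P / x := by positivity
    rw [h4] at h2
    rw [h5]
    by_cases h : P ≤ x
    · rw [if_pos h]
      have h7 : P / x ≤ 1 := by
        rw [div_le_one hx]
        exact h
      constructor <;> linarith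
    · rw [if_neg h]
      constructor <;> linarith

private theorem one_b {H : Type} [DecidableEq H] {N : Finset H} {s x ν : ℕ}
    {lev a φ : H → ℕ} {m : H → H → ℕ} {b : Finset H → H → ℕ}
    (h : IsNet N s 1 x ν lev a φ m b) {Z : Finset H} (hZ : Z ⊆ N) {v : H} (hv : v ∈ N) : b Z v ≤ a v := by
  have h1 := h.b_le Z hZ v hv
  have h2 : ∑ u ∈ N \ Z, m u v * b Z u = 0 := by
    refine Finset.sum_eq_zero fun u hu => ?_
    have huN : u ∈ N := (mem_sdiff.mp hu).1
    have h3 : m u v = 0 := by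
      by_contra hne
      have h4 := h.m_lev u huN v hv hne
      have h5 := h.lev_lt u huN
      have h6 := h.lev_le v hv
      omega
    rw [h3, zero_mul]
  omega

private theorem one_cost {H : Type} [DecidableEq H] {N : Finset H} {s x ν : ℕ}
    {lev a φ : H → ℕ} {m : H → H → ℕ} {b : Finset H → H → ℕ}
    (h : IsNet N s 1 x ν lev a φ m b) {D : ℕ} (hD : 1 ≤ D) :
    (cost N φ b D (N.filter fun u => D < a u) : ℝ) / D ≤
      ∑ u ∈ N, ((if D < a u then (D : ℝ) else 0) + φ u * (if a u ≤ D then (a u : ℝ) / D else 0)) := by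
  have hDR : (0 : ℝ) < D := by exact_mod_cast hD
  have hZ : (N.filter fun u => D < a u) ⊆ N := filter_subset _ _
  have h1 : cost N φ b D (N.filter fun u => D < a u) ≤
      D * ∑ u ∈ N, (if D < a u then D else 0) + ∑ u ∈ N, φ u * (if a u ≤ D then a u else 0) := by
    unfold cost
    refine Nat.add_le_add (Nat.mul_le_mul_left D ?_) ?_
    · rw [← Finset.sum_filter]
      exact Finset.sum_le_sum fun u _ => min_le_left _ _
    · have h2 : N \ (N.filter fun u => D < a u) = N.filter fun u => a u ≤ D := by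
        ext u
        simp only [mem_sdiff, mem_filter, not_and, not_lt]
        constructor
        · rintro ⟨h3, h4⟩
          exact ⟨h3, h4 h3⟩
        · rintro ⟨h3, h4⟩
          exact ⟨h3, fun _ => h4⟩
      rw [h2]
      have h3 : ∑ u ∈ N, φ u * (if a u ≤ D then a u else 0) = ∑ u ∈ N.filter (fun u => a u ≤ D), φ u * a u := by
        rw [Finset.sum_filter]
        refine Finset.sum_congr rfl fun u _ => ?_
        by_cases h4 : a u ≤ D
        · rw [if_pos h4, if_pos h4]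
        · rw [if_neg h4, if_neg h4, mul_zero]
      rw [h3]
      refine Finset.sum_le_sum fun u hu => Nat.mul_le_mul_left _ ?_
      exact (min_le_right _ _).trans (one_b h hZ (mem_filter.mp hu).1)
  have h2 : (cost N φ b D (N.filter fun u => D < a u) : ℝ) ≤
      D * ∑ u ∈ N, (if D < a u then (D : ℝ) else 0) + ∑ u ∈ N, (φ u : ℝ) * (if a u ≤ D then (a u : ℝ) else 0) := by
    have h3 : (cost N φ b D (N.filter fun u => D < a u) : ℝ) ≤
        ((D * ∑ u ∈ N, (if D < a u then D else 0) + ∑ u ∈ N, φ u * (if a u ≤ D then a u else 0) : ℕ) : ℝ) := by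
      exact_mod_cast h1
    refine h3.trans (le_of_eq ?_)
    push_cast
    rfl
  rw [div_le_iff₀ hDR]
  refine h2.trans (le_of_eq ?_)
  rw [Finset.sum_add_distrib, add_mul, mul_comm (D : ℝ)]
  congr 1
  rw [Finset.sum_mul]
  refine Finset.sum_congr rfl fun u _ => ?_
  by_cases h4 : a u ≤ D
  · rw [if_pos h4, if_pos h4, mul_assoc, div_mul_cancel₀ _ hDR.ne']
  · rw [if_neg h4, if_neg h4, mul_zero, zero_mul]

theorem net_one (E : ℕ) (hE : 1 ≤ E) {H : Type} [DecidableEq H] (N : Finset H) (s x ν : ℕ)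
    (lev a φ : H → ℕ) (m : H → H → ℕ) (b : Finset H → H → ℕ) (hx : 1 ≤ x)
    (h : IsNet N s 1 x ν lev a φ m b) :
    ∃ D, x ≤ D ∧ D ≤ gr E 1 x ∧ ∃ Z ⊆ N, E * cost N φ b D Z ≤ 4 * (D * ν) := by
  by_contra hcon
  push Not at hcon
  have hER : (0 : ℝ) < E := by exact_mod_cast hE
  have hxR : (0 : ℝ) < x := by exact_mod_cast hx
  -- each scale is expensive
  have h1 : ∀ j ∈ range (E * x), 4 * (ν : ℝ) / E <
      (cost N φ b (x * 2 ^ j) (N.filter fun u => x * 2 ^ j < a u) : ℝ) / ((x * 2 ^ j : ℕ) : ℝ) := by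
    intro j hj
    have hj' : j < E * x := mem_range.mp hj
    have hD : 1 ≤ x * 2 ^ j := Nat.one_le_iff_ne_zero.mpr (by positivity)
    have hDR : (0 : ℝ) < ((x * 2 ^ j : ℕ) : ℝ) := by exact_mod_cast hD
    have h2 := hcon (x * 2 ^ j) (Nat.le_mul_of_pos_right x (by positivity))
      (Nat.mul_le_mul_left x (Nat.pow_le_pow_right (by norm_num) hj'.le))
      (N.filter fun u => x * 2 ^ j < a u) (filter_subset _ _)
    have h3 : (4 : ℝ) * (((x * 2 ^ j : ℕ) : ℝ) * ν) <
        E * (cost N φ b (x * 2 ^ j) (N.filter fun u => x * 2 ^ j < a u) : ℝ) := by exact_mod_cast h2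
    rw [div_lt_div_iff₀ hER hDR]
    linarith
  have hne : (range (E * x)).Nonempty := ⟨0, mem_range.mpr (Nat.mul_pos hE hx)⟩
  have h2 := Finset.sum_lt_sum_of_nonempty hne h1
  rw [Finset.sum_const, card_range, nsmul_eq_mul] at h2
  -- the sum over the scales
  have h3 : ∑ j ∈ range (E * x),
      (cost N φ b (x * 2 ^ j) (N.filter fun u => x * 2 ^ j < a u) : ℝ) / ((x * 2 ^ j : ℕ) : ℝ) ≤
      ∑ u ∈ N, (2 * (a u : ℝ) + 2 * φ u) := by
    calc ∑ j ∈ range (E * x),
          (cost N φ b (x * 2 ^ j) (N.filter fun u => x * 2 ^ j < a u) : ℝ) / ((x * 2 ^ j : ℕ) : ℝ)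
        ≤ ∑ j ∈ range (E * x), ∑ u ∈ N, ((if x * 2 ^ j < a u then ((x * 2 ^ j : ℕ) : ℝ) else 0) +
            φ u * (if a u ≤ x * 2 ^ j then (a u : ℝ) / ((x * 2 ^ j : ℕ) : ℝ) else 0)) := by
          refine Finset.sum_le_sum fun j _ => one_cost h ?_
          exact Nat.one_le_iff_ne_zero.mpr (by positivity)
      _ = ∑ u ∈ N, (∑ j ∈ range (E * x), (if x * 2 ^ j < a u then ((x * 2 ^ j : ℕ) : ℝ) else 0) +
            φ u * ∑ j ∈ range (E * x), (if a u ≤ x * 2 ^ j then (a u : ℝ) / ((x * 2 ^ j : ℕ) : ℝ) else 0)) := by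
          rw [Finset.sum_comm]
          refine Finset.sum_congr rfl fun u _ => ?_
          rw [Finset.sum_add_distrib, Finset.mul_sum]
      _ ≤ ∑ u ∈ N, (2 * (a u : ℝ) + 2 * φ u) := by
          refine Finset.sum_le_sum fun u _ => ?_
          have e1 : ∑ j ∈ range (E * x), (if x * 2 ^ j < a u then ((x * 2 ^ j : ℕ) : ℝ) else 0) ≤ 2 * (a u : ℝ) := by
            refine le_trans (le_of_eq ?_) (one_low x (a u) (E * x)).1
            refine Finset.sum_congr rfl fun j _ => ?_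
            push_cast
            rfl
          have e2 : ∑ j ∈ range (E * x), (if a u ≤ x * 2 ^ j then (a u : ℝ) / ((x * 2 ^ j : ℕ) : ℝ) else 0) ≤ 2 := by
            refine le_trans (le_of_eq ?_) (one_high hxR (E * x) (a u) (Nat.cast_nonneg _)).1
            refine Finset.sum_congr rfl fun j _ => ?_
            have e3 : a u ≤ x * 2 ^ j ↔ (a u : ℝ) ≤ x * 2 ^ j := by exact_mod_cast Iff.rfl
            push_cast
            exact if_congr e3 rfl rfl
          have e4 : (φ u : ℝ) * ∑ j ∈ range (E * x),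
              (if a u ≤ x * 2 ^ j then (a u : ℝ) / ((x * 2 ^ j : ℕ) : ℝ) else 0) ≤ φ u * 2 :=
            mul_le_mul_of_nonneg_left e2 (Nat.cast_nonneg _)
          linarith
  have h4 : ∑ u ∈ N, (2 * (a u : ℝ) + 2 * φ u) ≤ 4 * (x * ν) := by
    have h5 : (∑ u ∈ N, (a u : ℝ)) ≤ x * ν := by exact_mod_cast h.sum_a
    have h6 : (∑ u ∈ N, (φ u : ℝ)) ≤ x * ν := by exact_mod_cast h.sum_φ
    rw [Finset.sum_add_distrib, ← Finset.mul_sum, ← Finset.mul_sum]
    linarith
  have h5 : ((E * x : ℕ) : ℝ) * (4 * (ν : ℝ) / E) = 4 * (x * ν) := by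
    push_cast
    field_simp
  rw [h5] at h2
  linarith

end Pool.Agent.Lib_MP_22d2c8_rt
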